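import Pool.Agent.R533.PSP.Cost

/-!
# Euclidean Max-2-PSP: bounds of the potentials
-/

namespace Pool.Agent.R533.PSP

theorem al_le {n : ℕ} {a b : ℕ → ℤ} {x : ℤ} (ha : ∀ s, s + 1 < n → a s ≤ a (s + 1))
    (hb : ∀ s, s < n → b s ≤ x) {r : ℕ} (hr : r < n) : al a b r ≤ 2 * x * (a r - a 0) := by
  induction r with
  | zero => rw [al_zero]; simp
  | succ r ih =>
    rw [al_succ]
    have := ih (by omega)
    have h1 := ha r hr
    have h2 := hb r (by omega)
    have h3 := hb (r + 1) hr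
    have : (b r + b (r + 1)) * (a (r + 1) - a r) ≤ (2 * x) * (a (r + 1) - a r) :=
      mul_le_mul_of_nonneg_right (by linarith) (by linarith)
    linarith

theorem be_le {n : ℕ} {a b : ℕ → ℤ} {x : ℤ} (hb : ∀ s, s + 1 < n → b s ≤ b (s + 1))
    (ha : ∀ s, s < n → a s ≤ x) {r : ℕ} (hr : r < n) :
    be a b r ≤ 2 * (a 0 * b 0) + 2 * x * (b r - b 0) := by
  induction r with
  | zero => rw [be_zero]; simp
  | succ r ih =>
    rw [be_succ]
    have := ih (by omega)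
    have h1 := hb r hr
    have h2 := ha r (by omega)
    have h3 := ha (r + 1) hr
    have : (a r + a (r + 1)) * (b (r + 1) - b r) ≤ (2 * x) * (b (r + 1) - b r) :=
      mul_le_mul_of_nonneg_right (by linarith) (by linarith)
    linarith

/-- Bounds for the data. -/
structure Bd (h : Sh) (x : ℤ) : Prop where
  D1 : 1 ≤ h.D
  M0 : 0 ≤ h.M
  x0 : 0 ≤ x
  omono : ∀ k r, r + 1 < h.len k → h.o k r ≤ h.o k (r + 1)
  imono : ∀ k r, r + 1 < h.len k → h.i k r ≤ h.i k (r + 1)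
  o : ∀ k r, r < h.len k → h.D * (2 * h.o k r) ≤ x
  i : ∀ k r, r < h.len k → h.D * (2 * h.i k r) ≤ x
  B : h.B = x ^ 2 + 2 * h.M

namespace Bd

variable {h : Sh} {x : ℤ}

theorem xl_mono (hb : Bd h x) {k p p' : ℕ} (hp : p ≤ p') : h.xl k p ≤ h.xl k p' := by
  have hD := hb.D1
  have h2 : (p : ℤ) ≤ (p' : ℤ) := by exact_mod_cast hp
  unfold Sh.xl
  split_ifs
  · exact h2
  · exact mul_le_mul_of_nonneg_left h2 (by linarith)

theorem xl_bd (hb : Bd h x) {k p : ℕ} (hp : h.D * (2 * p) ≤ x) : 0 ≤ h.xl k p ∧ h.xl k p ≤ x := by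
  have hD := hb.D1
  have h0 : (0 : ℤ) ≤ (p : ℤ) := Int.natCast_nonneg _
  unfold Sh.xl
  split_ifs
  · exact ⟨h0, by nlinarith⟩
  · exact ⟨by positivity, by nlinarith⟩

theorem xr_mono (hb : Bd h x) {k j s : ℕ} (hs : s + 1 < h.len k) :
    h.xr k j s ≤ h.xr k j (s + 1) := by
  have hD := hb.D1
  have h1 := hb.omono k s hs
  have h2 := hb.imono k s hs
  unfold Sh.xr
  split_ifs
  · exact_mod_cast h1
  · apply mul_le_mul_of_nonneg_left _ (by linarith)
    have : h.o k s + h.i k s ≤ h.o k (s + 1) + h.i k (s + 1) := by omega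
    exact_mod_cast this

theorem xr_bd (hb : Bd h x) {k j r : ℕ} (hr : r < h.len k) :
    0 ≤ h.xr k j r ∧ h.xr k j r ≤ x := by
  have hD := hb.D1
  have h1 := hb.o k r hr
  have h2 := hb.i k r hr
  have h3 : (0 : ℤ) ≤ (h.o k r : ℤ) := Int.natCast_nonneg _
  have h4 : (0 : ℤ) ≤ (h.i k r : ℤ) := Int.natCast_nonneg _
  unfold Sh.xr
  split_ifs
  · exact ⟨h3, by nlinarith⟩
  · push_cast
    exact ⟨by positivity, by nlinarith⟩

theorem a_mono (hb : Bd h x) {k j s : ℕ} (hs : s + 1 < h.len k) :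
    h.a k j s ≤ h.a k j (s + 1) := by
  unfold Sh.a
  split_ifs
  · exact hb.xl_mono (hb.omono k s hs)
  · exact hb.xr_mono hs

theorem b_mono (hb : Bd h x) {k j s : ℕ} (hs : s + 1 < h.len k) :
    h.b k j s ≤ h.b k j (s + 1) := by
  unfold Sh.b
  split_ifs
  · exact hb.xl_mono (hb.imono k s hs)
  · exact hb.xr_mono hs

theorem a_bd (hb : Bd h x) {k j r : ℕ} (hr : r < h.len k) :
    0 ≤ h.a k j r ∧ h.a k j r ≤ x := by
  unfold Sh.a
  split_ifs
  · exact hb.xl_bd (hb.o k r hr)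
  · exact hb.xr_bd hr

theorem b_bd (hb : Bd h x) {k j r : ℕ} (hr : r < h.len k) :
    0 ≤ h.b k j r ∧ h.b k j r ≤ x := by
  unfold Sh.b
  split_ifs
  · exact hb.xl_bd (hb.i k r hr)
  · exact hb.xr_bd hr

theorem Pg_bd (hb : Bd h x) {k j r : ℕ} (hr : r < h.len k) :
    - (2 * x ^ 2) ≤ h.Pg k j r ∧ h.Pg k j r ≤ x ^ 2 + h.M := by
  have hx := hb.x0
  have hM := hb.M0
  have h0 : 0 < h.len k := by omega
  have a1 := hb.a_bd (j := j) hr
  have a2 := hb.a_bd (j := j) h0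
  have l1 := al_nonneg (a := h.a k j) (b := h.b k j) (n := h.len k)
    (fun s hs => hb.a_mono hs) (fun s hs => (hb.b_bd hs).1) hr
  have l2 := al_le (a := h.a k j) (b := h.b k j) (n := h.len k) (x := x)
    (fun s hs => hb.a_mono hs) (fun s hs => (hb.b_bd hs).2) hr
  have l3 : 2 * x * (h.a k j r - h.a k j 0) ≤ 2 * x * x :=
    mul_le_mul_of_nonneg_left (by linarith) (by linarith)
  have s1 : h.a k j r ^ 2 ≤ x ^ 2 := pow_le_pow_left₀ a1.1 a1.2 2
  have s2 : 0 ≤ h.a k j r ^ 2 := sq_nonneg _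
  unfold Sh.Pg
  constructor
  · split_ifs <;> linarith
  · split_ifs <;> linarith

theorem Qg_bd (hb : Bd h x) {k j r : ℕ} (hr : r < h.len k) :
    - (4 * x ^ 2) ≤ h.Qg k j r ∧ h.Qg k j r ≤ x ^ 2 := by
  have hx := hb.x0
  have h0 : 0 < h.len k := by omega
  have a2 := hb.a_bd (j := j) h0
  have b1 := hb.b_bd (j := j) hr
  have b2 := hb.b_bd (j := j) h0
  have l1 := be_nonneg (a := h.a k j) (b := h.b k j) (n := h.len k)
    (fun s hs => hb.b_mono hs) (fun s hs => (hb.a_bd hs).1) (fun s hs => (hb.b_bd hs).1) hr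
  have l2 := be_le (a := h.a k j) (b := h.b k j) (n := h.len k) (x := x)
    (fun s hs => hb.b_mono hs) (fun s hs => (hb.a_bd hs).2) hr
  have l3 : 2 * x * (h.b k j r - h.b k j 0) ≤ 2 * x * x :=
    mul_le_mul_of_nonneg_left (by linarith) (by linarith)
  have l4 : h.a k j 0 * h.b k j 0 ≤ x * x := mul_le_mul a2.2 b2.2 b2.1 hx
  have s1 : h.b k j r ^ 2 ≤ x ^ 2 := pow_le_pow_left₀ b1.1 b1.2 2
  have s2 : 0 ≤ h.b k j r ^ 2 := sq_nonneg _
  unfold Sh.Qg
  constructor <;> linarith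

theorem hB (hb : Bd h x) {k j r : ℕ} (hr : r < h.len k) :
    h.Pg k j r + h.M ≤ h.B ∧ h.Qg k j r + h.M ≤ h.B := by
  have h1 := hb.Pg_bd (j := j) hr
  have h2 := hb.Qg_bd (j := j) hr
  have hM := hb.M0
  rw [hb.B]
  constructor <;> linarith

theorem X_bd (hb : Bd h x) {v : V} (hv : h.IsV v) : |h.X v| ≤ x := by
  obtain ⟨k, j, p, q⟩ := v
  rw [abs_le]
  have hx := hb.x0
  rcases hv with h1 | h1
  · obtain ⟨a1, -, a3⟩ := h1
    simp only at a1 a3
    subst a1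
    have : h.D * (2 * p) ≤ x := by
      rcases a3 with a3 | a3
      · obtain ⟨r, hr, rfl⟩ := Sh.isLo_iff.1 a3
        exact hb.o k r hr
      · obtain ⟨r, hr, rfl⟩ := Sh.isUp_iff.1 a3
        exact hb.i _ r hr
    have := hb.xl_bd (k := k) this
    simp only [Sh.X, if_pos]
    constructor <;> linarith [this.1, this.2]
  · obtain ⟨a1, -, a3, -⟩ := h1
    simp only at a1 a3
    have := hb.xr_bd (j := j) a3
    simp only [Sh.X, if_neg (show ¬ j = 0 by omega)]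
    constructor <;> linarith [this.1, this.2]

theorem P_bd (hb : Bd h x) {v : V} (hv : h.IsV v) : |h.P v| ≤ 4 * x ^ 2 + 2 * h.M := by
  obtain ⟨k, j, p, q⟩ := v
  rw [abs_le]
  have hx := hb.x0
  have hM := hb.M0
  have hx2 : 0 ≤ x ^ 2 := sq_nonneg _
  have key : ∀ k j r, r < h.len k →
      -(4 * x ^ 2 + 2 * h.M) ≤ h.Pg k j r ∧ h.Pg k j r ≤ 4 * x ^ 2 + 2 * h.M := by
    intro k j r hr
    have := hb.Pg_bd (j := j) hr
    constructor <;> linarith [this.1, this.2]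
  rcases hv with h1 | h1
  · obtain ⟨a1, -, a3⟩ := h1
    simp only at a1 a3
    subst a1
    simp only [Sh.P, if_pos]
    split_ifs with hlo
    · obtain ⟨r, hr, hrp⟩ := Sh.isLo_iff.1 hlo
      exact key _ _ _ (cl_spec (f := fun r => h.o k r) (hb.omono k) hr hrp).1
    · rw [hb.B]
      constructor <;> linarith
  · obtain ⟨a1, -, a3, -⟩ := h1
    simp only at a1 a3
    simp only [Sh.P, if_neg (show ¬ j = 0 by omega)]
    exact key _ _ _ a3

theorem Q_bd (hb : Bd h x) {v : V} (hv : h.IsV v) : |h.Q v| ≤ 4 * x ^ 2 + 2 * h.M := by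
  obtain ⟨k, j, p, q⟩ := v
  rw [abs_le]
  have hx := hb.x0
  have hM := hb.M0
  have hx2 : 0 ≤ x ^ 2 := sq_nonneg _
  have key : ∀ k j r, r < h.len k →
      -(4 * x ^ 2 + 2 * h.M) ≤ h.Qg k j r ∧ h.Qg k j r ≤ 4 * x ^ 2 + 2 * h.M := by
    intro k j r hr
    have := hb.Qg_bd (j := j) hr
    constructor <;> linarith [this.1, this.2]
  rcases hv with h1 | h1
  · obtain ⟨a1, -, a3⟩ := h1
    simp only at a1 a3
    subst a1
    simp only [Sh.Q, if_pos]
    split_ifs with hup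
    · obtain ⟨r, hr, hrp⟩ := Sh.isUp_iff.1 hup
      exact key _ _ _ (cl_spec (f := fun r => h.i (k - 1) r) (hb.imono (k - 1)) hr hrp).1
    · rw [hb.B]
      constructor <;> linarith
  · obtain ⟨a1, -, a3, -⟩ := h1
    simp only at a1 a3
    simp only [Sh.Q, if_neg (show ¬ j = 0 by omega)]
    exact key _ _ _ a3

end Bd

end Pool.Agent.R533.PSP
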