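import Mathlib

/-!
# Euclidean Max-2-PSP: connecting many labels needs many pairs
-/

namespace Pool.Agent.R533.PSP

theorem card_le_of_conn {Γ ι : Type} (Λ : Finset Γ) (E : Finset ι) (f g : ι → Γ)
    (hf : ∀ e ∈ E, f e ∈ Λ) (hg : ∀ e ∈ E, g e ∈ Λ)
    (hc : ∀ L : Γ → Prop, (∀ e ∈ E, (L (f e) ↔ L (g e))) → ∀ c ∈ Λ, ∀ c' ∈ Λ, (L c ↔ L c')) :
    Λ.card ≤ E.card + 1 := by
  classical
  rcases Λ.eq_empty_or_nonempty with h0 | ⟨c0, hc0⟩
  · rw [h0]; simp
  set G : SimpleGraph Λ := SimpleGraph.fromRel fun x y => ∃ e ∈ E, f e = x.1 ∧ g e = y.1 with hG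
  have hconn : G.Connected := by
    refine { preconnected := ?_, nonempty := ⟨⟨c0, hc0⟩⟩ }
    rintro ⟨x, hx⟩ ⟨y, hy⟩
    have key := hc (fun c => ∃ h : c ∈ Λ, G.Reachable ⟨x, hx⟩ ⟨c, h⟩) (by
      intro e he
      have hadj : f e ≠ g e → G.Adj ⟨f e, hf e he⟩ ⟨g e, hg e he⟩ := by
        intro hne
        rw [hG, SimpleGraph.fromRel_adj]
        exact ⟨fun h => hne (congrArg Subtype.val h), Or.inl ⟨e, he, rfl, rfl⟩⟩
      by_cases hne : f e = g e
      · rw [hne]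
      · constructor
        · rintro ⟨h1, h2⟩
          exact ⟨hg e he, h2.trans (hadj hne).reachable⟩
        · rintro ⟨h1, h2⟩
          exact ⟨hf e he, h2.trans (hadj hne).symm.reachable⟩) x hx y hy
    obtain ⟨_, h⟩ := key.1 ⟨hx, SimpleGraph.Reachable.refl _⟩
    exact h
  have h1 := hconn.card_vert_le_card_edgeSet_add_one
  have h2 : Nat.card G.edgeSet ≤ E.card := by
    have hsub : G.edgeSet ⊆ ((E.attach.image fun e : {x // x ∈ E} =>
        (s(⟨f e.1, hf e.1 e.2⟩, ⟨g e.1, hg e.1 e.2⟩) : Sym2 Λ)) : Finset (Sym2 Λ)) := by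
      intro p hp
      induction p using Sym2.ind with
      | _ x y =>
        rw [SimpleGraph.mem_edgeSet, hG, SimpleGraph.fromRel_adj] at hp
        rw [Finset.mem_coe, Finset.mem_image]
        rcases hp.2 with ⟨e, he, h3, h4⟩ | ⟨e, he, h3, h4⟩
        · refine ⟨⟨e, he⟩, Finset.mem_attach _ _, ?_⟩
          have e1 : (⟨f e, hf e he⟩ : Λ) = x := Subtype.ext h3
          have e2 : (⟨g e, hg e he⟩ : Λ) = y := Subtype.ext h4
          rw [e1, e2]
        · refine ⟨⟨e, he⟩, Finset.mem_attach _ _, ?_⟩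
          have e1 : (⟨f e, hf e he⟩ : Λ) = y := Subtype.ext h3
          have e2 : (⟨g e, hg e he⟩ : Λ) = x := Subtype.ext h4
          rw [e1, e2, Sym2.eq_swap]
    calc Nat.card G.edgeSet = G.edgeSet.ncard := rfl
      _ ≤ (((E.attach.image fun e : {x // x ∈ E} =>
        (s(⟨f e.1, hf e.1 e.2⟩, ⟨g e.1, hg e.1 e.2⟩) : Sym2 Λ)) : Finset (Sym2 Λ)) :
          Set (Sym2 Λ)).ncard := Set.ncard_le_ncard hsub (Finset.finite_toSet _)
      _ ≤ E.card := by
        rw [Set.ncard_coe_finset]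
        exact Finset.card_image_le.trans (by rw [Finset.card_attach])
  have h3 : Nat.card Λ = Λ.card := by simp
  omega

end Pool.Agent.R533.PSP
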