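import Pool.Agent.R533.PSP.Shape

/-!
# Euclidean Max-2-PSP: the two Hamiltonian paths of a rod
-/

namespace Pool.Agent.R533.PSP

/-- The edges of the Hamiltonian path `c` of a rod between the offsets `j` and `j + 1`. -/
def pat (c j q q' : ℕ) : Bool :=
  if j = 1 ∨ j = 5 then
    (if c = 0 then (q = 0 ∧ q' = 0) ∨ (q = 1 ∧ q' = 1) ∨ (q = 1 ∧ q' = 2)
    else (q = 0 ∧ q' = 1) ∨ (q = 0 ∧ q' = 2) ∨ (q = 1 ∧ q' = 0))
  else if j = 2 ∨ j = 6 then
    (if c = 0 then (q = 0 ∧ q' = 1) ∨ (q = 1 ∧ q' = 1) ∨ (q = 2 ∧ q' = 0)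
    else (q = 0 ∧ q' = 0) ∨ (q = 1 ∧ q' = 0) ∨ (q = 2 ∧ q' = 1))
  else if j = 3 then (q = c ∧ q' = 0)
  else (q = 0 ∧ q' = c)

/-- Upward degree in a rod. -/
def nUp (c j q : ℕ) : ℕ :=
  if j = 7 then (if q = c then 1 else 0)
  else ((Finset.range (wd (j + 1))).filter fun q' => pat c j q q' = true).card

/-- Downward degree in a rod. -/
def nDn (c j q : ℕ) : ℕ :=
  if j = 1 then (if q = c then 1 else 0)
  else ((Finset.range (wd (j - 1))).filter fun q' => pat c (j - 1) q' q = true).card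

theorem deg_rod : ∀ c < 2, ∀ j < 8, 1 ≤ j → ∀ q < wd j, nUp c j q + nDn c j q = 2 := by decide

theorem pat_cover : ∀ j < 7, 1 ≤ j → ∀ q < wd j, ∀ q' < wd (j + 1),
    pat 0 j q q' = true ∨ pat 1 j q q' = true := by decide

theorem pat_disj : ∀ j < 7, 1 ≤ j → ∀ q < wd j, ∀ q' < wd (j + 1),
    ¬ (pat 0 j q q' = true ∧ pat 1 j q q' = true) := by decide

theorem rod_path0 (Q : ℕ → ℕ → Prop) (H : ∀ j q q', 1 ≤ j → j ≤ 6 → q < wd j → q' < wd (j + 1) →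
    pat 0 j q q' = true → (Q j q ↔ Q (j + 1) q')) :
    ∀ j q, 1 ≤ j → j ≤ 7 → q < wd j → (Q 1 0 ↔ Q j q) := by
  have s1 : Q 1 0 ↔ Q 2 0 := H 1 0 0 (by omega) (by omega) (by decide) (by decide) (by decide)
  have s2 : Q 2 0 ↔ Q 3 1 := H 2 0 1 (by omega) (by omega) (by decide) (by decide) (by decide)
  have s3 : Q 3 1 ↔ Q 2 1 := (H 2 1 1 (by omega) (by omega) (by decide) (by decide) (by decide)).symm
  have s4 : Q 2 1 ↔ Q 1 1 := (H 1 1 1 (by omega) (by omega) (by decide) (by decide) (by decide)).symm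
  have s5 : Q 1 1 ↔ Q 2 2 := H 1 1 2 (by omega) (by omega) (by decide) (by decide) (by decide)
  have s6 : Q 2 2 ↔ Q 3 0 := H 2 2 0 (by omega) (by omega) (by decide) (by decide) (by decide)
  have s7 : Q 3 0 ↔ Q 4 0 := H 3 0 0 (by omega) (by omega) (by decide) (by decide) (by decide)
  have s8 : Q 4 0 ↔ Q 5 0 := H 4 0 0 (by omega) (by omega) (by decide) (by decide) (by decide)
  have s9 : Q 5 0 ↔ Q 6 0 := H 5 0 0 (by omega) (by omega) (by decide) (by decide) (by decide)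
  have s10 : Q 6 0 ↔ Q 7 1 := H 6 0 1 (by omega) (by omega) (by decide) (by decide) (by decide)
  have s11 : Q 7 1 ↔ Q 6 1 := (H 6 1 1 (by omega) (by omega) (by decide) (by decide) (by decide)).symm
  have s12 : Q 6 1 ↔ Q 5 1 := (H 5 1 1 (by omega) (by omega) (by decide) (by decide) (by decide)).symm
  have s13 : Q 5 1 ↔ Q 6 2 := H 5 1 2 (by omega) (by omega) (by decide) (by decide) (by decide)
  have s14 : Q 6 2 ↔ Q 7 0 := H 6 2 0 (by omega) (by omega) (by decide) (by decide) (by decide)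
  have g0 : Q 1 0 ↔ Q 1 0 := Iff.rfl
  have g1 : Q 1 0 ↔ Q 2 0 := g0.trans s1
  have g2 : Q 1 0 ↔ Q 3 1 := g1.trans s2
  have g3 : Q 1 0 ↔ Q 2 1 := g2.trans s3
  have g4 : Q 1 0 ↔ Q 1 1 := g3.trans s4
  have g5 : Q 1 0 ↔ Q 2 2 := g4.trans s5
  have g6 : Q 1 0 ↔ Q 3 0 := g5.trans s6
  have g7 : Q 1 0 ↔ Q 4 0 := g6.trans s7
  have g8 : Q 1 0 ↔ Q 5 0 := g7.trans s8
  have g9 : Q 1 0 ↔ Q 6 0 := g8.trans s9
  have g10 : Q 1 0 ↔ Q 7 1 := g9.trans s10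
  have g11 : Q 1 0 ↔ Q 6 1 := g10.trans s11
  have g12 : Q 1 0 ↔ Q 5 1 := g11.trans s12
  have g13 : Q 1 0 ↔ Q 6 2 := g12.trans s13
  have g14 : Q 1 0 ↔ Q 7 0 := g13.trans s14
  intro j q h1 h2 h3
  have h4 : q < 3 := lt_of_lt_of_le h3 (by unfold wd; split_ifs <;> omega)
  interval_cases j <;> interval_cases q <;>
    first | assumption | exact absurd h3 (by decide)

theorem rod_path1 (Q : ℕ → ℕ → Prop) (H : ∀ j q q', 1 ≤ j → j ≤ 6 → q < wd j → q' < wd (j + 1) →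
    pat 1 j q q' = true → (Q j q ↔ Q (j + 1) q')) :
    ∀ j q, 1 ≤ j → j ≤ 7 → q < wd j → (Q 1 1 ↔ Q j q) := by
  have s1 : Q 1 1 ↔ Q 2 0 := H 1 1 0 (by omega) (by omega) (by decide) (by decide) (by decide)
  have s2 : Q 2 0 ↔ Q 3 0 := H 2 0 0 (by omega) (by omega) (by decide) (by decide) (by decide)
  have s3 : Q 3 0 ↔ Q 2 1 := (H 2 1 0 (by omega) (by omega) (by decide) (by decide) (by decide)).symm
  have s4 : Q 2 1 ↔ Q 1 0 := (H 1 0 1 (by omega) (by omega) (by decide) (by decide) (by decide)).symm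
  have s5 : Q 1 0 ↔ Q 2 2 := H 1 0 2 (by omega) (by omega) (by decide) (by decide) (by decide)
  have s6 : Q 2 2 ↔ Q 3 1 := H 2 2 1 (by omega) (by omega) (by decide) (by decide) (by decide)
  have s7 : Q 3 1 ↔ Q 4 0 := H 3 1 0 (by omega) (by omega) (by decide) (by decide) (by decide)
  have s8 : Q 4 0 ↔ Q 5 1 := H 4 0 1 (by omega) (by omega) (by decide) (by decide) (by decide)
  have s9 : Q 5 1 ↔ Q 6 0 := H 5 1 0 (by omega) (by omega) (by decide) (by decide) (by decide)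
  have s10 : Q 6 0 ↔ Q 7 0 := H 6 0 0 (by omega) (by omega) (by decide) (by decide) (by decide)
  have s11 : Q 7 0 ↔ Q 6 1 := (H 6 1 0 (by omega) (by omega) (by decide) (by decide) (by decide)).symm
  have s12 : Q 6 1 ↔ Q 5 0 := (H 5 0 1 (by omega) (by omega) (by decide) (by decide) (by decide)).symm
  have s13 : Q 5 0 ↔ Q 6 2 := H 5 0 2 (by omega) (by omega) (by decide) (by decide) (by decide)
  have s14 : Q 6 2 ↔ Q 7 1 := H 6 2 1 (by omega) (by omega) (by decide) (by decide) (by decide)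
  have g0 : Q 1 1 ↔ Q 1 1 := Iff.rfl
  have g1 : Q 1 1 ↔ Q 2 0 := g0.trans s1
  have g2 : Q 1 1 ↔ Q 3 0 := g1.trans s2
  have g3 : Q 1 1 ↔ Q 2 1 := g2.trans s3
  have g4 : Q 1 1 ↔ Q 1 0 := g3.trans s4
  have g5 : Q 1 1 ↔ Q 2 2 := g4.trans s5
  have g6 : Q 1 1 ↔ Q 3 1 := g5.trans s6
  have g7 : Q 1 1 ↔ Q 4 0 := g6.trans s7
  have g8 : Q 1 1 ↔ Q 5 1 := g7.trans s8
  have g9 : Q 1 1 ↔ Q 6 0 := g8.trans s9
  have g10 : Q 1 1 ↔ Q 7 0 := g9.trans s10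
  have g11 : Q 1 1 ↔ Q 6 1 := g10.trans s11
  have g12 : Q 1 1 ↔ Q 5 0 := g11.trans s12
  have g13 : Q 1 1 ↔ Q 6 2 := g12.trans s13
  have g14 : Q 1 1 ↔ Q 7 1 := g13.trans s14
  intro j q h1 h2 h3
  have h4 : q < 3 := lt_of_lt_of_le h3 (by unfold wd; split_ifs <;> omega)
  interval_cases j <;> interval_cases q <;>
    first | assumption | exact absurd h3 (by decide)

theorem rod_path {c : ℕ} (hc : c < 2) (Q : ℕ → ℕ → Prop) (H : ∀ j q q', 1 ≤ j → j ≤ 6 →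
    q < wd j → q' < wd (j + 1) → pat c j q q' = true → (Q j q ↔ Q (j + 1) q')) :
    ∀ j q, 1 ≤ j → j ≤ 7 → q < wd j → (Q 1 c ↔ Q j q) := by
  interval_cases c
  · exact rod_path0 Q H
  · exact rod_path1 Q H

end Pool.Agent.R533.PSP
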