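import Pool.Agent.R533.PSP.Swaps

/-!
# Euclidean Max-2-PSP: few swaps which connect a slot system
-/

namespace Pool.Agent.R533.PSP

open Pool.Agent.H679R2 Pool.Agent.H820R2.MS Pool.Agent.H820R2.MS.T3

variable {Γ : Type} {s : Sys Γ}

/-- Dart-ends of equal labels are connected as soon as the two ends of every slot are. -/
theorem lab_conn (hs : s.Good) {M S : D s → D s}
    (hCM : ∀ x y : D s, loc s y.1 = loc s x.1 → Conn M S x y)
    (hCS : ∀ k r (hr : r < s.len k), Conn M S ⟨(k, r, true), hr⟩ ⟨(k, r, false), hr⟩) :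
    ∀ x y : D s, s.lab x.1.1 x.1.2.1 = s.lab y.1.1 y.1.2.1 → Conn M S x y := by
  -- every strand starts at a birth with the same label
  have hLC : ∀ k r (hr : r < s.len k), ∃ k' j, ∃ hj : j < s.len (k' + 1), s.ins k' j ∧
      Conn M S ⟨(k, r, false), hr⟩ ⟨(k' + 1, j, false), hj⟩ ∧ s.lab (k' + 1) j = s.lab k r := by
    intro k
    induction k with
    | zero =>
      intro r hr
      have := hs.len_zero
      omega
    | succ k ih =>
      intro r hr
      have step : ∀ q (hq : q < s.len k), s.o (k + 1) r = s.i k q → s.lab (k + 1) r = s.lab k q →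
          ∃ k' j, ∃ hj : j < s.len (k' + 1), s.ins k' j ∧
            Conn M S ⟨(k + 1, r, false), hr⟩ ⟨(k' + 1, j, false), hj⟩ ∧
            s.lab (k' + 1) j = s.lab (k + 1) r := by
        intro q hq e1 e2
        obtain ⟨k', j, hj, a1, a2, a3⟩ := ih q hq
        refine ⟨k', j, hj, a1, ?_, by rw [a3, e2]⟩
        have b1 : Conn M S ⟨(k + 1, r, false), hr⟩ ⟨(k, q, true), hq⟩ := by
          apply hCM
          show (k + 1, s.i k q) = (k + 1, s.o (k + 1) r)
          rw [e1]
        exact b1.trans ((hCS k q hq).trans a2)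
      rcases hs.link k with h | ⟨j, hj0, h⟩ | ⟨j, h⟩
      · obtain ⟨g1, g2, g3⟩ := h
        have hr' : r < s.len k := by omega
        exact step r hr' (g3 r hr').1 (g3 r hr').2
      · obtain ⟨g1, g2, g3, g4, g5, g6, g7, g8, g9⟩ := h
        rcases lt_or_ge r j with h | h
        · exact step r (by omega) (g4 r h).1 (g4 r h).2
        · rcases lt_or_ge r (j + 2) with h' | h'
          · have hj1 : j < s.len (k + 1) := by omega
            rcases Nat.lt_or_ge j r with h'' | h''
            · have : r = j + 1 := by omega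
              subst this
              refine ⟨k, j, hj1, hj0, ?_, g7.symm⟩
              apply hCM
              show (k + 1, s.o (k + 1) j) = (k + 1, s.o (k + 1) (j + 1))
              rw [g6]
            · have : r = j := by omega
              subst this
              exact ⟨k, r, hr, hj0, Conn.refl _, rfl⟩
          · obtain ⟨q, rfl⟩ : ∃ q, r = q + 2 := ⟨r - 2, by omega⟩
            have := g5 q (by omega) (by omega)
            exact step q (by omega) this.1 this.2
      · obtain ⟨g1, g2, g3, g4, g5, g6, g7, g8, g9⟩ := h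
        rcases lt_or_ge r j with h | h
        · exact step r (by omega) (g4 r h).1 (g4 r h).2
        · have := g5 r h hr
          exact step (r + 2) (by omega) this.1 this.2
  have hfalse : ∀ x : D s, Conn M S x ⟨(x.1.1, x.1.2.1, false), x.2⟩ := by
    rintro ⟨⟨k, r, e⟩, hx⟩
    cases e
    · exact Conn.refl _
    · exact hCS k r hx
  intro x y hxy
  obtain ⟨k1, j1, hj1, a1, a2, a3⟩ := hLC x.1.1 x.1.2.1 x.2
  obtain ⟨k2, j2, hj2, b1, b2, b3⟩ := hLC y.1.1 y.1.2.1 y.2
  obtain ⟨rfl, rfl⟩ := hs.fresh k1 j1 k2 j2 a1 b1 (by rw [a3, b3, hxy])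
  exact ((hfalse x).trans a2).trans (((hfalse y).trans b2).symm)

theorem exists_swaps (hs : s.Good) {K : ℕ} (_hK : ∀ k, K ≤ k → s.len k = 0) (Λ : Finset Γ)
    (hΛ : ∀ c, c ∈ Λ ↔ ∃ k r, r < s.len k ∧ s.lab k r = c) (hne : Λ.Nonempty) (h : s.Span) :
    ∃ σ : ℕ → ℕ → ℕ, (∀ k r, r < s.len k → σ k r < s.len k) ∧ (∀ k r, σ k (σ k r) = r) ∧
      (∀ k r, σ k r = r ∨ (σ k r = r + 1 ∧ s.op k r) ∨ (r = σ k r + 1 ∧ s.op k (σ k r))) ∧
      (∑ k ∈ Finset.range K, ((Finset.range (s.len k)).filter fun r => σ k r ≠ r).card + 2 ≤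
        2 * Λ.card) ∧
      ∀ P : ℕ → ℕ → Bool → Prop, (∀ k r, r < s.len k → (P k r false ↔ P k (σ k r) true)) →
        (∀ x y : D s, loc s x.1 = loc s y.1 → (P x.1.1 x.1.2.1 x.1.2.2 ↔ P y.1.1 y.1.2.1 y.1.2.2)) →
        ∀ x y : D s, P x.1.1 x.1.2.1 x.1.2.2 ↔ P y.1.1 y.1.2.1 y.1.2.2 := by
  classical
  obtain ⟨F, hF1, hF2, hF3⟩ := h
  have hlt : ∀ k r, F k r → r + 1 < s.len k := fun k r h => (hs.op_spec k r (hF1 k r h)).1
  have hfin : Finite (D s) := finite_D hs
  have hfin2 : Finite (Iota F) := by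
    refine Finite.of_injective (β := D s) (fun p => ⟨(p.1.1, p.1.2, true), by
      have := hlt _ _ p.2
      show p.1.2 < s.len p.1.1
      omega⟩) ?_
    rintro ⟨⟨a, b⟩, hp⟩ ⟨⟨c, d⟩, hq⟩ h
    simp only [Subtype.mk.injEq, Prod.mk.injEq, and_true] at h
    obtain ⟨rfl, rfl⟩ := h
    rfl
  have := Fintype.ofFinite (D s)
  have := Fintype.ofFinite (Iota F)
  choose M hM1 hM2 hM3 hM4 using partner (s := s) hs
  have hMinv : Function.Involutive M := by
    intro x
    rcases hM4 x (M (M x)) (by rw [hM2, hM2]) with h | h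
    · exact h
    · exact absurd h (hM1 (M x))
  have hSinv : ∀ z, Function.Involutive (Sz (s := s) F hlt z) := by
    intro z x
    apply Subtype.ext
    obtain ⟨⟨k, r, e⟩, hx⟩ := x
    simp only [Sz, Bool.not_not]
    rw [sg_sg hF2]
  have hSne : ∀ z x, Sz (s := s) F hlt z x ≠ x := by
    intro z x h
    have := congrArg (fun y : D s => y.1.2.2) h
    simp [Sz] at this
  -- locations
  have hCM : ∀ z (x y : D s), loc s y.1 = loc s x.1 → Conn M (Sz (s := s) F hlt z) x y := by
    intro z x y hxy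
    rcases hM4 x y hxy with h | h
    · rw [h]; exact Conn.refl _
    · rw [h]; exact Conn.left _
  have hstr0 : ∀ k r, sg F (fun _ => false) k r = r := by
    intro k r
    have n1 : ∀ q, ¬ T F (fun _ => false) k q := by
      rintro q ⟨_, h2⟩
      exact Bool.noConfusion h2
    unfold sg
    rw [if_neg (n1 r), if_neg (fun h => n1 _ h.2)]
  have hcls0 : cls M (Sz (s := s) F hlt fun _ => false) ≤ Λ.card := by
    have hCS0 : ∀ k r (hr : r < s.len k),
        Conn M (Sz (s := s) F hlt fun _ => false) ⟨(k, r, true), hr⟩ ⟨(k, r, false), hr⟩ := by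
      intro k r hr
      have h5 : Sz (s := s) F hlt (fun _ => false) ⟨(k, r, true), hr⟩ = ⟨(k, r, false), hr⟩ := by
        apply Subtype.ext
        show (k, sg F _ k r, !true) = (k, r, false)
        rw [hstr0]; rfl
      rw [← h5]
      exact Conn.right _
    have hLL := lab_conn hs (hCM _) hCS0
    have hx : ∀ c : Λ, ∃ x : D s, s.lab x.1.1 x.1.2.1 = c.1 := by
      rintro ⟨c, hc⟩
      obtain ⟨k, r, hr, h⟩ := (hΛ c).1 hc
      exact ⟨⟨(k, r, true), hr⟩, h⟩
    choose g hg using hx
    have hsurj : Function.Surjective (fun c : Λ => Quot.mk (Conn M (Sz (s := s) F hlt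
        fun _ => false)) (g c)) := by
      intro q
      induction q using Quot.ind with
      | _ x =>
        refine ⟨⟨s.lab x.1.1 x.1.2.1, (hΛ _).2 ⟨_, _, x.2, rfl⟩⟩, Quot.sound (hLL _ _ ?_)⟩
        exact hg _
    have := Nat.card_le_card_of_surjective _ hsurj
    unfold cls
    simpa using this
  obtain ⟨z, hz, hzc⟩ := exists_free_count (M := M) (fun z => Sz (s := s) F hlt z)
    (fun (p : Iota F) => ![(⟨(p.1.1, p.1.2, false), by
        have := hlt _ _ p.2; show p.1.2 < s.len p.1.1; omega⟩ : D s),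
      ⟨(p.1.1, p.1.2, true), by
        have := hlt _ _ p.2; show p.1.2 < s.len p.1.1; omega⟩,
      ⟨(p.1.1, p.1.2 + 1, false), hlt _ _ p.2⟩, ⟨(p.1.1, p.1.2 + 1, true), hlt _ _ p.2⟩])
    hMinv (fun x => hM1 x) hSinv hSne
    (by
      rintro z ⟨⟨k, r⟩, hp⟩ hzk
      have hp' : F k r := hp
      have n1 : ¬ T F z k r := by
        rintro ⟨h1, h2⟩
        rw [hzk] at h2
        exact Bool.noConfusion h2
      have n2 : ¬ (1 ≤ r ∧ T F z k (r - 1)) := by
        rintro ⟨h1, h2, -⟩
        refine hF2 k (r - 1) ⟨h2, ?_⟩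
        rw [Nat.sub_add_cancel h1]; exact hp'
      have n3 : ¬ T F z k (r + 1) := fun h1 => hF2 k r ⟨hp', h1.1⟩
      have e1 : sg F z k r = r := by unfold sg; rw [if_neg n1, if_neg n2]
      have e2 : sg F z k (r + 1) = r + 1 := by
        unfold sg; rw [if_neg n3, if_neg (by
          rintro ⟨-, h2⟩
          exact n1 (by simpa using h2))]
      constructor
      · apply Subtype.ext
        show (k, sg F z k r, !false) = (k, r, true)
        rw [e1]; rfl
      · apply Subtype.ext
        show (k, sg F z k (r + 1), !false) = (k, r + 1, true)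
        rw [e2]; rfl)
    (by
      rintro z ⟨⟨k, r⟩, hp⟩ hzk
      have hp' : F k r := hp
      have n1 : T F z k r := ⟨hp', hzk⟩
      have n3 : ¬ T F z k (r + 1) := fun h1 => hF2 k r ⟨hp', h1.1⟩
      have e1 : sg F z k r = r + 1 := by unfold sg; rw [if_pos n1]
      have e2 : sg F z k (r + 1) = r := by
        unfold sg; rw [if_neg n3, if_pos ⟨by omega, by simpa using n1⟩]
        omega
      constructor
      · apply Subtype.ext
        show (k, sg F z k r, !true) = (k, r + 1, false)
        rw [e1]; rfl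
      · apply Subtype.ext
        show (k, sg F z k (r + 1), !true) = (k, r, false)
        rw [e2]; rfl)
    (by
      rintro z ⟨⟨k, r⟩, hp⟩ ⟨⟨k', r', e⟩, hx⟩ hne
      have hT : ∀ q, ¬ (k' = k ∧ q = r) →
          (T F (Function.update z ⟨(k, r), hp⟩ (!z ⟨(k, r), hp⟩)) k' q ↔ T F z k' q) := by
        intro q hq
        unfold T
        refine exists_congr fun h1 => ?_
        rw [Function.update_of_ne]
        intro h2
        simp only [Subtype.mk.injEq, Prod.mk.injEq] at h2
        exact hq h2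
      have h1 : ¬ (k' = k ∧ r' = r) := by
        rintro ⟨rfl, rfl⟩
        cases e
        · exact hne 0 rfl
        · exact hne 1 rfl
      have h2 : ¬ (k' = k ∧ r' = r + 1) := by
        rintro ⟨rfl, rfl⟩
        cases e
        · exact hne 2 rfl
        · exact hne 3 rfl
      apply Subtype.ext
      show (k', sg F _ k' r', !e) = (k', sg F z k' r', !e)
      have h3 : sg F (Function.update z ⟨(k, r), hp⟩ (!z ⟨(k, r), hp⟩)) k' r' =
          sg F z k' r' := by
        unfold sg
        simp only [hT r' h1]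
        by_cases h4 : 1 ≤ r'
        · have h5 := hT (r' - 1) (by
            rintro ⟨a1, a2⟩
            exact h2 ⟨a1, by omega⟩)
          simp only [h5]
        · simp only [h4, false_and, if_false]
      rw [h3])
    Λ.card hcls0
  set S := Sz (s := s) F hlt z with hSd
  have hSS : ∀ x, S (S x) = x := hSinv z
  -- the terminals of a switch
  have hCF : ∀ k r (hp : F k r) (hr : r < s.len k) (hr' : r + 1 < s.len k) (e e' : Bool),
      Conn M S ⟨(k, r, e), hr⟩ ⟨(k, r, e'), hr⟩ ∧
      Conn M S ⟨(k, r + 1, e), hr'⟩ ⟨(k, r + 1, e'), hr'⟩ ∧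
      Conn M S ⟨(k, r, e), hr⟩ ⟨(k, r + 1, e'), hr'⟩ := by
    intro k r hp hr hr' e e'
    have h1 := hz ⟨(k, r), hp⟩
    cases e <;> cases e'
    · exact ⟨h1 0 0, h1 2 2, h1 0 2⟩
    · exact ⟨h1 0 1, h1 2 3, h1 0 3⟩
    · exact ⟨h1 1 0, h1 3 2, h1 1 2⟩
    · exact ⟨h1 1 1, h1 3 3, h1 1 3⟩
  -- straight strands
  have hCS : ∀ k r (hr : r < s.len k), Conn M S ⟨(k, r, true), hr⟩ ⟨(k, r, false), hr⟩ := by
    intro k r hr
    by_cases n1 : T F z k r
    · exact (hCF k r n1.1 hr (hlt _ _ n1.1) true false).1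
    · by_cases n2 : 1 ≤ r ∧ T F z k (r - 1)
      · obtain ⟨q, rfl⟩ : ∃ q, r = q + 1 := ⟨r - 1, by omega⟩
        have h4 : F k q := by simpa using n2.2.1
        exact (hCF k q h4 (by omega) hr true false).2.1
      · have e1 : sg F z k r = r := by unfold sg; rw [if_neg n1, if_neg n2]
        have h5 : S ⟨(k, r, true), hr⟩ = ⟨(k, r, false), hr⟩ := by
          apply Subtype.ext
          show (k, sg F z k r, !true) = (k, r, false)
          rw [e1]; rfl
        rw [← h5]
        exact Conn.right _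
  have hLL := lab_conn hs (hCM z) hCS
  have hall : ∀ x y : D s, Conn M S x y := by
    intro x y
    have key := hF3 {g | ∃ y : D s, Conn M S x y ∧ s.lab y.1.1 y.1.2.1 = g} (by
      intro k r hkr
      have hr' := hlt k r hkr
      have hr : r < s.len k := by omega
      constructor
      · rintro ⟨y, h1, h2⟩
        refine ⟨⟨(k, r + 1, false), hr'⟩, ?_, rfl⟩
        exact (h1.trans (hLL y ⟨(k, r, false), hr⟩ h2)).trans (hCF k r hkr hr hr' false false).2.2
      · rintro ⟨y, h1, h2⟩
        refine ⟨⟨(k, r, false), hr⟩, ?_, rfl⟩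
        exact (h1.trans (hLL y ⟨(k, r + 1, false), hr'⟩ h2)).trans
          (hCF k r hkr hr hr' false false).2.2.symm) x.1.1 x.1.2.1 y.1.1 y.1.2.1 x.2 y.2
    obtain ⟨y', h1, h2⟩ := key.1 ⟨x, Conn.refl _, rfl⟩
    exact h1.trans (hLL y' y h2)
  refine ⟨sg F z, fun k r hr => sg_lt hlt hr, sg_sg hF2, ?_, ?_, ?_⟩
  · intro k r
    unfold sg
    split_ifs with h1 h2
    · exact Or.inr (Or.inl ⟨rfl, hF1 _ _ h1.1⟩)
    · exact Or.inr (Or.inr ⟨by omega, hF1 _ _ h2.2.1⟩)
    · exact Or.inl rfl
  · -- the number of swaps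
    have hpos : 1 ≤ cls M S := by
      obtain ⟨c, hc⟩ := hne
      obtain ⟨k, r, hr, -⟩ := (hΛ c).1 hc
      have : Nonempty (Quot (Conn M S)) := ⟨Quot.mk _ ⟨(k, r, true), hr⟩⟩
      have : Finite (Quot (Conn M S)) := Quot.finite _
      exact Nat.card_pos
    have hcount : ∑ k ∈ Finset.range K, ((Finset.range (s.len k)).filter
        fun r => sg F z k r ≠ r).card ≤ 2 * nz z := by
      rw [← Finset.card_sigma]
      have hsub : ((Finset.range K).sigma fun k => (Finset.range (s.len k)).filter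
          fun r => sg F z k r ≠ r) ⊆
          ((Finset.univ.filter fun p : Iota F => z p = true) ×ˢ (Finset.univ : Finset Bool)).image
            (fun x => (⟨x.1.1.1, x.1.1.2 + (bif x.2 then 1 else 0)⟩ : Σ _ : ℕ, ℕ)) := by
        rintro ⟨k, r⟩ hx
        rw [Finset.mem_sigma, Finset.mem_filter] at hx
        have hx2 : sg F z k r ≠ r := hx.2.2
        rw [Finset.mem_image]
        by_cases h1 : T F z k r
        · obtain ⟨h2, h3⟩ := h1
          exact ⟨(⟨(k, r), h2⟩, false), Finset.mem_product.2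
            ⟨Finset.mem_filter.2 ⟨Finset.mem_univ _, h3⟩, Finset.mem_univ _⟩, rfl⟩
        · by_cases h2 : 1 ≤ r ∧ T F z k (r - 1)
          · obtain ⟨h3, h4, h5⟩ := h2
            refine ⟨(⟨(k, r - 1), h4⟩, true), Finset.mem_product.2
              ⟨Finset.mem_filter.2 ⟨Finset.mem_univ _, h5⟩, Finset.mem_univ _⟩, ?_⟩
            show (⟨k, r - 1 + 1⟩ : Σ _ : ℕ, ℕ) = ⟨k, r⟩
            rw [Nat.sub_add_cancel h3]
          · exfalso
            apply hx2
            unfold sg
            rw [if_neg h1, if_neg h2]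
      refine (Finset.card_le_card hsub).trans (Finset.card_image_le.trans ?_)
      rw [Finset.card_product]
      simp only [nz, Finset.card_univ, Fintype.card_bool]
      omega
    have hzc' : nz z + cls M S ≤ Λ.card := hzc
    omega
  · intro P h1 h2 x y
    have := Conn.closed (X := {x : D s | P x.1.1 x.1.2.1 x.1.2.2}) hMinv (hSinv z) (by
      intro x hx
      exact (h2 (M x) x (hM2 x)).2 hx) (by
      rintro ⟨⟨k, r, e⟩, hx⟩ hP
      cases e
      · exact (h1 k r hx).1 hP
      · have h3 := h1 k (sg F z k r) (sg_lt hlt hx)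
        rw [sg_sg hF2] at h3
        exact h3.2 hP) (hall x y)
    exact this

end Pool.Agent.R533.PSP
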