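import Pool.Agent.R533.PSP.Sound
import Pool.Agent.R533.PSP.Swaps2
import Pool.Agent.R533.PSP.Pat

/-!
# Euclidean Max-2-PSP: a connecting choice of swaps gives two cheap disjoint Hamiltonian cycles
-/

namespace Pool.Agent.R533.PSP

open Pool.Agent.H820R2.MS

/-- The edges of the cycle of colour `c`, for the swaps `σ`. -/
def Ed (h : Sh) (σ : ℕ → ℕ → ℕ) (c : ℕ) (v w : V) : Prop :=
  (v.2.1 = 0 ∧ w.1 = v.1 ∧ w.2.1 = 1 ∧ w.2.2.2 = c ∧ h.o v.1 (σ v.1 w.2.2.1) = v.2.2.1) ∨
  (1 ≤ v.2.1 ∧ v.2.1 ≤ 6 ∧ w.1 = v.1 ∧ w.2.1 = v.2.1 + 1 ∧ w.2.2.1 = v.2.2.1 ∧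
    pat c v.2.1 v.2.2.2 w.2.2.2 = true) ∨
  (v.2.1 = 7 ∧ v.2.2.2 = c ∧ w.1 = v.1 + 1 ∧ w.2.1 = 0 ∧ w.2.2.1 = h.i v.1 v.2.2.1)

open Classical in
/-- The edge set of the cycle of colour `c`. -/
noncomputable def AE (h : Sh) (σ : ℕ → ℕ → ℕ) (S : Finset V) (c : ℕ) : Finset (V × V) :=
  (S ×ˢ S).filter fun e => Ed h σ c e.1 e.2

/-- The properties of the swaps. -/
structure Sw {Γ : Type} (s : Sys Γ) (σ : ℕ → ℕ → ℕ) : Prop where
  lt : ∀ k r, r < s.len k → σ k r < s.len k
  inv : ∀ k r, σ k (σ k r) = r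
  op : ∀ k r, σ k r = r ∨ (σ k r = r + 1 ∧ s.op k r) ∨ (r = σ k r + 1 ∧ s.op k (σ k r))

variable {Γ : Type} {s : Sys Γ} {h : Sh} {K : ℕ} {S : Finset V} {σ : ℕ → ℕ → ℕ} {c : ℕ}

open Classical in
theorem mem_AE {e : V × V} : e ∈ AE h σ S c ↔ e.1 ∈ S ∧ e.2 ∈ S ∧ Ed h σ c e.1 e.2 := by
  unfold AE
  simp only [Finset.mem_filter, Finset.mem_product, and_assoc]

open Classical in
theorem card_up {v : V} (hv : v ∈ S) : ((AE h σ S c).filter fun e => e.1 = v).card =
    (S.filter fun w => Ed h σ c v w).card := by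
  have : (AE h σ S c).filter (fun e => e.1 = v) =
      (S.filter fun w => Ed h σ c v w).image fun w => (v, w) := by
    ext e
    rw [Finset.mem_filter, mem_AE, Finset.mem_image]
    constructor
    · rintro ⟨⟨h1, h2, h3⟩, rfl⟩
      exact ⟨e.2, Finset.mem_filter.2 ⟨h2, h3⟩, rfl⟩
    · rintro ⟨w, hw, rfl⟩
      rw [Finset.mem_filter] at hw
      exact ⟨⟨hv, hw.1, hw.2⟩, rfl⟩
  rw [this, Finset.card_image_of_injective]
  intro a b hab
  exact (Prod.ext_iff.1 hab).2

open Classical in
theorem card_dn {v : V} (hv : v ∈ S) : ((AE h σ S c).filter fun e => e.2 = v).card =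
    (S.filter fun w => Ed h σ c w v).card := by
  have : (AE h σ S c).filter (fun e => e.2 = v) =
      (S.filter fun w => Ed h σ c w v).image fun w => (w, v) := by
    ext e
    rw [Finset.mem_filter, mem_AE, Finset.mem_image]
    constructor
    · rintro ⟨⟨h1, h2, h3⟩, rfl⟩
      exact ⟨e.1, Finset.mem_filter.2 ⟨h1, h3⟩, rfl⟩
    · rintro ⟨w, hw, rfl⟩
      rw [Finset.mem_filter] at hw
      exact ⟨⟨hw.1, hv, hw.2⟩, rfl⟩
  rw [this, Finset.card_image_of_injective]
  intro a b hab
  exact (Prod.ext_iff.1 hab).1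

theorem rod_mem (hS : ∀ v, v ∈ S ↔ h.IsV v) {k j x q : ℕ} (hj : 1 ≤ j) (hj' : j < 8) :
    ((k, j, x, q) : V) ∈ S ↔ x < h.len k ∧ q < wd j := by
  rw [hS]
  constructor
  · rintro (h1 | h1)
    · have := h1.1; simp only at this; omega
    · exact ⟨h1.2.2.1, h1.2.2.2⟩
  · rintro ⟨h1, h2⟩
    exact Or.inr ⟨hj, hj', h1, h2⟩

theorem loc_mem' (hS : ∀ v, v ∈ S ↔ h.IsV v) {k p q : ℕ} :
    ((k, 0, p, q) : V) ∈ S ↔ q = 0 ∧ (h.isLo k p = true ∨ h.isUp k p = true) := by
  rw [hS]
  constructor
  · rintro (h1 | h1)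
    · exact ⟨h1.2.1, h1.2.2⟩
    · have := h1.1; simp only at this; omega
  · rintro ⟨h1, h2⟩
    exact Or.inl ⟨rfl, h1, h2⟩

open Classical in
theorem up_rod (hS : ∀ v, v ∈ S ↔ h.IsV v) {k j x q : ℕ} (hj : 1 ≤ j) (hj' : j < 8)
    (hx : x < h.len k) :
    (S.filter fun w => Ed h σ c (k, j, x, q) w).card = nUp c j q := by
  by_cases j7 : j = 7
  · subst j7
    unfold nUp
    rw [if_pos rfl]
    by_cases hq : q = c
    · rw [if_pos hq, Finset.card_eq_one]
      refine ⟨(k + 1, 0, h.i k x, 0), ?_⟩
      ext w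
      rw [Finset.mem_filter, Finset.mem_singleton]
      constructor
      · rintro ⟨h1, h2⟩
        rcases h2 with h2 | h2 | h2
        · have := h2.1; simp only at this; omega
        · have := h2.2.1; simp only at this; omega
        · obtain ⟨w1, w2, w3, w4⟩ := w
          obtain ⟨-, -, a1, a2, a3⟩ := h2
          simp only at a1 a2 a3
          subst a1 a2 a3
          rw [(loc_mem' hS).1 h1 |>.1]
      · rintro rfl
        refine ⟨(loc_mem' hS).2 ⟨rfl, Or.inr ?_⟩, Or.inr (Or.inr ⟨rfl, hq, rfl, rfl, rfl⟩)⟩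
        rw [Sh.isUp_iff, Nat.add_sub_cancel]
        exact ⟨x, hx, rfl⟩
    · rw [if_neg hq, Finset.card_eq_zero, Finset.filter_eq_empty_iff]
      rintro w h1 (h2 | h2 | h2)
      · have := h2.1; simp only at this; omega
      · have := h2.2.1; simp only at this; omega
      · exact hq h2.2.1
  · unfold nUp
    rw [if_neg j7]
    have : S.filter (fun w => Ed h σ c (k, j, x, q) w) =
        ((Finset.range (wd (j + 1))).filter fun q' => pat c j q q' = true).image
          fun q' => ((k, j + 1, x, q') : V) := by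
      ext w
      rw [Finset.mem_filter, Finset.mem_image]
      constructor
      · rintro ⟨h1, h2⟩
        rcases h2 with h2 | h2 | h2
        · have := h2.1; simp only at this; omega
        · obtain ⟨w1, w2, w3, w4⟩ := w
          obtain ⟨-, -, a1, a2, a3, a4⟩ := h2
          simp only at a1 a2 a3 a4
          subst a1 a2 a3
          have := (rod_mem hS (by omega) (by omega)).1 h1
          exact ⟨w4, Finset.mem_filter.2 ⟨Finset.mem_range.2 this.2, a4⟩, rfl⟩
        · exact absurd h2.1 j7
      · rintro ⟨q', hq', rfl⟩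
        rw [Finset.mem_filter, Finset.mem_range] at hq'
        exact ⟨(rod_mem hS (by omega) (by omega)).2 ⟨hx, hq'.1⟩,
          Or.inr (Or.inl ⟨hj, by simp only; omega, rfl, rfl, rfl, hq'.2⟩)⟩
    rw [this, Finset.card_image_of_injective]
    intro a b hab
    simpa using hab

open Classical in
theorem dn_rod (hf : Fit s h K) (hS : ∀ v, v ∈ S ↔ h.IsV v) (hw : Sw s σ) {k j x q : ℕ}
    (hj : 1 ≤ j) (hj' : j < 8) (hx : x < h.len k) :
    (S.filter fun w => Ed h σ c w (k, j, x, q)).card = nDn c j q := by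
  by_cases j1 : j = 1
  · subst j1
    unfold nDn
    rw [if_pos rfl]
    by_cases hq : q = c
    · rw [if_pos hq, Finset.card_eq_one]
      refine ⟨(k, 0, h.o k (σ k x), 0), ?_⟩
      ext w
      rw [Finset.mem_filter, Finset.mem_singleton]
      constructor
      · rintro ⟨h1, h2⟩
        rcases h2 with h2 | h2 | h2
        · obtain ⟨w1, w2, w3, w4⟩ := w
          obtain ⟨a0, a1, a2, a3, a4⟩ := h2
          simp only at a0 a1 a2 a3 a4
          subst a0 a1 a4
          rw [(loc_mem' hS).1 h1 |>.1]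
        · have := h2.1
          have := h2.2.2.2.1
          simp only at this; omega
        · have := h2.2.2.2.1; simp only at this; omega
      · rintro rfl
        refine ⟨(loc_mem' hS).2 ⟨rfl, Or.inl ?_⟩, Or.inl ⟨rfl, rfl, rfl, hq, rfl⟩⟩
        rw [Sh.isLo_iff]
        refine ⟨σ k x, ?_, rfl⟩
        rw [hf.len] at hx ⊢
        exact hw.lt k x hx
    · rw [if_neg hq, Finset.card_eq_zero, Finset.filter_eq_empty_iff]
      rintro w h1 (h2 | h2 | h2)
      · exact hq h2.2.2.2.1
      · have := h2.1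
        have := h2.2.2.2.1
        simp only at this; omega
      · have := h2.2.2.2.1; simp only at this; omega
  · unfold nDn
    rw [if_neg j1]
    obtain ⟨j, rfl⟩ : ∃ j', j = j' + 1 := ⟨j - 1, by omega⟩
    rw [Nat.add_sub_cancel]
    have : S.filter (fun w => Ed h σ c w (k, j + 1, x, q)) =
        ((Finset.range (wd j)).filter fun q' => pat c j q' q = true).image
          fun q' => ((k, j, x, q') : V) := by
      ext w
      rw [Finset.mem_filter, Finset.mem_image]
      constructor
      · rintro ⟨h1, h2⟩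
        rcases h2 with h2 | h2 | h2
        · have := h2.2.2.1; simp only at this; omega
        · obtain ⟨w1, w2, w3, w4⟩ := w
          obtain ⟨b1, b2, a1, a2, a3, a4⟩ := h2
          simp only at b1 b2 a1 a2 a3 a4
          obtain rfl : j = w2 := by omega
          subst a1 a3
          have := (rod_mem hS (by omega) (by omega)).1 h1
          exact ⟨w4, Finset.mem_filter.2 ⟨Finset.mem_range.2 this.2, a4⟩, rfl⟩
        · have := h2.2.2.2.1; simp only at this; omega
      · rintro ⟨q', hq', rfl⟩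
        rw [Finset.mem_filter, Finset.mem_range] at hq'
        exact ⟨(rod_mem hS (by omega) (by omega)).2 ⟨hx, hq'.1⟩,
          Or.inr (Or.inl ⟨by simp only; omega, by simp only; omega, rfl, rfl, rfl, hq'.2⟩)⟩
    rw [this, Finset.card_image_of_injective]
    intro a b hab
    simpa using hab

open Classical in
theorem up_loc (hf : Fit s h K) (hS : ∀ v, v ∈ S ↔ h.IsV v) (hw : Sw s σ) (hc : c < 2)
    {k p : ℕ} : (S.filter fun w => Ed h σ c (k, 0, p, 0) w).card =
      ((Finset.range (s.len k)).filter fun r => s.o k r = p).card := by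
  have : S.filter (fun w => Ed h σ c (k, 0, p, 0) w) =
      ((Finset.range (s.len k)).filter fun r => s.o k r = p).image
        fun r => ((k, 1, σ k r, c) : V) := by
    ext w
    rw [Finset.mem_filter, Finset.mem_image]
    constructor
    · rintro ⟨h1, h2⟩
      rcases h2 with h2 | h2 | h2
      · obtain ⟨w1, w2, w3, w4⟩ := w
        obtain ⟨-, a1, a2, a3, a4⟩ := h2
        simp only at a1 a2 a3 a4
        subst a1 a2 a3
        have := (rod_mem hS le_rfl (by omega)).1 h1
        rw [hf.len] at this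
        rw [hf.o] at a4
        refine ⟨σ w1 w3, Finset.mem_filter.2 ⟨Finset.mem_range.2 (hw.lt _ _ this.1), a4⟩, ?_⟩
        rw [hw.inv]
      · have := h2.1; simp only at this; omega
      · have := h2.1; simp only at this; omega
    · rintro ⟨r, hr, rfl⟩
      rw [Finset.mem_filter, Finset.mem_range] at hr
      refine ⟨(rod_mem hS le_rfl (by omega)).2 ⟨?_, by simp [wd]; omega⟩,
        Or.inl ⟨rfl, rfl, rfl, rfl, ?_⟩⟩
      · rw [hf.len]; exact hw.lt _ _ hr.1
      · show h.o k (σ k (σ k r)) = p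
        rw [hw.inv, hf.o]; exact hr.2
  rw [this, Finset.card_image_of_injective]
  intro a b hab
  have h1 : σ k a = σ k b := by simpa using hab
  have := congrArg (σ k) h1
  rwa [hw.inv, hw.inv] at this

open Classical in
theorem dn_loc (hf : Fit s h K) (hS : ∀ v, v ∈ S ↔ h.IsV v) (hc : c < 2)
    {k p : ℕ} : (S.filter fun w => Ed h σ c w (k, 0, p, 0)).card =
      ((Finset.range (s.len (k - 1))).filter fun r => s.i (k - 1) r = p).card := by
  have hs := hf.good
  cases k with
  | zero =>
    rw [Nat.zero_sub, hs.len_zero]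
    simp only [Finset.range_zero, Finset.filter_empty, Finset.card_empty, Finset.card_eq_zero,
      Finset.filter_eq_empty_iff]
    rintro w h1 (h2 | h2 | h2)
    · have := h2.2.2.1; simp only at this; omega
    · have := h2.2.2.2.1; simp only at this; omega
    · have := h2.2.2.1; simp only at this; omega
  | succ k =>
    rw [Nat.add_sub_cancel]
    have : S.filter (fun w => Ed h σ c w (k + 1, 0, p, 0)) =
        ((Finset.range (s.len k)).filter fun r => s.i k r = p).image
          fun r => ((k, 7, r, c) : V) := by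
      ext w
      rw [Finset.mem_filter, Finset.mem_image]
      constructor
      · rintro ⟨h1, h2⟩
        rcases h2 with h2 | h2 | h2
        · have := h2.2.2.1; simp only at this; omega
        · have := h2.2.2.2.1; simp only at this; omega
        · obtain ⟨w1, w2, w3, w4⟩ := w
          obtain ⟨a0, a1, a2, a3, a4⟩ := h2
          simp only at a0 a1 a2 a3 a4
          obtain rfl : k = w1 := by omega
          subst a0 a1
          have := (rod_mem hS (by omega) (by omega)).1 h1
          rw [hf.len] at this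
          rw [hf.i] at a4
          exact ⟨w3, Finset.mem_filter.2 ⟨Finset.mem_range.2 this.1, a4.symm⟩, rfl⟩
      · rintro ⟨r, hr, rfl⟩
        rw [Finset.mem_filter, Finset.mem_range] at hr
        refine ⟨(rod_mem hS (by omega) (by omega)).2 ⟨?_, by simp [wd]; omega⟩,
          Or.inr (Or.inr ⟨rfl, rfl, rfl, rfl, ?_⟩)⟩
        · rw [hf.len]; exact hr.1
        · rw [hf.i]; exact hr.2.symm
    rw [this, Finset.card_image_of_injective]
    intro a b hab
    simpa using hab

/-- Every location has two dart-ends. -/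
theorem two_darts (hs : s.Good) {k p : ℕ} (hp : (∃ r < s.len k, s.o k r = p) ∨
    ∃ r < s.len (k - 1), s.i (k - 1) r = p) :
    ((Finset.range (s.len k)).filter fun r => s.o k r = p).card +
      ((Finset.range (s.len (k - 1))).filter fun r => s.i (k - 1) r = p).card = 2 := by
  classical
  cases k with
  | zero =>
    rw [Nat.zero_sub, hs.len_zero] at hp
    rcases hp with ⟨r, hr, -⟩ | ⟨r, hr, -⟩ <;> omega
  | succ k =>
    rw [Nat.add_sub_cancel] at hp ⊢
    have one : ∀ (n : ℕ) (f : ℕ → ℕ) (r : ℕ), r < n → f r = p →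
        (∀ r'' < n, f r'' = p → r'' = r) → ((Finset.range n).filter fun r => f r = p).card = 1 := by
      intro n f r hr h1 h2
      rw [Finset.card_eq_one]
      refine ⟨r, ?_⟩
      ext x
      rw [Finset.mem_filter, Finset.mem_range, Finset.mem_singleton]
      constructor
      · exact fun h => h2 x h.1 h.2
      · rintro rfl; exact ⟨hr, h1⟩
    have two : ∀ (n : ℕ) (f : ℕ → ℕ) (r r' : ℕ), r < n → r' < n → r' ≠ r → f r = p → f r' = p →
        (∀ r'' < n, f r'' = p → r'' = r ∨ r'' = r') →
        ((Finset.range n).filter fun r => f r = p).card = 2 := by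
      intro n f r r' hr hr' hne h1 h1' h2
      rw [Finset.card_eq_two]
      refine ⟨r, r', hne.symm, ?_⟩
      ext x
      rw [Finset.mem_filter, Finset.mem_range, Finset.mem_insert, Finset.mem_singleton]
      constructor
      · exact fun h => h2 x h.1 h.2
      · rintro (rfl | rfl)
        · exact ⟨hr, h1⟩
        · exact ⟨hr', h1'⟩
    have zero : ∀ (n : ℕ) (f : ℕ → ℕ), (∀ r'' < n, f r'' ≠ p) →
        ((Finset.range n).filter fun r => f r = p).card = 0 := by
      intro n f h1
      rw [Finset.card_eq_zero, Finset.filter_eq_empty_iff]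
      intro x hx
      exact h1 x (Finset.mem_range.1 hx)
    have hup : ∀ r, r < s.len k → s.i k r = p →
        ((Finset.range (s.len (k + 1))).filter fun r => s.o (k + 1) r = p).card +
          ((Finset.range (s.len k)).filter fun r => s.i k r = p).card = 2 := by
      intro r hr hrp
      rcases hs.upper hr with ⟨q, hq, b1, b2, b3, b4⟩ | ⟨q, hq, b1, b2, b3, b4, b5⟩
      · rw [hrp] at b1 b3 b4
        rw [one _ _ q hq b1 b3, one _ _ r hr hrp b4]
      · rw [hrp] at b2 b4 b5
        rw [zero _ _ b5, two _ _ r q hr hq b1 hrp b2 b4]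
    rcases hp with ⟨r, hr, hrp⟩ | ⟨r, hr, hrp⟩
    · rcases hs.lower hr with ⟨q, hq, b1, b2, b3⟩ | ⟨q, hq, b1, b2, b3, b4, b5⟩
      · rw [hrp] at b1
        exact hup q hq b1
      · rw [hrp] at b2 b4 b5
        rw [zero _ _ b5, two _ _ r q hr hq b1 hrp b2 b4]
    · exact hup r hr hrp

end Pool.Agent.R533.PSP
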