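import Pool.Agent.R533.PSP.Compl

/-!
# Euclidean Max-2-PSP: completeness of the reduction to edge sets
-/

namespace Pool.Agent.R533.PSP

open Pool.Agent.H820R2.MS Pool.Agent.H820R2.MS.T3

variable {Γ : Type} {s : Sys Γ} {h : Sh} {K : ℕ} {S : Finset V} {σ : ℕ → ℕ → ℕ} {c : ℕ}

theorem Ed_lv {v w : V} (he : Ed h σ c v w) : lv w = lv v + 1 := by
  unfold lv
  rcases he with h1 | h1 | h1
  · have := h1.1
    have := h1.2.1
    have := h1.2.2.1
    omega
  · have := h1.2.2.1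
    have := h1.2.2.2.1
    omega
  · have := h1.1
    have := h1.2.2.1
    have := h1.2.2.2.1
    omega

/-- The connectivity principle given by the swaps. -/
def DConn (s : Sys Γ) (σ : ℕ → ℕ → ℕ) : Prop :=
  ∀ P : ℕ → ℕ → Bool → Prop, (∀ k r, r < s.len k → (P k r false ↔ P k (σ k r) true)) →
    (∀ x y : D s, loc s x.1 = loc s y.1 → (P x.1.1 x.1.2.1 x.1.2.2 ↔ P y.1.1 y.1.2.1 y.1.2.2)) →
    ∀ x y : D s, P x.1.1 x.1.2.1 x.1.2.2 ↔ P y.1.1 y.1.2.1 y.1.2.2

theorem rod_all (hf : Fit s h K) (hS : ∀ v, v ∈ S ↔ h.IsV v) (hw : Sw s σ) (hc : c < 2)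
    {W : V → Prop} (hW : ∀ e ∈ AE h σ S c, (W e.1 ↔ W e.2)) {k x : ℕ} (hx : x < s.len k) :
    (∀ j q, 1 ≤ j → j ≤ 7 → q < wd j → (W (k, 1, x, c) ↔ W (k, j, x, q))) ∧
      (W (k, 0, s.o k (σ k x), 0) ↔ W (k, 1, x, c)) ∧
      (W (k, 7, x, c) ↔ W (k + 1, 0, s.i k x, 0)) := by
  have hx' : x < h.len k := by rw [hf.len]; exact hx
  refine ⟨fun j q h1 h2 h3 => ?_, ?_, ?_⟩
  · refine rod_path hc (fun j q => W (k, j, x, q)) ?_ j q h1 h2 h3
    intro j q q' h1 h2 h3 h4 h5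
    refine hW ((k, j, x, q), (k, j + 1, x, q')) ?_
    rw [mem_AE]
    exact ⟨(rod_mem hS h1 (by omega)).2 ⟨hx', h3⟩, (rod_mem hS (by omega) (by omega)).2 ⟨hx', h4⟩,
      Or.inr (Or.inl ⟨h1, h2, rfl, rfl, rfl, h5⟩)⟩
  · refine hW ((k, 0, s.o k (σ k x), 0), (k, 1, x, c)) ?_
    rw [mem_AE]
    refine ⟨(loc_mem' hS).2 ⟨rfl, Or.inl ?_⟩, (rod_mem hS le_rfl (by omega)).2 ⟨hx', ?_⟩,
      Or.inl ⟨rfl, rfl, rfl, rfl, hf.o _ _⟩⟩
    · rw [Sh.isLo_iff]
      exact ⟨σ k x, by rw [hf.len]; exact hw.lt k x hx, hf.o _ _⟩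
    · simp [wd]; omega
  · refine hW ((k, 7, x, c), (k + 1, 0, s.i k x, 0)) ?_
    rw [mem_AE]
    refine ⟨(rod_mem hS (by omega) (by omega)).2 ⟨hx', ?_⟩, (loc_mem' hS).2 ⟨rfl, Or.inr ?_⟩,
      Or.inr (Or.inr ⟨rfl, rfl, rfl, rfl, (hf.i _ _).symm⟩)⟩
    · simp [wd]; omega
    · rw [Sh.isUp_iff, Nat.add_sub_cancel]
      exact ⟨x, hx', hf.i _ _⟩

theorem two_AE (hf : Fit s h K) (hS : ∀ v, v ∈ S ↔ h.IsV v) (hw : Sw s σ) (hd : DConn s σ)
    (hc : c < 2) : Two S (AE h σ S c) := by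
  classical
  refine ⟨fun e he => ?_, fun v hv => ?_, fun W hne hW v hv => ?_⟩
  · rw [mem_AE] at he
    exact ⟨he.1, he.2.1, Ed_lv he.2.2⟩
  · rw [card_up hv, card_dn hv]
    obtain ⟨k, j, x, q⟩ := v
    have hj : j < 8 := by
      rcases (hS _).1 hv with h1 | h1
      · have := h1.1; simp only at this; omega
      · exact h1.2.1
    by_cases j0 : j = 0
    · subst j0
      obtain ⟨rfl, hp⟩ := (loc_mem' hS).1 hv
      rw [up_loc hf hS hw hc, dn_loc hf hS hc]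
      refine two_darts hf.good ?_
      rw [Sh.isLo_iff, Sh.isUp_iff] at hp
      simp only [hf.len, hf.o, hf.i] at hp
      exact hp
    · have hm := (rod_mem hS (by omega) hj).1 hv
      rw [up_rod hS (by omega) hj hm.1, dn_rod hf hS hw (by omega) hj hm.1]
      exact deg_rod c hc j hj (by omega) q hm.2
  · -- connectivity
    have hrod := fun k x (hx : x < s.len k) => rod_all hf hS hw hc hW hx
    set P : ℕ → ℕ → Bool → Prop := fun k r b =>
      bif b then W (k + 1, 0, s.i k r, 0) else W (k, 0, s.o k r, 0) with hP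
    have key := hd P (by
      intro k r hr
      have h1 := hrod k (σ k r) (hw.lt k r hr)
      rw [hw.inv] at h1
      simp only [hP, cond_true, cond_false]
      rw [h1.2.1, ← h1.2.2]
      exact h1.1 7 c (by omega) le_rfl (by simp [wd]; omega)) (by
      have hPl : ∀ x : ℕ × ℕ × Bool, P x.1 x.2.1 x.2.2 ↔ W ((loc s x).1, 0, (loc s x).2, 0) := by
        rintro ⟨k, r, b⟩
        cases b <;> rfl
      intro x y hxy
      rw [hPl, hPl, hxy])
    have hred : ∀ v ∈ S, ∃ x : D s, W v ↔ P x.1.1 x.1.2.1 x.1.2.2 := by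
      intro v hv
      obtain ⟨k, j, x, q⟩ := v
      have hj : j < 8 := by
        rcases (hS _).1 hv with h1 | h1
        · have := h1.1; simp only at this; omega
        · exact h1.2.1
      by_cases j0 : j = 0
      · subst j0
        obtain ⟨rfl, hp⟩ := (loc_mem' hS).1 hv
        rw [Sh.isLo_iff, Sh.isUp_iff] at hp
        simp only [hf.len, hf.o, hf.i] at hp
        rcases hp with ⟨r, hr, rfl⟩ | ⟨r, hr, rfl⟩
        · exact ⟨⟨(k, r, false), hr⟩, Iff.rfl⟩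
        · cases k with
          | zero => rw [Nat.zero_sub, hf.good.len_zero] at hr; omega
          | succ k => exact ⟨⟨(k, r, true), hr⟩, Iff.rfl⟩
      · have hm := (rod_mem hS (by omega) hj).1 hv
        rw [hf.len] at hm
        refine ⟨⟨(k, x, true), hm.1⟩, ?_⟩
        have h1 := hrod k x hm.1
        show W (k, j, x, q) ↔ W (k + 1, 0, s.i k x, 0)
        rw [← h1.2.2, ← h1.1 j q (by omega) (by omega) hm.2]
        exact h1.1 7 c (by omega) le_rfl (by simp [wd]; omega)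
    obtain ⟨v0, hv0, hWv0⟩ := hne
    obtain ⟨x0, hx0⟩ := hred v0 hv0
    obtain ⟨x, hx⟩ := hred v hv
    rw [hx, ← key x0 x, ← hx0]
    exact hWv0

theorem AE_disj (hS : ∀ v, v ∈ S ↔ h.IsV v) : Disjoint (AE h σ S 0) (AE h σ S 1) := by
  rw [Finset.disjoint_left]
  rintro ⟨v, w⟩ h0 h1
  rw [mem_AE] at h0 h1
  obtain ⟨hv, hw', h0⟩ := h0
  have h1 := h1.2.2
  obtain ⟨k, j, x, q⟩ := v
  obtain ⟨k', j', x', q'⟩ := w
  rcases h0 with h0 | h0 | h0 <;> rcases h1 with h1 | h1 | h1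
  · have a := h0.2.2.2.1; have b := h1.2.2.2.1; simp only at a b; omega
  · have a := h0.1; have b := h1.1; simp only at a b; omega
  · have a := h0.1; have b := h1.1; simp only at a b; omega
  · have a := h0.1; have b := h1.1; simp only at a b; omega
  · obtain ⟨a1, a2, a3, a4, a5, a6⟩ := h0
    obtain ⟨-, -, -, -, -, b6⟩ := h1
    simp only at a1 a2 a3 a4 a5 a6 b6
    subst a3 a4 a5
    have m1 := (rod_mem hS a1 (by omega)).1 hv
    have m2 := (rod_mem hS (by omega) (by omega)).1 hw'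
    exact pat_disj j (by omega) a1 q m1.2 q' m2.2 ⟨a6, b6⟩
  · have a := h0.2.1; have b := h1.1; simp only at a b; omega
  · have a := h0.1; have b := h1.1; simp only at a b; omega
  · have a := h0.1; have b := h1.2.1; simp only at a b; omega
  · have a := h0.2.1; have b := h1.2.1; simp only at a b; omega

/-- The swapped slots. -/
noncomputable def swS (s : Sys Γ) (σ : ℕ → ℕ → ℕ) (K : ℕ) : Finset (Σ _ : ℕ, ℕ) :=
  (Finset.range K).sigma fun k => (Finset.range (s.len k)).filter fun r => σ k r ≠ r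

open Classical in
/-- The cost of one colour. -/
theorem cost_col (hf : Fit s h K) (hS : ∀ v, v ∈ S ↔ h.IsV v) (hw : Sw s σ) :
    ∑ e ∈ (AE h σ S c).filter (fun e => ¬ h.NS e.1 e.2), h.cost e.1 e.2 ≤ (swS s σ K).card := by
  have hs := hf.good
  set T := (AE h σ S c).filter (fun e => ¬ h.NS e.1 e.2) with hT
  -- the edges of type one
  have hty : ∀ e ∈ T, e.1.2.1 = 0 ∧ e.2.1 = e.1.1 ∧ e.2.2.1 = 1 ∧ e.2.2.2.2 = c ∧
      h.o e.1.1 (σ e.1.1 e.2.2.2.1) = e.1.2.2.1 ∧ e.1.2.2.2 = 0 ∧ e.2.2.2.1 < s.len e.2.1 := by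
    rintro ⟨⟨k, j, x, q⟩, ⟨k', j', x', q'⟩⟩ he
    rw [hT, Finset.mem_filter, mem_AE] at he
    obtain ⟨⟨hv, hw', he⟩, hn⟩ := he
    rcases he with h1 | h1 | h1
    · obtain ⟨a1, a2, a3, a4, a5⟩ := h1
      simp only at a1 a2 a3 a4 a5
      subst a1 a2 a3
      have m := (rod_mem hS le_rfl (by omega)).1 hw'
      rw [hf.len] at m
      exact ⟨rfl, rfl, rfl, a4, a5, ((loc_mem' hS).1 hv).1, m.1⟩
    · exact absurd (Or.inl ⟨h1.1, h1.2.1, h1.2.2.1, h1.2.2.2.1, h1.2.2.2.2.1⟩) hn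
    · exact absurd (Or.inr ⟨h1.1, h1.2.2.1, h1.2.2.2.1, h1.2.2.2.2⟩) hn
  have hcost : ∀ e ∈ T, h.cost e.1 e.2 ≤
      if σ e.2.1 e.2.2.2.1 ≠ e.2.2.2.1 then 1 else 0 := by
    rintro ⟨⟨k, j, x, q⟩, ⟨k', j', x', q'⟩⟩ he
    obtain ⟨a1, a2, a3, a4, a5, a6, a7⟩ := hty _ he
    rw [hT, Finset.mem_filter, mem_AE] at he
    obtain ⟨⟨hv, hw', he⟩, hn⟩ := he
    simp only at a1 a2 a3 a4 a5 a6 a7 hv hw' he hn ⊢
    subst a1 a2 a3 a6
    have hop := hw.op k' x'
    have hog : h.og k' = true ∨ σ k' x' = x' := by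
      rcases hop with h1 | h1 | h1
      · exact Or.inr h1
      · exact Or.inl ((hf.og _).2 ⟨_, h1.2⟩)
      · exact Or.inl ((hf.og _).2 ⟨_, h1.2⟩)
    rcases hf.ok.cost_cases ((hS _).1 hv) ((hS _).1 hw') (Ed_lv he) with h2 | h2 | h2
    · exact absurd h2.1 hn
    · rw [h2.2.2]
      by_cases hg : h.og k' = true
      · rw [if_pos hg]
        simp only
        rw [← a5, hf.o, hf.o]
        rcases hop with h1 | h1 | h1
        · rw [h1]; simp
        · have h3 := (hs.op_spec k' x' h1.2).2.1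
          rw [if_pos (by omega), h1.1, h3]
          push_cast; ring_nf; exact le_rfl
        · have h3 := (hs.op_spec k' _ h1.2).2.1
          rw [← h1.1] at h3
          rw [if_pos (by omega), h3]
          push_cast; ring_nf; exact le_rfl
      · rw [if_neg hg]
        split_ifs <;> norm_num
    · exfalso
      apply h2.2.1
      refine ⟨rfl, rfl, rfl, ?_, ?_⟩
      · rw [Sh.isLo_iff]
        exact ⟨σ k' x', by rw [hf.len]; exact hw.lt _ _ a7, a5⟩
      · rcases hog with h3 | h3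
        · exact Or.inl h3
        · right
          simp only
          rw [← a5, h3]
  refine (Finset.sum_le_sum hcost).trans ?_
  have e1 : ∑ e ∈ T, (if σ e.2.1 e.2.2.2.1 ≠ e.2.2.2.1 then (1 : ℤ) else 0) =
      ((T.filter fun e => σ e.2.1 e.2.2.2.1 ≠ e.2.2.2.1).card : ℤ) := by
    rw [Finset.card_filter]; push_cast; rfl
  rw [e1]
  have e2 : (T.filter fun e => σ e.2.1 e.2.2.2.1 ≠ e.2.2.2.1).card ≤ (swS s σ K).card := by
    refine Finset.card_le_card_of_injOn (fun e => (⟨e.2.1, e.2.2.2.1⟩ : Σ _ : ℕ, ℕ)) ?_ ?_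
    · intro e he
      rw [Finset.mem_coe, Finset.mem_filter] at he
      have h1 := hty e he.1
      rw [Finset.mem_coe, swS, Finset.mem_sigma, Finset.mem_filter, Finset.mem_range,
        Finset.mem_range]
      refine ⟨?_, h1.2.2.2.2.2.2, he.2⟩
      by_contra hK
      have := hf.top e.2.1 (by simpa using hK)
      have h2 := h1.2.2.2.2.2.2
      omega
    · rintro ⟨⟨k, j, x, q⟩, ⟨k', j', x', q'⟩⟩ he ⟨⟨l, m, y, p⟩, ⟨l', m', y', p'⟩⟩ he' heq
      rw [Finset.mem_coe, Finset.mem_filter] at he he'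
      obtain ⟨a1, a2, a3, a4, a5, a6, a7⟩ := hty _ he.1
      obtain ⟨b1, b2, b3, b4, b5, b6, b7⟩ := hty _ he'.1
      simp only at a1 a2 a3 a4 a5 a6 a7 b1 b2 b3 b4 b5 b6 b7
      simp only [Sigma.mk.injEq, heq_eq_eq] at heq
      obtain ⟨h1, h2⟩ := heq
      subst h1 h2 a1 a2 a3 a4 a5 a6 b1 b3 b4 b6
      subst b2
      rw [b5]
  exact_mod_cast e2

open Classical in
/-- Completeness. -/
theorem complete (hf : Fit s h K) (hS : ∀ v, v ∈ S ↔ h.IsV v) (Λ : Finset Γ)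
    (hΛ : ∀ c, c ∈ Λ ↔ ∃ k r, r < s.len k ∧ s.lab k r = c) (hne : Λ.Nonempty) (hsp : s.Span) :
    ∃ A B, Two S A ∧ Two S B ∧ Disjoint A B ∧
      ∑ e ∈ A, h.cost e.1 e.2 + ∑ e ∈ B, h.cost e.1 e.2 ≤
        - h.M * (NSet h S).card + 4 * ((Λ.card : ℤ) - 1) := by
  obtain ⟨σ, h1, h2, h3, h4, h5⟩ := exists_swaps hf.good hf.top Λ hΛ hne hsp
  have hw : Sw s σ := ⟨h1, h2, h3⟩
  have hd : DConn s σ := h5
  refine ⟨AE h σ S 0, AE h σ S 1, two_AE hf hS hw hd (by omega), two_AE hf hS hw hd (by omega),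
    AE_disj hS, ?_⟩
  have hsw : (swS s σ K).card + 2 ≤ 2 * Λ.card := by
    unfold swS
    rw [Finset.card_sigma]
    exact h4
  have c0 := cost_col (c := 0) hf hS hw
  have c1 := cost_col (c := 1) hf hS hw
  have s0 := Finset.sum_filter_add_sum_filter_not (AE h σ S 0) (fun e => h.NS e.1 e.2)
    (fun e => h.cost e.1 e.2)
  have s1 := Finset.sum_filter_add_sum_filter_not (AE h σ S 1) (fun e => h.NS e.1 e.2)
    (fun e => h.cost e.1 e.2)
  have hNS : ∀ c, ∑ e ∈ (AE h σ S c).filter (fun e => h.NS e.1 e.2), h.cost e.1 e.2 =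
      - h.M * ((AE h σ S c).filter (fun e => h.NS e.1 e.2)).card := by
    intro c
    rw [Finset.sum_congr rfl (g := fun _ => - h.M), Finset.sum_const, nsmul_eq_mul]
    · ring
    · intro e he
      rw [Finset.mem_filter, mem_AE] at he
      rcases hf.ok.cost_cases ((hS _).1 he.1.1) ((hS _).1 he.1.2.1) (Ed_lv he.1.2.2) with
        h2 | h2 | h2
      · exact h2.2
      · exact absurd he.2 h2.1
      · exact absurd he.2 h2.1
  have hcov : (NSet h S).card ≤ ((AE h σ S 0).filter (fun e => h.NS e.1 e.2)).card +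
      ((AE h σ S 1).filter (fun e => h.NS e.1 e.2)).card := by
    refine (Finset.card_le_card ?_).trans (Finset.card_union_le _ _)
    rintro ⟨⟨k, j, x, q⟩, ⟨k', j', x', q'⟩⟩ he
    rw [NSet, Finset.mem_filter, Finset.mem_product] at he
    obtain ⟨⟨hv, hw'⟩, hl, hn⟩ := he
    simp only at hv hw' hl hn
    rw [Finset.mem_union, Finset.mem_filter, Finset.mem_filter, mem_AE, mem_AE]
    have hn' := hn
    rcases hn with ⟨a1, a2, a3, a4, a5⟩ | ⟨a1, a2, a3, a4⟩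
    · simp only at a1 a2 a3 a4 a5
      subst a3 a4 a5
      have m1 := (rod_mem hS a1 (by omega)).1 hv
      have m2 := (rod_mem hS (by omega) (by omega)).1 hw'
      rcases pat_cover j (by omega) a1 q m1.2 q' m2.2 with h6 | h6
      · left
        exact ⟨⟨hv, hw', Or.inr (Or.inl ⟨a1, a2, rfl, rfl, rfl, h6⟩)⟩, hn'⟩
      · right
        exact ⟨⟨hv, hw', Or.inr (Or.inl ⟨a1, a2, rfl, rfl, rfl, h6⟩)⟩, hn'⟩
    · simp only at a1 a2 a3 a4
      subst a1
      have m1 := (rod_mem hS (by omega) (by omega)).1 hv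
      have hq : q < 2 := by
        have := m1.2
        simpa [wd] using this
      rcases (by omega : q = 0 ∨ q = 1) with rfl | rfl
      · left
        exact ⟨⟨hv, hw', Or.inr (Or.inr ⟨rfl, rfl, a2, a3, a4⟩)⟩, hn'⟩
      · right
        exact ⟨⟨hv, hw', Or.inr (Or.inr ⟨rfl, rfl, a2, a3, a4⟩)⟩, hn'⟩
  have hM := hf.ok.M0
  have e0 := hNS 0
  have e1 := hNS 1
  have hcov' : ((NSet h S).card : ℤ) ≤ ((AE h σ S 0).filter (fun e => h.NS e.1 e.2)).card +
      ((AE h σ S 1).filter (fun e => h.NS e.1 e.2)).card := by exact_mod_cast hcov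
  have hsw' : ((swS s σ K).card : ℤ) + 2 ≤ 2 * Λ.card := by exact_mod_cast hsw
  nlinarith

end Pool.Agent.R533.PSP
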