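import Pool.Agent.R533.PSP.Shape

/-!
# Euclidean Max-2-PSP: classification of the costs
-/

namespace Pool.Agent.R533.PSP

namespace Sh

variable {h : Sh}

theorem OK.xr_strict (hh : h.OK) {k j : ℕ} (_hj : 1 ≤ j) {r r' : ℕ} (hr : r < r')
    (hr' : r' < h.len k) : h.xr k j r < h.xr k j r' := by
  refine smonoZ (n := h.len k) (fun s hs => ?_) hr hr'
  have hD := hh.Dpos
  unfold xr
  split_ifs with hc
  · have := hh.ostrict hc.1 hs
    omega
  · have h1 := hh.omono k s hs
    have h2 := hh.imono k s hs
    have h3 := hh.smono k s hs
    have : h.o k s + h.i k s < h.o k (s + 1) + h.i k (s + 1) := by omega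
    have : ((h.o k s + h.i k s : ℕ) : ℤ) < ((h.o k (s + 1) + h.i k (s + 1) : ℕ) : ℤ) := by
      exact_mod_cast this
    exact mul_lt_mul_of_pos_left this hD

theorem OK.xr_ne (hh : h.OK) {k j : ℕ} (hj : 1 ≤ j) {r r' : ℕ} (hr : r < h.len k)
    (hr' : r' < h.len k) (hne : r ≠ r') : h.xr k j r ≠ h.xr k j r' := by
  rcases lt_or_gt_of_ne hne with h1 | h1
  · exact (hh.xr_strict hj h1 hr').ne
  · exact (hh.xr_strict hj h1 hr).ne'

theorem OK.xl_ne (hh : h.OK) {k p p' : ℕ} (hne : p ≠ p') : h.xl k p ≠ h.xl k p' := by
  have hD := hh.Dpos
  unfold xl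
  split_ifs
  · exact_mod_cast hne
  · intro h1
    have := mul_left_cancel₀ hD.ne' h1
    exact hne (by exact_mod_cast this)

theorem cost_eq {v w : V} {k j r r' : ℕ} (h1 : h.X v = h.a k j r) (h2 : h.P v = h.Pg k j r)
    (h3 : h.X w = h.b k j r') (h4 : h.Q w = h.Qg k j r') :
    h.cost v w = base (h.a k j) (h.b k j) r r' - (if j = 0 then 0 else h.M) := by
  unfold cost
  rw [h1, h2, h3, h4]
  unfold Pg Qg base
  ring

theorem OK.cost_cases (hh : h.OK) {v w : V} (hv : h.IsV v) (hw : h.IsV w)
    (hl : lv w = lv v + 1) :
    (h.NS v w ∧ h.cost v w = - h.M) ∨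
      (¬ h.NS v w ∧ h.ST v w ∧ h.cost v w = if h.og v.1 = true then
        ((v.2.2.1 : ℤ) - h.o v.1 w.2.2.1) ^ 2 else 0) ∨
      (¬ h.NS v w ∧ ¬ h.ST v w ∧ h.M ≤ h.cost v w) := by
  have hM := hh.M0
  have hD2 := hh.D2
  have hD := hh.Dpos
  obtain ⟨k, j, x, q⟩ := v
  obtain ⟨k', j', x', q'⟩ := w
  have hj : j < 8 := by
    rcases hv with h1 | h1
    · have := h1.1; simp only at this; omega
    · exact h1.2.1
  have hj' : j' < 8 := by
    rcases hw with h1 | h1
    · have := h1.1; simp only at this; omega
    · exact h1.2.1
  have hl' : 8 * k' + j' = 8 * k + j + 1 := hl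
  by_cases j0 : j = 0
  · -- a site
    subst j0
    obtain rfl : k = k' := by omega
    obtain rfl : j' = 1 := by omega
    have hx' : x' < h.len k := by
      rcases hw with h1 | h1
      · exact absurd h1.1 (by simp)
      · exact h1.2.2.1
    have hns : ¬ h.NS (k, 0, x, q) (k, 1, x', q') := by
      rintro (h1 | h1)
      · have := h1.1; simp only at this; omega
      · have := h1.1; simp only at this; omega
    right
    have eX : h.X (k, 1, x', q') = h.b k 0 x' := by simp [X, b]
    have eQ : h.Q (k, 1, x', q') = h.Qg k 0 x' := by simp [Q]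
    by_cases hlo : h.isLo k x = true
    · obtain ⟨r, hr, hrx⟩ := isLo_iff.1 hlo
      obtain ⟨c1, c2⟩ := cl_spec (f := fun r => h.o k r) (hh.omono k) hr hrx
      set r0 := cl (fun r => h.o k r) (h.len k) x with hr0
      have c2' : h.o k r0 = x := c2
      have eX' : h.X (k, 0, x, q) = h.a k 0 r0 := by simp [X, a, c2']
      have eP : h.P (k, 0, x, q) = h.Pg k 0 r0 := by simp [P, hlo, hr0]
      have ec := cost_eq eX' eP eX eQ
      rw [if_pos rfl, sub_zero] at ec
      by_cases hog : h.og k = true
      · left
        refine ⟨hns, ⟨rfl, rfl, rfl, hlo, Or.inl hog⟩, ?_⟩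
        rw [ec, a_zero_og hog, b_zero_og hog, base_same]
        simp only [c2', if_pos hog]
      · have hsq := hh.seqs (k := k) (j := 0) (by omega) (fun hc => hog hc.1)
        obtain ⟨s1, s2⟩ := hsq.sep hD.le c1 hx'
        by_cases hxx : h.o k x' = x
        · left
          refine ⟨hns, ⟨rfl, rfl, rfl, hlo, Or.inr hxx⟩, ?_⟩
          rw [ec, if_neg hog]
          apply s1
          left
          simp [a, c2', hxx]
        · right
          refine ⟨hns, ?_, ?_⟩
          · rintro ⟨-, -, -, -, h5⟩
            rcases h5 with h5 | h5
            · exact hog h5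
            · exact hxx h5
          · rw [ec]
            have := s2 (by
              simp only [a, if_pos]
              rw [c2']
              exact hh.xl_ne (fun h5 => hxx h5.symm)) (by
              have hne : r0 ≠ x' := by
                intro h5
                rw [← h5] at hxx
                exact hxx c2'
              have := hh.xr_ne (j := 1) (k := k) le_rfl c1 hx' hne
              simpa [b] using this)
            omega
    · right
      refine ⟨hns, fun h5 => hlo h5.2.2.2.1, ?_⟩
      have eP : h.P (k, 0, x, q) = - h.B := by simp [P, hlo]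
      have h6 := (hh.hB k 0 x' (by omega) hx').2
      unfold cost
      rw [eP, eQ]
      nlinarith [sq_nonneg (h.X (k, 0, x, q) - h.X (k, 1, x', q'))]
  · have hx : x < h.len k := by
      rcases hv with h1 | h1
      · exact absurd h1.1 j0
      · exact h1.2.2.1
    have eX : h.X (k, j, x, q) = h.a k j x := by simp [X, a, j0]
    have eP : h.P (k, j, x, q) = h.Pg k j x := by simp [P, j0]
    have hst : ¬ h.ST (k, j, x, q) (k', j', x', q') := fun h5 => j0 h5.1
    by_cases j7 : j = 7
    · subst j7
      obtain rfl : k' = k + 1 := by omega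
      obtain rfl : j' = 0 := by omega
      by_cases hup : h.isUp (k + 1) x' = true
      · obtain ⟨r, hr, hrx⟩ := isUp_iff.1 hup
        rw [Nat.add_sub_cancel] at hr hrx
        obtain ⟨c1, c2⟩ := cl_spec (f := fun r => h.i k r) (hh.imono k) hr hrx
        set r0 := cl (fun r => h.i k r) (h.len k) x' with hr0
        have c2' : h.i k r0 = x' := c2
        have eX' : h.X (k + 1, 0, x', q') = h.b k 7 r0 := by simp [X, b, c2']
        have eQ : h.Q (k + 1, 0, x', q') = h.Qg k 7 r0 := by simp [Q, hup, hr0]
        have ec := cost_eq eX eP eX' eQ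
        rw [if_neg (by decide)] at ec
        have hsq := hh.seqs (k := k) (j := 7) (by omega) (fun hc => absurd hc.2 (by decide))
        obtain ⟨s1, s2⟩ := hsq.sep hD.le hx c1
        by_cases hxx : h.i k x = x'
        · left
          refine ⟨Or.inr ⟨rfl, rfl, rfl, hxx.symm⟩, ?_⟩
          rw [ec, s1]
          · ring
          · right
            simp [b, c2', hxx]
        · right; right
          refine ⟨?_, hst, ?_⟩
          · rintro (h1 | h1)
            · have := h1.2.1; simp only at this; omega
            · exact hxx h1.2.2.2.symm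
          · have hne : x ≠ r0 := by
              intro h5
              rw [← h5] at c2'
              exact hxx c2'
            have := s2 (by
              have := hh.xr_ne (j := 7) (k := k) (by omega) hx c1 hne
              simpa [a] using this) (by
              simp only [b, if_pos]
              rw [c2']
              exact hh.xl_ne hxx)
            rw [ec]
            omega
      · right; right
        refine ⟨?_, hst, ?_⟩
        · rintro (h1 | h1)
          · have := h1.2.1; simp only at this; omega
          · apply hup
            rw [isUp_iff, Nat.add_sub_cancel]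
            exact ⟨x, hx, h1.2.2.2.symm⟩
        · have eQ : h.Q (k + 1, 0, x', q') = - h.B := by simp [Q, hup]
          have h6 := (hh.hB k 7 x (by omega) hx).1
          unfold cost
          rw [eP, eQ]
          nlinarith [sq_nonneg (h.X (k, 7, x, q) - h.X (k + 1, 0, x', q'))]
    · obtain rfl : k = k' := by omega
      obtain rfl : j' = j + 1 := by omega
      have hx' : x' < h.len k := by
        rcases hw with h1 | h1
        · have := h1.1; simp only at this; omega
        · exact h1.2.2.1
      have eX' : h.X (k, j + 1, x', q') = h.b k j x' := by simp [X, b, j7]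
      have eQ : h.Q (k, j + 1, x', q') = h.Qg k j x' := by simp [Q]
      have ec := cost_eq eX eP eX' eQ
      rw [if_neg j0] at ec
      by_cases hxx : x = x'
      · subst hxx
        left
        refine ⟨Or.inl ⟨by simp only; omega, by simp only; omega, rfl, rfl, rfl⟩, ?_⟩
        rw [ec, base_self]
        ring
      · right; right
        refine ⟨?_, hst, ?_⟩
        · rintro (h1 | h1)
          · exact hxx h1.2.2.2.2.symm
          · exact j7 h1.1
        · have hsq := hh.seqs (k := k) (j := j) hj (fun hc => j0 hc.2)
          have := (hsq.sep hD.le hx hx').2 (by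
            have := hh.xr_ne (j := j) (k := k) (by omega) hx hx' hxx
            simpa [a, j0] using this) (by
            have := hh.xr_ne (j := j + 1) (k := k) (by omega) hx hx' hxx
            simpa [b, j7] using this)
          rw [ec]
          omega

end Sh

end Pool.Agent.R533.PSP
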