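import Mathlib

/-!
# Euclidean Max-2-PSP: definitions
-/

namespace Pool.Agent.R533.PSP

/-- The cyclically consecutive pairs of a list: the edges of the closed tour which visits the
members of the list in order. -/
def cyc {α : Type} (σ : List α) : List (α × α) := σ.zip (σ.rotate 1)

end Pool.Agent.R533.PSP
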