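import Pool.Agent.R533.PSP.Cyc

/-!
# Euclidean Max-2-PSP: the decision problem
-/

namespace Pool.Agent.R533.PSP

/-- The point of the Euclidean space `ℝˢ` whose coordinates are the rational numbers in the
list `p`. -/
noncomputable def pt (s : ℕ) (p : List ℚ) : EuclideanSpace ℝ (Fin s) :=
  WithLp.toLp 2 fun i => ((p.getD i 0 : ℚ) : ℝ)

/-- The Euclidean length of the closed tour which visits the points of the list `σ` in order. -/
noncomputable def tourLen (s : ℕ) (σ : List (List ℚ)) : ℝ :=
  ((cyc σ).map fun e => dist (pt s e.1) (pt s e.2)).sum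

/-- The decision version of the Euclidean Max-2-PSP in `ℝˢ`: the list `I.1` consists of at least
three different points with `s` rational coordinates each, and there are two closed tours
through all these points (Hamiltonian cycles of the complete graph) which share no edge and whose
total Euclidean length is at least `I.2`. -/
def MaxPSP2 (s : ℕ) (I : List (List ℚ) × ℚ) : Prop :=
  (∀ p ∈ I.1, p.length = s) ∧ I.1.Nodup ∧ 3 ≤ I.1.length ∧
    ∃ σ τ : List (List ℚ), σ.Perm I.1 ∧ τ.Perm I.1 ∧
      (∀ e ∈ cyc σ, ∀ f ∈ cyc τ, s(e.1, e.2) ≠ s(f.1, f.2)) ∧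
      (I.2 : ℝ) ≤ tourLen s σ + tourLen s τ

end Pool.Agent.R533.PSP
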