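import Mathlib

/-!
# Euclidean Max-2-PSP: the geometry of the embedding
-/

namespace Pool.Agent.R533.PSP

open Complex

/-- `(m + i)²`. -/
noncomputable def gC (m : ℝ) : ℂ := ⟨m ^ 2 - 1, 2 * m⟩

/-- The rotation between consecutive levels. -/
noncomputable def rho (m : ℝ) : ℂ :=
  ⟨((m ^ 2 - 1) ^ 2 - 4 * m ^ 2) / (m ^ 2 + 1) ^ 2, 4 * m * (m ^ 2 - 1) / (m ^ 2 + 1) ^ 2⟩

/-- The unrotated point. -/
noncomputable def eC (m H : ℝ) (l : ℕ) (x t : ℝ) : ℂ :=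
  ⟨2 * (m ^ 2 - 1) * H ^ 2 + (-1) ^ l * (2 * (m ^ 2 - 1) * H * x), m * t⟩

theorem rho_mul (m : ℝ) : ((m ^ 2 + 1 : ℝ) : ℂ) ^ 2 * rho m = gC m ^ 2 := by
  have h : (m ^ 2 + 1) ≠ 0 := by positivity
  apply Complex.ext
  · simp only [rho, gC, pow_two, Complex.mul_re, Complex.mul_im, Complex.ofReal_re,
      Complex.ofReal_im]
    field_simp
    ring
  · simp only [rho, gC, pow_two, Complex.mul_re, Complex.mul_im, Complex.ofReal_re,
      Complex.ofReal_im]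
    field_simp
    ring

theorem normSq_gC (m : ℝ) : Complex.normSq (gC m) = (m ^ 2 + 1) ^ 2 := by
  simp only [gC, Complex.normSq_mk]; ring

theorem norm_gC (m : ℝ) : ‖gC m‖ = m ^ 2 + 1 := by
  have h : (0 : ℝ) ≤ m ^ 2 + 1 := by positivity
  rw [Complex.norm_def, normSq_gC, Real.sqrt_sq h]

theorem normSq_rho (m : ℝ) : Complex.normSq (rho m) = 1 := by
  have h : (m ^ 2 + 1) ≠ 0 := by positivity
  simp only [rho, Complex.normSq_mk]
  field_simp
  ring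

theorem norm_rho (m : ℝ) : ‖rho m‖ = 1 := by
  rw [Complex.norm_def, normSq_rho, Real.sqrt_one]

/-- The distance of two points of consecutive levels. -/
theorem near_eq (m : ℝ) (a b : ℂ) :
    (m ^ 2 + 1) * ‖a - (- rho m) ^ 1 * b‖ = ‖(starRingEnd ℂ) (gC m) * a + gC m * b‖ := by
  have h0 : (0 : ℝ) < m ^ 2 + 1 := by positivity
  have h1 : ((m ^ 2 + 1 : ℝ) : ℂ) ^ 2 * (a - (- rho m) ^ 1 * b) =
      gC m * ((starRingEnd ℂ) (gC m) * a + gC m * b) := by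
    have h2 : gC m * (starRingEnd ℂ) (gC m) = ((m ^ 2 + 1 : ℝ) : ℂ) ^ 2 := by
      rw [Complex.mul_conj, normSq_gC]
      push_cast
      ring
    rw [mul_add, ← mul_assoc, h2, ← mul_assoc, ← pow_two, ← rho_mul]
    ring
  have h2 := congrArg norm h1
  rw [norm_mul, norm_mul, norm_gC, norm_pow, Complex.norm_real, Real.norm_of_nonneg h0.le] at h2
  have h3 : (m ^ 2 + 1) * ((m ^ 2 + 1) * ‖a - (- rho m) ^ 1 * b‖) =
      (m ^ 2 + 1) * ‖(starRingEnd ℂ) (gC m) * a + gC m * b‖ := by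
    rw [← h2]; ring
  exact mul_left_cancel₀ h0.ne' h3

theorem sqrt_est {R I S : ℝ} (hR : 0 < R) (hS : 0 ≤ S) (h1 : |I ^ 2 - 2 * R * S| ≤ R)
    (h2 : (S - 1) ^ 2 ≤ R) : |√(R ^ 2 + I ^ 2) - (R + S)| ≤ 1 := by
  rw [abs_le] at h1 ⊢
  constructor
  · have : R + S - 1 ≤ √(R ^ 2 + I ^ 2) := by
      apply Real.le_sqrt_of_sq_le
      nlinarith
    linarith
  · have : √(R ^ 2 + I ^ 2) ≤ R + S + 1 := by
      rw [Real.sqrt_le_left (by linarith)]
      nlinarith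
    linarith

/-- Distances of points of consecutive levels. -/
theorem near_est {m H Z : ℝ} (hm : 2 ≤ m) (hZ : 1 ≤ Z) (hH : 82 * m ^ 2 * Z ^ 3 ≤ H) (l : ℕ)
    {x t y u : ℝ} (hx : |x| ≤ Z) (ht : |t| ≤ Z) (hy : |y| ≤ Z) (hu : |u| ≤ Z) :
    |(m ^ 2 + 1) * ‖eC m H l x t - (- rho m) ^ 1 * eC m H (l + 1) y u‖ -
      ((m ^ 2 - 1) * ((eC m H l x t).re + (eC m H (l + 1) y u).re) + 2 * m ^ 2 * (t - u) +
        2 * m ^ 2 * (x + y) ^ 2)| ≤ 1 := by
  rw [near_eq]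
  obtain ⟨ε, hε, hl⟩ : ∃ ε : ℝ, (ε = 1 ∨ ε = -1) ∧ (-1 : ℝ) ^ l = ε := by
    rcases Nat.even_or_odd l with h | h
    · exact ⟨1, Or.inl rfl, h.neg_one_pow⟩
    · exact ⟨-1, Or.inr rfl, h.neg_one_pow⟩
  have hl1 : (-1 : ℝ) ^ (l + 1) = - ε := by rw [pow_succ, hl]; ring
  set c := m ^ 2 - 1 with hc
  set R : ℝ := c * ((eC m H l x t).re + (eC m H (l + 1) y u).re) + 2 * m ^ 2 * (t - u) with hR
  set I : ℝ := c * (m * t + m * u) +
    2 * m * ((eC m H (l + 1) y u).re - (eC m H l x t).re) with hI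
  have hn : ‖(starRingEnd ℂ) (gC m) * eC m H l x t + gC m * eC m H (l + 1) y u‖ =
      √(R ^ 2 + I ^ 2) := by
    rw [Complex.norm_def]
    congr 1
    rw [Complex.normSq_apply]
    simp only [hR, hI, gC, eC, Complex.add_re, Complex.mul_re, Complex.add_im, Complex.mul_im,
      Complex.conj_re, Complex.conj_im, ← hc]
    ring
  rw [hn]
  have hea : (eC m H l x t).re = 2 * c * H ^ 2 + ε * (2 * c * H * x) := by
    simp only [eC, hl, ← hc]
  have heb : (eC m H (l + 1) y u).re = 2 * c * H ^ 2 - ε * (2 * c * H * y) := by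
    simp only [eC, hl1, ← hc]; ring
  have hRe : R = 4 * c ^ 2 * H ^ 2 + 2 * ε * c ^ 2 * H * (x - y) + 2 * m ^ 2 * (t - u) := by
    rw [hR, hea, heb]; ring
  have hIe : I = c * m * ((t + u) - 4 * ε * H * (x + y)) := by
    rw [hI, hea, heb]; ring
  have hm4 : 4 ≤ m ^ 2 := by nlinarith
  have hc3 : 3 ≤ c := by rw [hc]; linarith
  have hcm : m ^ 2 ≤ 2 * c := by rw [hc]; linarith
  have hZ2 : 1 ≤ Z ^ 2 := one_le_pow₀ hZ
  have hZ3 : 1 ≤ Z ^ 3 := one_le_pow₀ hZ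
  have hm20 : 0 ≤ m ^ 2 := sq_nonneg m
  have hHm : m ^ 2 ≤ H := by
    have : m ^ 2 * 1 ≤ m ^ 2 * Z ^ 3 := mul_le_mul_of_nonneg_left hZ3 hm20
    have : 0 ≤ m ^ 2 * Z ^ 3 := by positivity
    linarith
  have hZZ3 : Z ≤ Z ^ 3 := by
    calc Z = Z * 1 := by ring
      _ ≤ Z * Z ^ 2 := mul_le_mul_of_nonneg_left hZ2 (by linarith)
      _ = Z ^ 3 := by ring
  have hHZ : 82 * m ^ 2 * Z ≤ H := by
    have : m ^ 2 * Z ≤ m ^ 2 * Z ^ 3 := mul_le_mul_of_nonneg_left hZZ3 hm20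
    linarith
  have hH0 : 0 < H := by linarith
  have hH1 : 1 ≤ H := by linarith
  have h4Z : 4 * Z ≤ H := by
    have : 4 * Z ≤ m ^ 2 * Z := mul_le_mul_of_nonneg_right hm4 (by linarith)
    have : 0 ≤ m ^ 2 * Z := by positivity
    linarith
  have hc21 : 1 ≤ c ^ 2 := one_le_pow₀ (by linarith)
  have hε2 : ε ^ 2 = 1 := by rcases hε with rfl | rfl <;> norm_num
  have hεa : |ε| = 1 := by rcases hε with rfl | rfl <;> norm_num
  have hxy : |x - y| ≤ 2 * Z := by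
    rw [abs_le] at hx hy ⊢; constructor <;> linarith [hx.1, hx.2, hy.1, hy.2]
  have hxy' : |x + y| ≤ 2 * Z := by
    rw [abs_le] at hx hy ⊢; constructor <;> linarith [hx.1, hx.2, hy.1, hy.2]
  have htu : |t - u| ≤ 2 * Z := by
    rw [abs_le] at ht hu ⊢; constructor <;> linarith [ht.1, ht.2, hu.1, hu.2]
  have htu' : |t + u| ≤ 2 * Z := by
    rw [abs_le] at ht hu ⊢; constructor <;> linarith [ht.1, ht.2, hu.1, hu.2]
  have hsq : (x + y) ^ 2 ≤ 4 * Z ^ 2 := by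
    have := sq_le_sq' (abs_le.1 hxy').1 (abs_le.1 hxy').2
    rw [mul_pow] at this
    norm_num at this
    exact this
  have hsq0 : 0 ≤ (x + y) ^ 2 := sq_nonneg _
  have htsq : (t + u) ^ 2 ≤ 4 * Z ^ 2 := by
    have := sq_le_sq' (abs_le.1 htu').1 (abs_le.1 htu').2
    rw [mul_pow] at this
    norm_num at this
    exact this
  -- lower bound of R
  have hRlow : 2 * c ^ 2 * H ^ 2 ≤ R := by
    rw [hRe]
    have h1 : |2 * ε * c ^ 2 * H * (x - y)| ≤ 4 * c ^ 2 * H * Z := by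
      rw [abs_mul, abs_mul, abs_mul, abs_mul, hεa, abs_of_pos hH0, abs_of_nonneg (sq_nonneg c)]
      norm_num
      have h0 : 0 ≤ 2 * (c ^ 2 * H) := by positivity
      calc 2 * c ^ 2 * H * |x - y| = 2 * (c ^ 2 * H) * |x - y| := by ring
        _ ≤ 2 * (c ^ 2 * H) * (2 * Z) := mul_le_mul_of_nonneg_left hxy h0
        _ = 4 * c ^ 2 * H * Z := by ring
    have h2 : |2 * m ^ 2 * (t - u)| ≤ 4 * m ^ 2 * Z := by
      rw [abs_mul, abs_of_nonneg (by positivity : (0 : ℝ) ≤ 2 * m ^ 2)]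
      calc 2 * m ^ 2 * |t - u| ≤ 2 * m ^ 2 * (2 * Z) :=
            mul_le_mul_of_nonneg_left htu (by positivity)
        _ = 4 * m ^ 2 * Z := by ring
    have h3 : 4 * c ^ 2 * H * Z ≤ c ^ 2 * H ^ 2 := by
      have h4 : 0 ≤ c ^ 2 * H := by positivity
      calc 4 * c ^ 2 * H * Z = (c ^ 2 * H) * (4 * Z) := by ring
        _ ≤ (c ^ 2 * H) * H := mul_le_mul_of_nonneg_left h4Z h4
        _ = c ^ 2 * H ^ 2 := by ring
    have h4 : 4 * m ^ 2 * Z ≤ c ^ 2 * H ^ 2 := by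
      have h5 : 4 * m ^ 2 * Z ≤ H := by
        have : 0 ≤ m ^ 2 * Z := by positivity
        linarith
      calc 4 * m ^ 2 * Z ≤ H := h5
        _ = 1 * H := by ring
        _ ≤ (c ^ 2 * H) * H := by
          apply mul_le_mul_of_nonneg_right _ hH0.le
          calc (1 : ℝ) = 1 * 1 := by ring
            _ ≤ c ^ 2 * H := mul_le_mul hc21 hH1 zero_le_one (by positivity)
        _ = c ^ 2 * H ^ 2 := by ring
    have := (abs_le.1 h1).1
    have := (abs_le.1 h2).1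
    linarith
  have hcH : 0 < c ^ 2 * H ^ 2 := by positivity
  have hRpos : 0 < R := by linarith
  have hS0 : 0 ≤ 2 * m ^ 2 * (x + y) ^ 2 := by positivity
  refine sqrt_est hRpos hS0 ?_ ?_
  · -- the main error term
    have hΔ : I ^ 2 - 2 * R * (2 * m ^ 2 * (x + y) ^ 2) =
        (- (8 * c ^ 2 * m ^ 2 * H * (ε * (x + y) * (t + u)))) + c ^ 2 * m ^ 2 * (t + u) ^ 2 +
        (- (8 * m ^ 2 * c ^ 2 * H * (ε * (x + y) ^ 2 * (x - y)))) +
        (- (8 * m ^ 4 * ((x + y) ^ 2 * (t - u)))) := by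
      rw [hRe, hIe]
      have h4 : ε * ε = 1 := by rw [← pow_two]; exact hε2
      linear_combination (16 * c ^ 2 * m ^ 2 * H ^ 2 * (x + y) ^ 2) * h4
    have b1 : |ε * (x + y) * (t + u)| ≤ 4 * Z ^ 2 := by
      rw [abs_mul, abs_mul, hεa, one_mul]
      calc |x + y| * |t + u| ≤ (2 * Z) * (2 * Z) :=
            mul_le_mul hxy' htu' (abs_nonneg _) (by linarith)
        _ = 4 * Z ^ 2 := by ring
    have b2 : |ε * (x + y) ^ 2 * (x - y)| ≤ 8 * Z ^ 3 := by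
      rw [abs_mul, abs_mul, hεa, one_mul, abs_of_nonneg hsq0]
      calc (x + y) ^ 2 * |x - y| ≤ (4 * Z ^ 2) * (2 * Z) :=
            mul_le_mul hsq hxy (abs_nonneg _) (by positivity)
        _ = 8 * Z ^ 3 := by ring
    have b3 : |(x + y) ^ 2 * (t - u)| ≤ 8 * Z ^ 3 := by
      rw [abs_mul, abs_of_nonneg hsq0]
      calc (x + y) ^ 2 * |t - u| ≤ (4 * Z ^ 2) * (2 * Z) :=
            mul_le_mul hsq htu (abs_nonneg _) (by positivity)
        _ = 8 * Z ^ 3 := by ring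
    have hZ23 : Z ^ 2 ≤ Z ^ 3 := by
      calc Z ^ 2 = Z ^ 2 * 1 := by ring
        _ ≤ Z ^ 2 * Z := mul_le_mul_of_nonneg_left hZ (by positivity)
        _ = Z ^ 3 := by ring
    have c1 : |-(8 * c ^ 2 * m ^ 2 * H * (ε * (x + y) * (t + u)))| ≤
        32 * c ^ 2 * m ^ 2 * H * Z ^ 3 := by
      rw [abs_neg, abs_mul, abs_of_nonneg (by positivity : (0 : ℝ) ≤ 8 * c ^ 2 * m ^ 2 * H)]
      have h5 : 0 ≤ 8 * c ^ 2 * m ^ 2 * H := by positivity
      calc 8 * c ^ 2 * m ^ 2 * H * |ε * (x + y) * (t + u)| ≤ 8 * c ^ 2 * m ^ 2 * H * (4 * Z ^ 3) :=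
            mul_le_mul_of_nonneg_left (by linarith) h5
        _ = _ := by ring
    have c2 : |c ^ 2 * m ^ 2 * (t + u) ^ 2| ≤ 4 * c ^ 2 * m ^ 2 * H * Z ^ 3 := by
      rw [abs_of_nonneg (by positivity)]
      have h5 : 0 ≤ c ^ 2 * m ^ 2 := by positivity
      have h6 : (t + u) ^ 2 ≤ 4 * (H * Z ^ 3) := by
        have : 1 * Z ^ 3 ≤ H * Z ^ 3 := mul_le_mul_of_nonneg_right hH1 (by positivity)
        linarith
      calc c ^ 2 * m ^ 2 * (t + u) ^ 2 ≤ c ^ 2 * m ^ 2 * (4 * (H * Z ^ 3)) :=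
            mul_le_mul_of_nonneg_left h6 h5
        _ = _ := by ring
    have c3 : |-(8 * m ^ 2 * c ^ 2 * H * (ε * (x + y) ^ 2 * (x - y)))| ≤
        64 * c ^ 2 * m ^ 2 * H * Z ^ 3 := by
      rw [abs_neg, abs_mul, abs_of_nonneg (by positivity : (0 : ℝ) ≤ 8 * m ^ 2 * c ^ 2 * H)]
      have h5 : 0 ≤ 8 * m ^ 2 * c ^ 2 * H := by positivity
      calc 8 * m ^ 2 * c ^ 2 * H * |ε * (x + y) ^ 2 * (x - y)| ≤
            8 * m ^ 2 * c ^ 2 * H * (8 * Z ^ 3) := mul_le_mul_of_nonneg_left b2 h5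
        _ = _ := by ring
    have c4 : |-(8 * m ^ 4 * ((x + y) ^ 2 * (t - u)))| ≤ 64 * c ^ 2 * m ^ 2 * H * Z ^ 3 := by
      rw [abs_neg, abs_mul, abs_of_nonneg (by positivity : (0 : ℝ) ≤ 8 * m ^ 4)]
      have h5 : (0 : ℝ) ≤ 8 * m ^ 4 := by positivity
      have h6 : m ^ 2 ≤ c ^ 2 * H := by
        have : 1 * H ≤ c ^ 2 * H := mul_le_mul_of_nonneg_right hc21 hH0.le
        linarith
      calc 8 * m ^ 4 * |(x + y) ^ 2 * (t - u)| ≤ 8 * m ^ 4 * (8 * Z ^ 3) :=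
            mul_le_mul_of_nonneg_left b3 h5
        _ = 64 * m ^ 2 * Z ^ 3 * m ^ 2 := by ring
        _ ≤ 64 * m ^ 2 * Z ^ 3 * (c ^ 2 * H) := mul_le_mul_of_nonneg_left h6 (by positivity)
        _ = _ := by ring
    rw [hΔ]
    have htot : |(- (8 * c ^ 2 * m ^ 2 * H * (ε * (x + y) * (t + u)))) +
        c ^ 2 * m ^ 2 * (t + u) ^ 2 +
        (- (8 * m ^ 2 * c ^ 2 * H * (ε * (x + y) ^ 2 * (x - y)))) +
        (- (8 * m ^ 4 * ((x + y) ^ 2 * (t - u))))| ≤ 164 * c ^ 2 * m ^ 2 * H * Z ^ 3 := by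
      rw [abs_le] at c1 c2 c3 c4 ⊢
      constructor <;> linarith [c1.1, c2.1, c3.1, c4.1, c1.2, c2.2, c3.2, c4.2]
    refine htot.trans (le_trans ?_ hRlow)
    calc 164 * c ^ 2 * m ^ 2 * H * Z ^ 3 = 2 * c ^ 2 * H * (82 * m ^ 2 * Z ^ 3) := by ring
      _ ≤ 2 * c ^ 2 * H * H := mul_le_mul_of_nonneg_left hH (by positivity)
      _ = 2 * c ^ 2 * H ^ 2 := by ring
  · refine le_trans ?_ hRlow
    have h1 : 2 * m ^ 2 * (x + y) ^ 2 ≤ 8 * m ^ 2 * Z ^ 2 := by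
      calc 2 * m ^ 2 * (x + y) ^ 2 ≤ 2 * m ^ 2 * (4 * Z ^ 2) :=
            mul_le_mul_of_nonneg_left hsq (by positivity)
        _ = _ := by ring
    have h2 : 8 * m ^ 2 * Z ^ 2 ≤ H := by
      have h3 : Z ^ 2 ≤ Z ^ 3 := by
        calc Z ^ 2 = Z ^ 2 * 1 := by ring
          _ ≤ Z ^ 2 * Z := mul_le_mul_of_nonneg_left hZ (by positivity)
          _ = Z ^ 3 := by ring
      have h5 : m ^ 2 * Z ^ 2 ≤ m ^ 2 * Z ^ 3 := mul_le_mul_of_nonneg_left h3 hm20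
      have : 0 ≤ m ^ 2 * Z ^ 3 := by positivity
      linarith
    have h4 : (2 * m ^ 2 * (x + y) ^ 2 - 1) ^ 2 ≤ H ^ 2 := by
      apply sq_le_sq' <;> linarith
    calc (2 * m ^ 2 * (x + y) ^ 2 - 1) ^ 2 ≤ H ^ 2 := h4
      _ = 1 * H ^ 2 := by ring
      _ ≤ (2 * c ^ 2) * H ^ 2 := mul_le_mul_of_nonneg_right (by linarith) (by positivity)
      _ = _ := by ring

/-! ### Points of other levels -/

theorem one_sub_rho (m : ℝ) : ‖1 - rho m‖ * (m ^ 2 + 1) = 4 * |m| := by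
  have h : (m ^ 2 + 1) ≠ 0 := by positivity
  have h0 : (0 : ℝ) ≤ m ^ 2 + 1 := by positivity
  have h1 : ‖1 - rho m‖ ^ 2 = (4 * m / (m ^ 2 + 1)) ^ 2 := by
    rw [← Complex.normSq_eq_norm_sq, Complex.normSq_apply]
    simp only [rho, Complex.sub_re, Complex.sub_im, Complex.one_re, Complex.one_im]
    field_simp
    ring
  have h2 : ‖1 - rho m‖ = |4 * m / (m ^ 2 + 1)| := by
    rw [← abs_of_nonneg (norm_nonneg (1 - rho m))]
    exact (sq_eq_sq_iff_abs_eq_abs _ _).1 h1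
  rw [h2, abs_div, abs_mul, abs_of_nonneg h0]
  field_simp
  rw [show |(4 : ℝ)| = 4 by norm_num, mul_comm]

theorem one_sub_rho_le {m : ℝ} (hm : 0 < m) : ‖1 - rho m‖ * m ≤ 4 := by
  have h1 := one_sub_rho m
  rw [abs_of_pos hm] at h1
  have h2 : 0 ≤ ‖1 - rho m‖ := norm_nonneg _
  have h3 : m * (‖1 - rho m‖ * m) ≤ m * 4 := by nlinarith
  exact le_of_mul_le_mul_left h3 hm

theorem one_sub_pow (m : ℝ) (d : ℕ) : ‖1 - rho m ^ d‖ ≤ d * ‖1 - rho m‖ := by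
  induction d with
  | zero => simp
  | succ d ih =>
    have h1 : 1 - rho m ^ (d + 1) = (1 - rho m) + rho m * (1 - rho m ^ d) := by ring
    rw [h1]
    refine (norm_add_le _ _).trans ?_
    rw [norm_mul, norm_rho, one_mul]
    push_cast
    linarith

theorem one_sub_pow_le {m : ℝ} {D d : ℕ} (hm : 0 < m) (hD : 8 * (D : ℝ) ≤ m) (hd : d ≤ D) :
    ‖1 - rho m ^ d‖ ≤ 1 / 2 := by
  have h1 := one_sub_pow m d
  have h2 := one_sub_rho_le hm
  have h3 : (d : ℝ) ≤ D := by exact_mod_cast hd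
  have h4 : 0 ≤ ‖1 - rho m‖ := norm_nonneg _
  have h5 : 8 * (d * ‖1 - rho m‖) ≤ 4 := by nlinarith
  linarith

theorem re_pow_ge {m : ℝ} {D d : ℕ} (hm : 0 < m) (hD : 8 * (D : ℝ) ≤ m) (hd : d ≤ D) :
    1 / 2 ≤ (rho m ^ d).re := by
  have h1 := one_sub_pow_le hm hD hd
  have h2 := Complex.re_le_norm (1 - rho m ^ d)
  rw [Complex.sub_re, Complex.one_re] at h2
  linarith

theorem rho_re_le (m : ℝ) : (rho m).re ≤ 1 := by
  have h2 := Complex.re_le_norm (rho m)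
  rwa [norm_rho] at h2

theorem rho_im_pos {m : ℝ} (hm : 2 ≤ m) : 0 < (rho m).im := by
  have : 0 < m ^ 2 - 1 := by nlinarith
  simp only [rho]
  positivity

theorem im_pow_ge {m : ℝ} (hm : 2 ≤ m) {D d : ℕ} (hD : 8 * (D : ℝ) ≤ m) (hd : d ≤ D)
    (hd1 : 1 ≤ d) : (rho m).im / 2 ≤ (rho m ^ d).im := by
  have hm0 : 0 < m := by linarith
  have hi := rho_im_pos hm
  have hD1 : 1 ≤ D := hd1.trans hd
  have hr1 := re_pow_ge hm0 hD hD1
  rw [pow_one] at hr1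
  induction d, hd1 using Nat.le_induction with
  | base => rw [pow_one]; linarith
  | succ d hd1 ih =>
    have i1 := ih (by omega)
    have hr := re_pow_ge (d := d) hm0 hD (by omega)
    rw [pow_succ, Complex.mul_im]
    have h1 : 0 ≤ (rho m ^ d).im * (rho m).re := mul_nonneg (by linarith) (by linarith)
    nlinarith

theorem re_pow_le {m : ℝ} (hm : 2 ≤ m) {D d : ℕ} (hD : 8 * (D : ℝ) ≤ m) (hd : d ≤ D)
    (hd2 : 2 ≤ d) : (rho m ^ d).re ≤ (rho m).re - (rho m).im ^ 2 := by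
  have hm0 : 0 < m := by linarith
  have hi := rho_im_pos hm
  have hD1 : 1 ≤ D := by omega
  have hr1 := re_pow_ge hm0 hD hD1
  rw [pow_one] at hr1
  have hle := rho_re_le m
  induction d, hd2 using Nat.le_induction with
  | base =>
    rw [pow_two, Complex.mul_re]
    nlinarith
  | succ d hd1 ih =>
    have i1 := ih (by omega)
    have hr := re_pow_ge (d := d) hm0 hD (by omega)
    have him := im_pow_ge (d := d) hm hD (by omega) (by omega)
    rw [pow_succ, Complex.mul_re]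
    have h1 : 0 ≤ (rho m ^ d).im * (rho m).im := mul_nonneg (by linarith) hi.le
    nlinarith

/-- The factor for non-consecutive levels. -/
theorem far_factor {m : ℝ} (hm : 2 ≤ m) {D d : ℕ} (hD : 8 * (D : ℝ) ≤ m) (hd : d ≤ D)
    (hd1 : d ≠ 1) : (m ^ 2 + 1) * ‖1 - (- rho m) ^ d‖ ≤
      2 * (m ^ 2 - 1) - 2 * (m ^ 2 - 1) / m ^ 2 := by
  have hm0 : 0 < m := by linarith
  have hm4 : 4 ≤ m ^ 2 := by nlinarith
  have hm2 : 0 < m ^ 2 := by linarith
  rcases Nat.even_or_odd d with he | ho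
  · rw [he.neg_pow]
    have h1 := one_sub_pow_le hm0 hD hd
    have h2 : (m ^ 2 + 1) * ‖1 - rho m ^ d‖ ≤ (m ^ 2 + 1) / 2 := by
      nlinarith [norm_nonneg (1 - rho m ^ d)]
    refine h2.trans ?_
    rw [← sub_nonneg]
    have h3 : 2 * (m ^ 2 - 1) - 2 * (m ^ 2 - 1) / m ^ 2 - (m ^ 2 + 1) / 2 =
        (4 * (m ^ 2 - 1) ^ 2 - m ^ 2 * (m ^ 2 + 1)) / (2 * m ^ 2) := by
      field_simp
      ring
    rw [h3]
    apply div_nonneg _ (by positivity)
    nlinarith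
  · have hd3 : 2 ≤ d := by
      rcases Nat.lt_or_ge d 2 with h | h
      · interval_cases d
        · exact absurd ho (by decide)
        · exact absurd rfl hd1
      · exact h
    rw [ho.neg_pow, sub_neg_eq_add]
    have h1 := re_pow_le hm hD hd hd3
    have h2 : ‖1 + rho m ^ d‖ ^ 2 = 2 + 2 * (rho m ^ d).re := by
      rw [← Complex.normSq_eq_norm_sq, Complex.normSq_apply]
      have h3 : Complex.normSq (rho m ^ d) = 1 := by rw [map_pow, normSq_rho, one_pow]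
      rw [Complex.normSq_apply] at h3
      simp only [Complex.add_re, Complex.add_im, Complex.one_re, Complex.one_im]
      linarith
    have hq : (m ^ 2 + 1) ≠ 0 := by positivity
    have hrhs : 0 ≤ 2 * (m ^ 2 - 1) - 2 * (m ^ 2 - 1) / m ^ 2 := by
      have : 2 * (m ^ 2 - 1) - 2 * (m ^ 2 - 1) / m ^ 2 = 2 * (m ^ 2 - 1) ^ 2 / m ^ 2 := by
        field_simp
      rw [this]; positivity
    have h4 : 0 ≤ (m ^ 2 + 1) * ‖1 + rho m ^ d‖ := by positivity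
    refine (pow_le_pow_iff_left₀ h4 hrhs two_ne_zero).1 ?_
    have h5 : ((m ^ 2 + 1) * ‖1 + rho m ^ d‖) ^ 2 ≤
        (m ^ 2 + 1) ^ 2 * (2 + 2 * ((rho m).re - (rho m).im ^ 2)) := by
      rw [mul_pow, h2]
      apply mul_le_mul_of_nonneg_left _ (by positivity)
      linarith
    refine h5.trans ?_
    rw [← sub_nonneg]
    have h6 : (2 * (m ^ 2 - 1) - 2 * (m ^ 2 - 1) / m ^ 2) ^ 2 -
        (m ^ 2 + 1) ^ 2 * (2 + 2 * ((rho m).re - (rho m).im ^ 2)) =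
        (m ^ 2 - 1) ^ 2 * (32 * m ^ 6 - (8 * m ^ 2 - 4) * (m ^ 2 + 1) ^ 2) /
          (m ^ 4 * (m ^ 2 + 1) ^ 2) := by
      simp only [rho]
      field_simp
      ring
    rw [h6]
    apply div_nonneg _ (by positivity)
    apply mul_nonneg (by positivity)
    have h7 : 0 ≤ m ^ 2 - 4 := by linarith
    have h8 : 32 * m ^ 6 - (8 * m ^ 2 - 4) * (m ^ 2 + 1) ^ 2 =
      24 * (m ^ 2 - 4) ^ 3 + 276 * (m ^ 2 - 4) ^ 2 + 1056 * (m ^ 2 - 4) + 1348 := by ring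
    rw [h8]
    positivity

theorem eC_sub {m H Z : ℝ} (hm : 2 ≤ m) (hH : 0 ≤ H) (l : ℕ) {x t : ℝ} (hx : |x| ≤ Z)
    (ht : |t| ≤ Z) : ‖eC m H l x t - ((2 * (m ^ 2 - 1) * H ^ 2 : ℝ) : ℂ)‖ ≤
      2 * (m ^ 2 - 1) * H * Z + m * Z := by
  have hc : 0 ≤ m ^ 2 - 1 := by nlinarith
  have h1 := Complex.norm_le_abs_re_add_abs_im (eC m H l x t - ((2 * (m ^ 2 - 1) * H ^ 2 : ℝ) : ℂ))
  refine h1.trans (add_le_add ?_ ?_)
  · simp only [eC, Complex.sub_re, Complex.ofReal_re, add_sub_cancel_left]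
    rw [abs_mul, abs_pow, abs_neg, abs_one, one_pow, one_mul, abs_mul,
      abs_of_nonneg (by positivity : 0 ≤ 2 * (m ^ 2 - 1) * H)]
    exact mul_le_mul_of_nonneg_left hx (by positivity)
  · simp only [eC, Complex.sub_im, Complex.ofReal_im, sub_zero]
    rw [abs_mul, abs_of_nonneg (by linarith : 0 ≤ m)]
    exact mul_le_mul_of_nonneg_left ht (by linarith)

/-- Distances of points of non-consecutive levels. -/
theorem far_est {m H Z : ℝ} (hm : 2 ≤ m) (hH : 0 ≤ H) {D d : ℕ} (hD : 8 * (D : ℝ) ≤ m)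
    (hd : d ≤ D) (hd1 : d ≠ 1) (l l' : ℕ) {x t y u : ℝ} (hx : |x| ≤ Z) (ht : |t| ≤ Z)
    (hy : |y| ≤ Z) (hu : |u| ≤ Z) :
    (m ^ 2 + 1) * ‖eC m H l x t - (- rho m) ^ d * eC m H l' y u‖ ≤
      4 * (m ^ 2 - 1) ^ 2 * H ^ 2 - 4 * (m ^ 2 - 1) ^ 2 * H ^ 2 / m ^ 2 +
        2 * (m ^ 2 + 1) * (2 * (m ^ 2 - 1) * H * Z + m * Z) := by
  have hc : 0 ≤ m ^ 2 - 1 := by nlinarith
  set Λ : ℝ := 2 * (m ^ 2 - 1) * H ^ 2 with hΛ
  have hΛ0 : 0 ≤ Λ := by positivity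
  have h1 : eC m H l x t - (- rho m) ^ d * eC m H l' y u =
      (eC m H l x t - (Λ : ℂ)) - (- rho m) ^ d * (eC m H l' y u - (Λ : ℂ)) +
        (Λ : ℂ) * (1 - (- rho m) ^ d) := by ring
  have h2 := eC_sub hm hH l hx ht
  have h3 := eC_sub hm hH l' hy hu
  have h4 : ‖(- rho m) ^ d‖ = 1 := by rw [norm_pow, norm_neg, norm_rho, one_pow]
  have h5 := far_factor hm hD hd hd1
  have h6 : ‖eC m H l x t - (- rho m) ^ d * eC m H l' y u‖ ≤
      2 * (2 * (m ^ 2 - 1) * H * Z + m * Z) + Λ * ‖1 - (- rho m) ^ d‖ := by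
    rw [h1]
    refine (norm_add_le _ _).trans (add_le_add ((norm_sub_le _ _).trans ?_) ?_)
    · rw [norm_mul, h4, one_mul]
      linarith
    · rw [norm_mul, Complex.norm_real, Real.norm_of_nonneg hΛ0]
  have h7 : (0 : ℝ) ≤ m ^ 2 + 1 := by positivity
  calc (m ^ 2 + 1) * ‖eC m H l x t - (- rho m) ^ d * eC m H l' y u‖ ≤
        (m ^ 2 + 1) * (2 * (2 * (m ^ 2 - 1) * H * Z + m * Z) + Λ * ‖1 - (- rho m) ^ d‖) :=
        mul_le_mul_of_nonneg_left h6 h7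
    _ = 2 * (m ^ 2 + 1) * (2 * (m ^ 2 - 1) * H * Z + m * Z) +
        Λ * ((m ^ 2 + 1) * ‖1 - (- rho m) ^ d‖) := by ring
    _ ≤ 2 * (m ^ 2 + 1) * (2 * (m ^ 2 - 1) * H * Z + m * Z) +
        Λ * (2 * (m ^ 2 - 1) - 2 * (m ^ 2 - 1) / m ^ 2) := by
        have := mul_le_mul_of_nonneg_left h5 hΛ0
        linarith
    _ = _ := by rw [hΛ]; ring

/-- Points of different levels are different. -/
theorem ne_est {m H Z : ℝ} (hm : 2 ≤ m) (hZ : 1 ≤ Z) (hH : 8 * m ^ 2 * Z ≤ H) {D d : ℕ}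
    (hD : 8 * (D : ℝ) ≤ m) (hd : d ≤ D) (hd1 : 1 ≤ d) (l l' : ℕ) {x t y u : ℝ} (hx : |x| ≤ Z)
    (ht : |t| ≤ Z) (hy : |y| ≤ Z) (hu : |u| ≤ Z) :
    eC m H l x t ≠ (- rho m) ^ d * eC m H l' y u := by
  have hm0 : 0 < m := by linarith
  have hm4 : 4 ≤ m ^ 2 := by nlinarith
  have hc : 3 ≤ m ^ 2 - 1 := by linarith
  have h32 : 32 * Z ≤ H := by
    have : 4 * Z ≤ m ^ 2 * Z := mul_le_mul_of_nonneg_right hm4 (by linarith)
    linarith
  have hH0 : 0 < H := by linarith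
  have hre : ∀ l x t, |x| ≤ Z → (m ^ 2 - 1) * H ^ 2 ≤ (eC m H l x t).re := by
    intro l x t hx
    simp only [eC]
    have h1 : |(-1 : ℝ) ^ l * (2 * (m ^ 2 - 1) * H * x)| ≤ 2 * (m ^ 2 - 1) * H * Z := by
      rw [abs_mul, abs_pow, abs_neg, abs_one, one_pow, one_mul, abs_mul,
        abs_of_nonneg (by positivity : 0 ≤ 2 * (m ^ 2 - 1) * H)]
      exact mul_le_mul_of_nonneg_left hx (by positivity)
    have h2 := (abs_le.1 h1).1
    have h3 : 2 * (m ^ 2 - 1) * H * Z ≤ (m ^ 2 - 1) * H ^ 2 := by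
      have h4 : 0 ≤ (m ^ 2 - 1) * H := by positivity
      have h5 : 2 * Z ≤ H := by linarith
      calc 2 * (m ^ 2 - 1) * H * Z = ((m ^ 2 - 1) * H) * (2 * Z) := by ring
        _ ≤ ((m ^ 2 - 1) * H) * H := mul_le_mul_of_nonneg_left h5 h4
        _ = _ := by ring
    linarith
  have him : ∀ l x t, |t| ≤ Z → |(eC m H l x t).im| ≤ m * Z := by
    intro l x t ht
    simp only [eC]
    rw [abs_mul, abs_of_pos hm0]
    exact mul_le_mul_of_nonneg_left ht hm0.le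
  have a1 := hre l x t hx
  have a2 := hre l' y u hy
  have b1 := him l x t ht
  have b2 := him l' y u hu
  have hr := re_pow_ge (d := d) hm0 hD hd
  have hi := im_pow_ge (d := d) hm hD hd hd1
  have hip := rho_im_pos hm
  have hnr : ‖rho m ^ d‖ = 1 := by rw [norm_pow, norm_rho, one_pow]
  have hrle : |(rho m ^ d).re| ≤ 1 := by rw [← hnr]; exact Complex.abs_re_le_norm _
  have hile : |(rho m ^ d).im| ≤ 1 := by rw [← hnr]; exact Complex.abs_im_le_norm _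
  -- `m Z` is small
  have hmZ : m * Z ≤ H := by
    have : m * Z ≤ m ^ 2 * Z := by
      apply mul_le_mul_of_nonneg_right _ (by linarith)
      nlinarith
    have : 0 ≤ m ^ 2 * Z := by positivity
    linarith
  have hH1 : 1 ≤ H := by linarith
  have hHH : H ≤ H ^ 2 := by nlinarith
  intro he
  rcases Nat.even_or_odd d with hev | hod
  · rw [hev.neg_pow] at he
    have h1 := congrArg Complex.im he
    rw [Complex.mul_im] at h1
    -- the imaginary part of the right hand side is large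
    have h2 : (rho m ^ d).re * (eC m H l' y u).im ≥ - (m * Z) := by
      have : |(rho m ^ d).re * (eC m H l' y u).im| ≤ m * Z := by
        rw [abs_mul]
        calc |(rho m ^ d).re| * |(eC m H l' y u).im| ≤ 1 * (m * Z) :=
              mul_le_mul hrle b2 (abs_nonneg _) zero_le_one
          _ = _ := one_mul _
      exact (abs_le.1 this).1
    have h3 : (rho m).im / 2 * ((m ^ 2 - 1) * H ^ 2) ≤ (rho m ^ d).im * (eC m H l' y u).re :=
      mul_le_mul hi a2 (by positivity) (by linarith)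
    have h4 : (rho m).im / 2 * ((m ^ 2 - 1) * H ^ 2) > 2 * (m * Z) := by
      have e1 : (rho m).im / 2 * ((m ^ 2 - 1) * H ^ 2) =
          m * (2 * (m ^ 2 - 1) ^ 2 / (m ^ 2 + 1) ^ 2 * H ^ 2) := by
        simp only [rho]
        ring
      rw [e1]
      have e2 : 1 / 2 ≤ 2 * (m ^ 2 - 1) ^ 2 / (m ^ 2 + 1) ^ 2 := by
        rw [le_div_iff₀ (by positivity)]
        nlinarith
      have e3 : 2 * Z < H ^ 2 / 2 := by linarith
      have e4 : H ^ 2 / 2 ≤ 2 * (m ^ 2 - 1) ^ 2 / (m ^ 2 + 1) ^ 2 * H ^ 2 := by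
        have := mul_le_mul_of_nonneg_right e2 (sq_nonneg H)
        linarith
      have e5 : 2 * Z < 2 * (m ^ 2 - 1) ^ 2 / (m ^ 2 + 1) ^ 2 * H ^ 2 := by linarith
      have := mul_lt_mul_of_pos_left e5 hm0
      linarith
    have h5 := (abs_le.1 b1).2
    linarith
  · rw [hod.neg_pow, neg_mul] at he
    have h1 := congrArg Complex.re he
    rw [Complex.neg_re, Complex.mul_re] at h1
    have h2 : (rho m ^ d).im * (eC m H l' y u).im ≤ m * Z := by
      have : |(rho m ^ d).im * (eC m H l' y u).im| ≤ m * Z := by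
        rw [abs_mul]
        calc |(rho m ^ d).im| * |(eC m H l' y u).im| ≤ 1 * (m * Z) :=
              mul_le_mul hile b2 (abs_nonneg _) zero_le_one
          _ = _ := one_mul _
      exact (abs_le.1 this).2
    have h3 : 0 ≤ (rho m ^ d).re * (eC m H l' y u).re := by
      apply mul_nonneg (by linarith)
      have : 0 ≤ (m ^ 2 - 1) * H ^ 2 := by positivity
      linarith
    have h4 : m * Z < (m ^ 2 - 1) * H ^ 2 := by
      have : 3 * H ^ 2 ≤ (m ^ 2 - 1) * H ^ 2 := mul_le_mul_of_nonneg_right hc (sq_nonneg H)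
      have : 0 < H ^ 2 := by positivity
      linarith
    linarith

theorem norm_rot (m : ℝ) (l d : ℕ) (a b : ℂ) :
    ‖(- rho m) ^ l * a - (- rho m) ^ (l + d) * b‖ = ‖a - (- rho m) ^ d * b‖ := by
  have : (- rho m) ^ l * a - (- rho m) ^ (l + d) * b = (- rho m) ^ l * (a - (- rho m) ^ d * b) := by
    ring
  rw [this, norm_mul, norm_pow, norm_neg, norm_rho, one_pow, one_mul]

end Pool.Agent.R533.PSP
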