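import Pool.Agent.R533.PSP.Tours
import Pool.Agent.R533.PSP.Geom
import Pool.Agent.R533.PSP.Defs
import Pool.Agent.H820R2.MS.T1

/-!
# Euclidean Max-2-PSP: the embedding of the vertices
-/

namespace Pool.Agent.R533.PSP

open Complex

/-- Multiplication of Gaussian integers. -/
def gmul (a b : ℤ × ℤ) : ℤ × ℤ := (a.1 * b.1 - a.2 * b.2, a.1 * b.2 + a.2 * b.1)

/-- Powers of Gaussian integers. -/
def gpow (a : ℤ × ℤ) (n : ℕ) : ℤ × ℤ := (gmul a)^[n] (1, 0)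

noncomputable def toC (a : ℤ × ℤ) : ℂ := ⟨a.1, a.2⟩

theorem toC_mul (a b : ℤ × ℤ) : toC (gmul a b) = toC a * toC b := by
  apply Complex.ext <;> simp [toC, gmul]

theorem toC_pow (a : ℤ × ℤ) (n : ℕ) : toC (gpow a n) = toC a ^ n := by
  unfold gpow
  induction n with
  | zero => apply Complex.ext <;> simp [toC]
  | succ n ih => rw [Function.iterate_succ_apply', toC_mul, ih, pow_succ, mul_comm]

/-- The parameters of the embedding. -/
structure Em where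
  h : Sh
  m : ℕ
  H : ℕ
  W : ℕ
  K : ℕ

namespace Em

variable (E : Em)

/-- Scaled horizontal coordinates. -/
def x (v : V) : ℤ := 2 * E.W * E.h.X v

/-- The difference of the scaled potentials. -/
def t (v : V) : ℤ := 2 * E.W ^ 2 * (E.h.P v - E.h.Q v) + v.2.2.2

/-- The sum of the scaled potentials. -/
def p (v : V) : ℤ := 2 * E.W ^ 2 * (E.h.P v + E.h.Q v)

/-- Radial coordinate. -/
def re (v : V) : ℤ := 2 * (E.m ^ 2 - 1) * E.H ^ 2 + (-1) ^ lv v * (2 * (E.m ^ 2 - 1) * E.H * E.x v)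

/-- Tangential coordinate. -/
def im (v : V) : ℤ := E.m * E.t v

/-- The factor of a level. -/
def fac (l : ℕ) : ℤ := (-1) ^ l * (E.m ^ 2 + 1) ^ (2 * (E.K - l) + 1)

/-- The point of a vertex. -/
def pz (v : V) : ℤ × ℤ :=
  gmul (gpow (gmul (E.m ^ 2 - 1, 2 * E.m) (E.m ^ 2 - 1, 2 * E.m)) (lv v))
    (E.fac (lv v) * E.re v, E.fac (lv v) * E.im v)

/-- The potential of a vertex. -/
def ψ (v : V) : ℤ := (E.m ^ 2 - 1) * E.re v + 4 * E.m ^ 2 * E.x v ^ 2 - 2 * E.m ^ 2 * E.p v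

/-- Normalised distance. -/
noncomputable def dst (v w : V) : ℝ :=
  ((E.m : ℝ) ^ 2 + 1) * ‖(- rho E.m) ^ lv v * eC E.m E.H (lv v) (E.x v) (E.t v) -
    (- rho E.m) ^ lv w * eC E.m E.H (lv w) (E.x w) (E.t w)‖

theorem toC_pz {v : V} (hv : lv v ≤ E.K) : toC (E.pz v) =
    (((E.m : ℝ) ^ 2 + 1 : ℝ) : ℂ) ^ (2 * E.K + 1) *
      ((- rho E.m) ^ lv v * eC E.m E.H (lv v) (E.x v) (E.t v)) := by
  unfold pz
  rw [toC_mul, toC_pow, toC_mul]
  have h1 : toC (((E.m : ℤ) ^ 2 - 1, 2 * (E.m : ℤ)) : ℤ × ℤ) = gC E.m := by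
    apply Complex.ext <;> simp [toC, gC]
  have h2 : toC ((E.fac (lv v) * E.re v, E.fac (lv v) * E.im v) : ℤ × ℤ) =
      ((-1) ^ lv v * (((E.m : ℝ) ^ 2 + 1 : ℝ) : ℂ) ^ (2 * (E.K - lv v) + 1)) *
        eC E.m E.H (lv v) (E.x v) (E.t v) := by
    have h3 : ((-1 : ℂ) ^ lv v * (((E.m : ℝ) ^ 2 + 1 : ℝ) : ℂ) ^ (2 * (E.K - lv v) + 1)) =
        (((E.fac (lv v) : ℤ) : ℝ) : ℂ) := by
      unfold fac
      push_cast
      rfl
    rw [h3]
    apply Complex.ext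
    · rw [Complex.re_ofReal_mul]
      simp only [toC, eC, re]
      push_cast
      ring
    · rw [Complex.im_ofReal_mul]
      simp only [toC, eC, im]
      push_cast
      ring
  rw [h1, h2, ← pow_two, ← rho_mul]
  have h4 : 2 * E.K + 1 = 2 * lv v + (2 * (E.K - lv v) + 1) := by omega
  rw [h4, pow_add, pow_mul]
  rw [neg_pow (rho (E.m : ℝ)), mul_pow]
  ring

theorem norm_pz {v w : V} (hv : lv v ≤ E.K) (hw : lv w ≤ E.K) :
    ‖toC (E.pz v) - toC (E.pz w)‖ = ((E.m : ℝ) ^ 2 + 1) ^ (2 * E.K) * E.dst v w := by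
  rw [E.toC_pz hv, E.toC_pz hw, ← mul_sub, norm_mul, norm_pow, Complex.norm_real,
    Real.norm_of_nonneg (by positivity)]
  unfold dst
  ring

end Em

/-- The assumptions on the parameters. -/
structure Par (E : Em) (L : List V) (Z : ℕ) (bud : ℤ) : Prop where
  K1 : 1 ≤ E.K
  mK : 8 * E.K ≤ E.m
  lvK : ∀ v ∈ L, lv v ≤ E.K
  x : ∀ v ∈ L, |E.x v| ≤ Z
  t : ∀ v ∈ L, |E.t v| ≤ Z
  p : ∀ v ∈ L, |E.p v| ≤ Z
  c : ∀ v ∈ L, ∀ w ∈ L, - (Z : ℤ) ≤ E.h.cost v w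
  q : ∀ v ∈ L, v.2.2.2 ≤ 2
  nd : L.Nodup
  n3 : 3 ≤ L.length
  W : E.W = 2 * L.length
  WZ : E.W ^ 2 ≤ Z
  bZ : |bud| + 1 ≤ Z
  H : E.H = 82 * E.m ^ 2 * Z ^ 3
  inj : ∀ v ∈ L, ∀ w ∈ L, lv v = lv w → E.x v = E.x w → E.t v = E.t w → v = w

namespace Par

variable {E : Em} {L : List V} {Z : ℕ} {bud : ℤ}

theorem m2 (hp : Par E L Z bud) : (2 : ℝ) ≤ E.m := by
  have h1 := hp.mK
  have h2 := hp.K1
  have : 2 ≤ E.m := by omega
  exact_mod_cast this

theorem Z1 (hp : Par E L Z bud) : (1 : ℝ) ≤ Z := by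
  have h1 := hp.bZ
  have h2 : (0 : ℤ) ≤ |bud| := abs_nonneg _
  have : 1 ≤ Z := by omega
  exact_mod_cast this

theorem Hr (hp : Par E L Z bud) : (E.H : ℝ) = 82 * (E.m : ℝ) ^ 2 * (Z : ℝ) ^ 3 := by
  rw [hp.H]; push_cast; rfl

theorem bd {a : ℤ} (h : |a| ≤ (Z : ℤ)) : |(a : ℝ)| ≤ Z := by
  have : ((|a| : ℤ) : ℝ) ≤ ((Z : ℤ) : ℝ) := by exact_mod_cast h
  simpa using this

/-- The near estimate. -/
theorem near (hp : Par E L Z bud) {v w : V} (hv : v ∈ L) (hw : w ∈ L) (hl : lv w = lv v + 1) :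
    |E.dst v w - ((E.ψ v : ℝ) + (E.ψ w : ℝ) -
      8 * (E.m : ℝ) ^ 2 * (E.W : ℝ) ^ 2 * (E.h.cost v w : ℝ))| ≤ 1 + 4 * (E.m : ℝ) ^ 2 := by
  have h1 := near_est hp.m2 hp.Z1 (H := E.H) hp.Hr.ge (lv v) (bd (hp.x v hv)) (bd (hp.t v hv))
    (bd (hp.x w hw)) (bd (hp.t w hw))
  have h2 : E.dst v w = ((E.m : ℝ) ^ 2 + 1) * ‖eC E.m E.H (lv v) (E.x v) (E.t v) -
      (- rho E.m) ^ 1 * eC E.m E.H (lv v + 1) (E.x w) (E.t w)‖ := by
    unfold Em.dst
    rw [hl, norm_rot]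
  rw [h2]
  have e1 : (eC (E.m : ℝ) E.H (lv v) (E.x v) (E.t v)).re = (E.re v : ℝ) := by
    simp only [eC, Em.re]; push_cast; ring
  have e2 : (eC (E.m : ℝ) E.H (lv v + 1) (E.x w) (E.t w)).re = (E.re w : ℝ) := by
    simp only [eC, Em.re]; rw [hl]; push_cast; ring
  rw [e1, e2] at h1
  have e3 : ((E.m : ℝ) ^ 2 - 1) * ((E.re v : ℝ) + (E.re w : ℝ)) +
      2 * (E.m : ℝ) ^ 2 * ((E.t v : ℝ) - (E.t w : ℝ)) +
        2 * (E.m : ℝ) ^ 2 * ((E.x v : ℝ) + (E.x w : ℝ)) ^ 2 =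
      ((E.ψ v : ℝ) + (E.ψ w : ℝ) - 8 * (E.m : ℝ) ^ 2 * (E.W : ℝ) ^ 2 * (E.h.cost v w : ℝ)) +
        2 * (E.m : ℝ) ^ 2 * ((v.2.2.2 : ℝ) - (w.2.2.2 : ℝ)) := by
    simp only [Em.ψ, Em.x, Em.t, Em.p, Sh.cost]
    push_cast
    ring
  rw [e3] at h1
  have hq : |(v.2.2.2 : ℝ) - (w.2.2.2 : ℝ)| ≤ 2 := by
    have a1 : (v.2.2.2 : ℝ) ≤ 2 := by exact_mod_cast hp.q v hv
    have a2 : (w.2.2.2 : ℝ) ≤ 2 := by exact_mod_cast hp.q w hw
    have a3 : (0 : ℝ) ≤ (v.2.2.2 : ℝ) := Nat.cast_nonneg _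
    have a4 : (0 : ℝ) ≤ (w.2.2.2 : ℝ) := Nat.cast_nonneg _
    rw [abs_le]; constructor <;> linarith
  have hq2 : |2 * (E.m : ℝ) ^ 2 * ((v.2.2.2 : ℝ) - (w.2.2.2 : ℝ))| ≤ 4 * (E.m : ℝ) ^ 2 := by
    rw [abs_mul, abs_of_nonneg (by positivity : (0 : ℝ) ≤ 2 * (E.m : ℝ) ^ 2)]
    have : (0 : ℝ) ≤ 2 * (E.m : ℝ) ^ 2 := by positivity
    have := mul_le_mul_of_nonneg_left hq this
    linarith
  rw [abs_le] at h1 hq2 ⊢
  constructor <;> linarith [h1.1, h1.2, hq2.1, hq2.2]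

/-- The gap of the far estimate. -/
noncomputable def gap (E : Em) (n : ℕ) (Z : ℕ) : ℝ :=
  8 * (E.m : ℝ) ^ 2 * (E.W : ℝ) ^ 2 * (Z + 1) +
    2 * n * (8 * (E.m : ℝ) ^ 2 * (E.W : ℝ) ^ 2 * Z + (1 + 4 * (E.m : ℝ) ^ 2)) + 1

theorem gap_le (hp : Par E L Z bud) :
    gap E L.length Z + 2 * ((E.m : ℝ) ^ 2 + 1) * (2 * ((E.m : ℝ) ^ 2 - 1) * E.H * Z + E.m * Z) +
      4 * ((E.m : ℝ) ^ 2 - 1) ^ 2 * E.H * Z + 4 * (E.m : ℝ) ^ 2 * Z ≤
    4 * ((E.m : ℝ) ^ 2 - 1) ^ 2 * E.H ^ 2 / (E.m : ℝ) ^ 2 := by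
  have hm := hp.m2
  have hZ := hp.Z1
  have hH := hp.Hr
  have hW : (E.W : ℝ) ^ 2 ≤ (Z : ℝ) := by exact_mod_cast hp.WZ
  have hn : (L.length : ℝ) ≤ (Z : ℝ) := by
    have h1 : L.length ≤ Z := by
      have h2 := hp.WZ
      rw [hp.W] at h2
      nlinarith
    exact_mod_cast h1
  set m : ℝ := (E.m : ℝ) with hmd
  set H : ℝ := (E.H : ℝ) with hHd
  set z : ℝ := (Z : ℝ) with hzd
  have hW0 : (0 : ℝ) ≤ (E.W : ℝ) ^ 2 := by positivity
  have hn0 : (0 : ℝ) ≤ (L.length : ℝ) := by positivity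
  have hm0 : 0 < m := by linarith
  have hm4 : 4 ≤ m ^ 2 := by nlinarith
  have hz0 : 0 < z := by linarith
  set M : ℝ := m ^ 2 with hM
  have hz2 : z ≤ z ^ 3 := by
    calc z = z * 1 := by ring
      _ ≤ z * z ^ 2 := mul_le_mul_of_nonneg_left (one_le_pow₀ hZ) hz0.le
      _ = z ^ 3 := by ring
  have hz23 : z ^ 2 ≤ z ^ 3 := by
    calc z ^ 2 = z ^ 2 * 1 := by ring
      _ ≤ z ^ 2 * z := mul_le_mul_of_nonneg_left hZ (by positivity)
      _ = z ^ 3 := by ring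
  have hz31 : 1 ≤ z ^ 3 := one_le_pow₀ hZ
  have hmM : m ≤ M := by nlinarith
  have hH1 : 1 ≤ H := by rw [hH]; nlinarith [mul_pos (by linarith : (0 : ℝ) < M) (by positivity : 0 < z ^ 3)]
  have hH0 : 0 < H := by linarith
  -- the gap
  have g1 : gap E L.length Z ≤ 50 * M * z ^ 3 := by
    unfold gap
    have a1 : 8 * M * (E.W : ℝ) ^ 2 * (z + 1) ≤ 8 * M * z * (2 * z) := by
      apply mul_le_mul _ (by linarith) (by linarith) (by positivity)
      exact mul_le_mul_of_nonneg_left hW (by positivity)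
    have a2 : 8 * M * (E.W : ℝ) ^ 2 * z ≤ 8 * M * z * z := by
      apply mul_le_mul_of_nonneg_right _ hz0.le
      exact mul_le_mul_of_nonneg_left hW (by positivity)
    have a3 : (1 : ℝ) + 4 * M ≤ 5 * M := by linarith
    have a4 : 2 * (L.length : ℝ) * (8 * M * (E.W : ℝ) ^ 2 * z + (1 + 4 * M)) ≤
        2 * z * (8 * M * z * z + 5 * M) := by
      apply mul_le_mul (by linarith) (by linarith) (by positivity) (by positivity)
    have a5 : 8 * M * z * (2 * z) = 16 * (M * z ^ 2) := by ring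
    have a6 : 2 * z * (8 * M * z * z + 5 * M) = 16 * (M * z ^ 3) + 10 * (M * z) := by ring
    have a7 : M * z ^ 2 ≤ M * z ^ 3 := mul_le_mul_of_nonneg_left hz23 (by linarith)
    have a8 : M * z ≤ M * z ^ 3 := mul_le_mul_of_nonneg_left hz2 (by linarith)
    have a9 : 1 ≤ M * z ^ 3 := by
      calc (1 : ℝ) = 1 * 1 := by ring
        _ ≤ M * z ^ 3 := mul_le_mul (by linarith) hz31 zero_le_one (by linarith)
    linarith
  have g2 : 50 * M * z ^ 3 ≤ H := by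
    rw [hH]
    have : 0 ≤ M * z ^ 3 := by positivity
    linarith
  have b1 : 2 * (M + 1) * (2 * (M - 1) * H * z + m * z) ≤ 12 * (M ^ 2 * (H * z)) := by
    have c1 : 2 * (M + 1) ≤ 4 * M := by linarith
    have c2 : 2 * (M - 1) * H * z + m * z ≤ 3 * (M * (H * z)) := by
      have d1 : m * z ≤ M * (H * z) := by
        calc m * z ≤ M * z := mul_le_mul_of_nonneg_right hmM hz0.le
          _ = M * (1 * z) := by ring
          _ ≤ M * (H * z) := by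
            apply mul_le_mul_of_nonneg_left _ (by linarith)
            exact mul_le_mul_of_nonneg_right hH1 hz0.le
      have d2 : 2 * (M - 1) * H * z ≤ 2 * (M * (H * z)) := by
        have : 0 ≤ H * z := by positivity
        nlinarith
      linarith
    calc 2 * (M + 1) * (2 * (M - 1) * H * z + m * z) ≤ (4 * M) * (3 * (M * (H * z))) := by
          apply mul_le_mul c1 c2 _ (by linarith)
          have : 0 ≤ M - 1 := by linarith
          positivity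
      _ = _ := by ring
  have b2 : 4 * (M - 1) ^ 2 * H * z ≤ 4 * (M ^ 2 * (H * z)) := by
    have c1 : (M - 1) ^ 2 ≤ M ^ 2 := by nlinarith
    have c2 : 0 ≤ H * z := by positivity
    nlinarith
  have b3 : 4 * M * z ≤ 4 * (M ^ 2 * (H * z)) := by
    have c1 : M ≤ M ^ 2 := by nlinarith
    have c2 : z ≤ H * z := by nlinarith
    have : M * z ≤ M ^ 2 * (H * z) := mul_le_mul c1 c2 hz0.le (by positivity)
    linarith
  have b4 : H ≤ M ^ 2 * (H * z) := by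
    have c1 : 1 ≤ M ^ 2 := one_le_pow₀ (by linarith)
    have c2 : H ≤ H * z := by nlinarith
    calc H ≤ H * z := c2
      _ = 1 * (H * z) := by ring
      _ ≤ M ^ 2 * (H * z) := mul_le_mul_of_nonneg_right c1 (by positivity)
  have e1 : 21 * (M ^ 2 * (H * z)) ≤ 2 * M * H ^ 2 := by
    have c1 : 21 * M * z ≤ 2 * H := by
      rw [hH]
      have : M * z ≤ M * z ^ 3 := mul_le_mul_of_nonneg_left hz2 (by linarith)
      have : 0 ≤ M * z ^ 3 := by positivity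
      linarith
    calc 21 * (M ^ 2 * (H * z)) = (M * H) * (21 * M * z) := by ring
      _ ≤ (M * H) * (2 * H) := mul_le_mul_of_nonneg_left c1 (by positivity)
      _ = _ := by ring
  have e2 : 2 * M * H ^ 2 ≤ 4 * (M - 1) ^ 2 * H ^ 2 / M := by
    rw [le_div_iff₀ (by linarith)]
    have c1 : 2 * M * M ≤ 4 * (M - 1) ^ 2 := by nlinarith
    have := mul_le_mul_of_nonneg_right c1 (sq_nonneg H)
    linarith
  linarith

/-- The far estimate for one order of the levels. -/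
theorem far1 (hp : Par E L Z bud) {v w : V} (hv : v ∈ L) (hw : w ∈ L)
    (hle : lv v ≤ lv w) (hl : lv w ≠ lv v + 1) :
    E.dst v w ≤ (E.ψ v : ℝ) + (E.ψ w : ℝ) - gap E L.length Z := by
  have hm := hp.m2
  obtain ⟨d, hd⟩ : ∃ d, lv w = lv v + d := ⟨lv w - lv v, by omega⟩
  have hdK : d ≤ E.K := by
    have := hp.lvK w hw
    omega
  have hD : 8 * ((E.K : ℕ) : ℝ) ≤ (E.m : ℝ) := by exact_mod_cast hp.mK
  have h1 := far_est hm (Nat.cast_nonneg E.H) hD hdK (by rintro rfl; exact hl hd) (lv v) (lv w)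
    (bd (hp.x v hv)) (bd (hp.t v hv)) (bd (hp.x w hw)) (bd (hp.t w hw))
  have h2 : E.dst v w = ((E.m : ℝ) ^ 2 + 1) * ‖eC E.m E.H (lv v) (E.x v) (E.t v) -
      (- rho E.m) ^ d * eC E.m E.H (lv w) (E.x w) (E.t w)‖ := by
    unfold Em.dst
    conv_lhs => rw [hd]
    rw [norm_rot, ← hd]
  rw [h2]
  refine h1.trans ?_
  have h3 := hp.gap_le
  have hre : ∀ v ∈ L, 2 * ((E.m : ℝ) ^ 2 - 1) ^ 2 * (E.H : ℝ) ^ 2 -
      2 * ((E.m : ℝ) ^ 2 - 1) ^ 2 * E.H * Z - 2 * (E.m : ℝ) ^ 2 * Z ≤ (E.ψ v : ℝ) := by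
    intro v hv
    have a1 := bd (hp.x v hv)
    have a2 := bd (hp.p v hv)
    have hc : (0 : ℝ) ≤ (E.m : ℝ) ^ 2 - 1 := by nlinarith
    have hHn : (0 : ℝ) ≤ (E.H : ℝ) := Nat.cast_nonneg _
    simp only [Em.ψ, Em.re]
    push_cast
    have b1 : |(-1 : ℝ) ^ lv v * (2 * ((E.m : ℝ) ^ 2 - 1) * E.H * (E.x v : ℝ))| ≤
        2 * ((E.m : ℝ) ^ 2 - 1) * E.H * Z := by
      rw [abs_mul, abs_pow, abs_neg, abs_one, one_pow, one_mul, abs_mul,
        abs_of_nonneg (by positivity : (0 : ℝ) ≤ 2 * ((E.m : ℝ) ^ 2 - 1) * E.H)]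
      exact mul_le_mul_of_nonneg_left a1 (by positivity)
    have b2 := mul_le_mul_of_nonneg_left (abs_le.1 b1).1 hc
    have b3 : (0 : ℝ) ≤ 4 * (E.m : ℝ) ^ 2 * (E.x v : ℝ) ^ 2 := by positivity
    have b4 := mul_le_mul_of_nonneg_left (abs_le.1 a2).2
      (by positivity : (0 : ℝ) ≤ 2 * (E.m : ℝ) ^ 2)
    linarith
  have c1 := hre v hv
  have c2 := hre w hw
  linarith

theorem dst_symm (E : Em) (v w : V) : E.dst v w = E.dst w v := by
  unfold Em.dst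
  rw [norm_sub_rev]

/-- The estimates for the embedding. -/
theorem geo (hp : Par E L Z bud) : Geo E.h L E.dst (fun v => (E.ψ v : ℝ))
    (8 * (E.m : ℝ) ^ 2 * (E.W : ℝ) ^ 2) (1 + 4 * (E.m : ℝ) ^ 2) (gap E L.length Z) Z where
  symm := dst_symm E
  near := fun v hv w hw hl => hp.near hv hw hl
  far := by
    intro v hv w hw _ h1 h2
    rcases le_total (lv v) (lv w) with h3 | h3
    · exact hp.far1 hv hw h3 h1
    · rw [dst_symm, add_comm (E.ψ v : ℝ)]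
      exact hp.far1 hw hv h3 h2
  cm := by
    intro v hv w hw _
    have := hp.c v hv w hw
    have h2 : ((-(Z : ℤ) : ℤ) : ℝ) ≤ ((E.h.cost v w : ℤ) : ℝ) := by exact_mod_cast this
    simpa using h2
  κ0 := by positivity
  η0 := by positivity
  Cm0 := Nat.cast_nonneg _
  Gap0 := by unfold gap; positivity

theorem pz_inj (hp : Par E L Z bud) {v w : V} (hv : v ∈ L) (hw : w ∈ L)
    (h : E.pz v = E.pz w) : v = w := by
  wlog hle : lv v ≤ lv w generalizing v w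
  · exact (this hw hv h.symm (by omega)).symm
  have hm := hp.m2
  have hn := E.norm_pz (hp.lvK v hv) (hp.lvK w hw)
  rw [h, sub_self, norm_zero] at hn
  have hq : (0 : ℝ) < ((E.m : ℝ) ^ 2 + 1) ^ (2 * E.K) := by positivity
  have hd0 : E.dst v w = 0 := by
    rcases mul_eq_zero.1 hn.symm with h1 | h1
    · exact absurd h1 hq.ne'
    · exact h1
  obtain ⟨d, hd⟩ : ∃ d, lv w = lv v + d := ⟨lv w - lv v, by omega⟩
  have h2 : E.dst v w = ((E.m : ℝ) ^ 2 + 1) * ‖eC E.m E.H (lv v) (E.x v) (E.t v) -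
      (- rho E.m) ^ d * eC E.m E.H (lv w) (E.x w) (E.t w)‖ := by
    unfold Em.dst
    conv_lhs => rw [hd]
    rw [norm_rot, ← hd]
  rw [h2] at hd0
  have h3 : eC E.m E.H (lv v) (E.x v) (E.t v) =
      (- rho E.m) ^ d * eC E.m E.H (lv w) (E.x w) (E.t w) := by
    rcases mul_eq_zero.1 hd0 with h1 | h1
    · exfalso
      have : (0 : ℝ) < (E.m : ℝ) ^ 2 + 1 := by positivity
      exact this.ne' h1
    · exact sub_eq_zero.1 (norm_eq_zero.1 h1)
  have hdK : d ≤ E.K := by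
    have := hp.lvK w hw
    omega
  have hD : 8 * ((E.K : ℕ) : ℝ) ≤ (E.m : ℝ) := by exact_mod_cast hp.mK
  rcases Nat.eq_zero_or_pos d with rfl | hdp
  · rw [pow_zero, one_mul] at h3
    rw [add_zero] at hd
    rw [hd] at h3
    have him := congrArg Complex.im h3
    have hre := congrArg Complex.re h3
    simp only [eC] at him hre
    have hm0 : (E.m : ℝ) ≠ 0 := by linarith
    have ht : (E.t v : ℝ) = E.t w := mul_left_cancel₀ hm0 him
    have hx : (E.x v : ℝ) = E.x w := by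
      have h4 : (-1 : ℝ) ^ lv v * (2 * ((E.m : ℝ) ^ 2 - 1) * E.H * (E.x v : ℝ)) =
          (-1 : ℝ) ^ lv v * (2 * ((E.m : ℝ) ^ 2 - 1) * E.H * (E.x w : ℝ)) := by linarith
      have h5 : (-1 : ℝ) ^ lv v ≠ 0 := pow_ne_zero _ (by norm_num)
      have h6 := mul_left_cancel₀ h5 h4
      have hc : (0 : ℝ) < (E.m : ℝ) ^ 2 - 1 := by nlinarith
      have hH : (0 : ℝ) < E.H := by
        rw [hp.Hr]
        have := hp.Z1
        positivity
      have h7 : (2 * ((E.m : ℝ) ^ 2 - 1) * E.H) ≠ 0 := by positivity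
      exact mul_left_cancel₀ h7 h6
    exact hp.inj v hv w hw hd.symm (by exact_mod_cast hx) (by exact_mod_cast ht)
  · exfalso
    refine ne_est hm hp.Z1 ?_ hD hdK hdp (lv v) (lv w) (bd (hp.x v hv)) (bd (hp.t v hv))
      (bd (hp.x w hw)) (bd (hp.t w hw)) h3
    rw [hp.Hr]
    have h1 := hp.Z1
    have h4 : (Z : ℝ) ≤ (Z : ℝ) ^ 3 := by
      calc (Z : ℝ) = Z * 1 := by ring
        _ ≤ Z * (Z : ℝ) ^ 2 := mul_le_mul_of_nonneg_left (one_le_pow₀ h1) (by linarith)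
        _ = (Z : ℝ) ^ 3 := by ring
    have h5 : (0 : ℝ) ≤ (E.m : ℝ) ^ 2 := sq_nonneg _
    have h6 := mul_le_mul_of_nonneg_left h4 h5
    have h7 : 0 ≤ (E.m : ℝ) ^ 2 * (Z : ℝ) ^ 3 := by positivity
    linarith

end Par

/-- The coordinates of the point of a vertex. -/
def ptL (E : Em) (s : ℕ) (v : V) : List ℚ :=
  (((E.pz v).1 : ℤ) : ℚ) :: (((E.pz v).2 : ℤ) : ℚ) :: List.replicate (s - 2) 0

/-- The threshold. -/
def thr (E : Em) (L : List V) (bud : ℤ) : ℤ :=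
  (E.m ^ 2 + 1) ^ (2 * E.K) *
    (4 * (L.map E.ψ).sum - 8 * E.m ^ 2 * E.W ^ 2 * bud - 4 * E.m ^ 2 * E.W ^ 2)

theorem dist_ptL (E : Em) {s : ℕ} (hs : 2 ≤ s) (v w : V) :
    dist (pt s (ptL E s v)) (pt s (ptL E s w)) = ‖toC (E.pz v) - toC (E.pz w)‖ := by
  obtain ⟨s, rfl⟩ : ∃ s', s = s' + 2 := ⟨s - 2, by omega⟩
  rw [EuclideanSpace.dist_eq, Complex.norm_def]
  congr 1
  rw [Fin.sum_univ_succ, Fin.sum_univ_succ, Finset.sum_eq_zero]
  · simp only [pt, ptL, toC, Real.dist_eq, sq_abs, Complex.normSq_apply, Complex.sub_re,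
      Complex.sub_im, Fin.val_zero, List.getD_cons_zero, Fin.val_succ, List.getD_cons_succ]
    push_cast
    ring
  · intro i _
    have h1 : ∀ n : ℕ, (List.replicate n (0 : ℚ)).getD i 0 = 0 := by
      intro n
      rw [List.getD_eq_getElem?_getD, List.getElem?_replicate]
      split_ifs <;> rfl
    simp only [pt, ptL, Fin.val_succ, List.getD_cons_succ, h1]
    simp

theorem thr_cast {E : Em} {L : List V} {bud : ℤ} :
    (((thr E L bud : ℤ) : ℚ) : ℝ) = ((E.m : ℝ) ^ 2 + 1) ^ (2 * E.K) *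
      (4 * (L.map fun v => (E.ψ v : ℝ)).sum -
        8 * (E.m : ℝ) ^ 2 * (E.W : ℝ) ^ 2 * ((bud : ℝ) + 1 / 2)) := by
  have h1 : ((L.map E.ψ).sum : ℝ) = (L.map fun v => (E.ψ v : ℝ)).sum := by
    have h2 := map_list_sum (Int.castRingHom ℝ) (L.map E.ψ)
    rw [List.map_map] at h2
    exact h2
  rw [← h1]
  generalize hS : (L.map E.ψ).sum = S
  unfold thr
  rw [hS]
  push_cast
  ring

theorem inst_iff {E : Em} {L : List V} {Z : ℕ} {bud : ℤ} (hp : Par E L Z bud) {s : ℕ}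
    (hs : 2 ≤ s) {S : Finset V} (hS : ∀ v, v ∈ S ↔ v ∈ L) :
    MaxPSP2 s (L.map (ptL E s), ((thr E L bud : ℤ) : ℚ)) ↔
    ∃ A B, Two S A ∧ Two S B ∧ Disjoint A B ∧
      ∑ e ∈ A, E.h.cost e.1 e.2 + ∑ e ∈ B, E.h.cost e.1 e.2 ≤ bud := by
  have hinj : ∀ v ∈ L, ∀ w ∈ L, ptL E s v = ptL E s w → v = w := by
    intro v hv w hw h
    apply hp.pz_inj hv hw
    simp only [ptL, List.cons.injEq, Int.cast_inj, and_true] at h
    exact Prod.ext h.1 h.2
  have hW0 : (0 : ℝ) ≤ (L.length : ℝ) := Nat.cast_nonneg _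
  have hn1 : (3 : ℝ) ≤ (L.length : ℝ) := by exact_mod_cast hp.n3
  have hWr : (E.W : ℝ) = 2 * L.length := by rw [hp.W]; push_cast; rfl
  have hm := hp.m2
  have hm4 : (4 : ℝ) ≤ (E.m : ℝ) ^ 2 := by nlinarith
  rw [← cyc_iff hp.geo hp.nd hp.n3 hS bud]
  · have hq : (0 : ℝ) < ((E.m : ℝ) ^ 2 + 1) ^ (2 * E.K) := by positivity
    have hlen : ∀ σ : List V, σ.Perm L → tourLen s (σ.map (ptL E s)) =
        ((E.m : ℝ) ^ 2 + 1) ^ (2 * E.K) * ((cyc σ).map fun e => E.dst e.1 e.2).sum := by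
      intro σ hσ
      unfold tourLen
      rw [cyc_map, List.map_map, ← List.sum_map_mul_left]
      congr 1
      apply List.map_congr_left
      intro e he
      obtain ⟨m1, m2⟩ := mem_of_cyc he
      rw [hσ.mem_iff] at m1 m2
      simp only [Function.comp]
      rw [dist_ptL E hs, E.norm_pz (hp.lvK _ m1) (hp.lvK _ m2)]
    constructor
    · rintro ⟨-, -, -, σ', τ', hσ', hτ', hd, hL⟩
      obtain ⟨σ, hσ, rfl⟩ := Pool.Agent.H820R2.MS.T1.emb_perm _ hσ'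
      obtain ⟨τ, hτ, rfl⟩ := Pool.Agent.H820R2.MS.T1.emb_perm _ hτ'
      refine ⟨σ, τ, hσ, hτ, ?_, ?_⟩
      · intro e he f hf hef
        have he' : (ptL E s e.1, ptL E s e.2) ∈ cyc (σ.map (ptL E s)) := by
          rw [cyc_map]; exact List.mem_map.2 ⟨e, he, rfl⟩
        have hf' : (ptL E s f.1, ptL E s f.2) ∈ cyc (τ.map (ptL E s)) := by
          rw [cyc_map]; exact List.mem_map.2 ⟨f, hf, rfl⟩
        apply hd _ he' _ hf'
        exact congrArg (Sym2.map (ptL E s)) hef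
      · rw [hlen σ hσ, hlen τ hτ, thr_cast, ← mul_add] at hL
        exact le_of_mul_le_mul_left hL hq
    · rintro ⟨σ, τ, hσ, hτ, hd, hL⟩
      refine ⟨?_, ?_, ?_, σ.map (ptL E s), τ.map (ptL E s), hσ.map _, hτ.map _, ?_, ?_⟩
      · intro p hp
        simp only [List.mem_map] at hp
        obtain ⟨v, -, rfl⟩ := hp
        simp only [ptL, List.length_cons, List.length_replicate]
        omega
      · exact List.Nodup.map_on (fun v hv w hw h => hinj v hv w hw h) hp.nd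
      · simp only [List.length_map]; exact hp.n3
      · intro e he f hf hef
        rw [cyc_map, List.mem_map] at he hf
        obtain ⟨e, he, rfl⟩ := he
        obtain ⟨f, hf, rfl⟩ := hf
        obtain ⟨m1, m2⟩ := mem_of_cyc he
        obtain ⟨m3, m4⟩ := mem_of_cyc hf
        rw [hσ.mem_iff] at m1 m2
        rw [hτ.mem_iff] at m3 m4
        apply hd e he f hf
        simp only [Sym2.eq_iff] at hef ⊢
        rcases hef with ⟨a1, a2⟩ | ⟨a1, a2⟩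
        · exact Or.inl ⟨hinj _ m1 _ m3 a1, hinj _ m2 _ m4 a2⟩
        · exact Or.inr ⟨hinj _ m1 _ m4 a1, hinj _ m2 _ m3 a2⟩
      · rw [hlen σ hσ, hlen τ hτ, thr_cast, ← mul_add]
        exact mul_le_mul_of_nonneg_left hL hq.le
  · rw [hWr]
    have h1 : (0 : ℝ) ≤ (L.length : ℝ) * ((E.m : ℝ) ^ 2 - 4) := by
      apply mul_nonneg hW0; linarith
    have h2 : (L.length : ℝ) * 3 ≤ (L.length : ℝ) * (L.length : ℝ) :=
      mul_le_mul_of_nonneg_left hn1 hW0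
    have h3 := mul_le_mul_of_nonneg_left h2 (by positivity : (0 : ℝ) ≤ (E.m : ℝ) ^ 2)
    nlinarith
  · unfold Par.gap
    have hb : (bud : ℝ) ≤ (Z : ℝ) := by
      have h1 := hp.bZ
      have h2 := le_abs_self bud
      have h3 : bud ≤ (Z : ℤ) := by omega
      exact_mod_cast h3
    have h1 : 8 * (E.m : ℝ) ^ 2 * (E.W : ℝ) ^ 2 * ((bud : ℝ) + 1 / 2) ≤
        8 * (E.m : ℝ) ^ 2 * (E.W : ℝ) ^ 2 * ((Z : ℝ) + 1) :=
      mul_le_mul_of_nonneg_left (by linarith) (by positivity)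
    linarith

end Pool.Agent.R533.PSP
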