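import Pool.Agent.R533.PSP.PolyI2
import Pool.Agent.H820R2.MS.Final

/-!
# Euclidean Max-2-PSP: NP-hardness
-/

namespace Pool.Agent.R533.PSP

open Pool.Agent.H820R2.MS Pool.Agent.NPC

theorem satW_cons (n m : ℕ) (occ : ℕ → ℕ → Bool) : ∃ w, satW n m occ = ((0, 0, 0) : NOp) :: w := by
  refine ⟨(satW n m occ).tail, ?_⟩
  unfold satW
  rw [List.range_succ_eq_map]
  rfl

theorem cups_pos {w : List NOp} (hw : ∃ w', w = ((0, 0, 0) : NOp) :: w') : 1 ≤ cups w := by
  obtain ⟨w', rfl⟩ := hw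
  unfold cups
  rw [Nat.one_le_iff_ne_zero, Ne, List.length_eq_zero_iff]
  intro h
  have h1 : 0 ∈ (List.range (((0, 0, 0) : NOp) :: w').length).filter fun p =>
      decide (((((0, 0, 0) : NOp) :: w').getD p (0, 0, 0)).1 = 0) := by
    rw [List.mem_filter, List.mem_range]
    exact ⟨by simp, by simp⟩
  rw [h] at h1
  exact absurd h1 List.not_mem_nil

theorem len_four {w : List NOp} (hw : ∃ w', w = ((0, 0, 0) : NOp) :: w') :
    (shW w).len 4 = 2 := by
  obtain ⟨w', rfl⟩ := hw
  simp [shW, gw, cnt]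

theorem three_le_VL {w : List NOp} (hw : ∃ w', w = ((0, 0, 0) : NOp) :: w')
    (h0 : (shW w).len 0 = 0) : 3 ≤ (VL w).length := by
  have h4 := len_four hw
  have h1 : ((4, 1, 0, 0) : V) ∈ VL w := by
    rw [mem_VL h0]
    exact Or.inr ⟨by decide, by decide, by rw [h4]; decide, by decide⟩
  have h2 : ((4, 1, 0, 1) : V) ∈ VL w := by
    rw [mem_VL h0]
    exact Or.inr ⟨by decide, by decide, by rw [h4]; decide, by decide⟩
  have h3 : ((4, 2, 0, 0) : V) ∈ VL w := by
    rw [mem_VL h0]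
    exact Or.inr ⟨by decide, by decide, by rw [h4]; decide, by decide⟩
  have h5 : ({(4, 1, 0, 0), (4, 1, 0, 1), (4, 2, 0, 0)} : Finset V) ⊆ (VL w).toFinset := by
    intro x hx
    simp only [Finset.mem_insert, Finset.mem_singleton] at hx
    rw [List.mem_toFinset]
    rcases hx with rfl | rfl | rfl <;> assumption
  have h6 := Finset.card_le_card h5
  have h7 : ({(4, 1, 0, 0), (4, 1, 0, 1), (4, 2, 0, 0)} : Finset V).card = 3 := by decide
  have h8 := List.toFinset_card_le (VL w)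
  omega

/-- The instance of a formula. -/
theorem instP_iff {s : ℕ} (hs : 2 ≤ s) (n m : ℕ) (occ : ℕ → ℕ → Bool) :
    MaxPSP2 s (instP s (satW n m occ)) ↔ Sel n m occ := by
  classical
  have : Nonempty Lb := ⟨Lb.R 0⟩
  obtain ⟨hl, N, L, H⟩ := T4_H (gr n m occ) (sat_run n m occ)
  have hf := satE_fresh n m
  have hcons := satW_cons n m occ
  have h0 := len_zero' H
  rw [instP_eq h0, instW_iff H hl hf (three_le_VL hcons h0) (cups_pos hcons) hs, T4_span H hl hf]
  have e1 : (fun t => Evt.grp t ∈ satE n m) = okT n m := by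
    funext t; exact propext (mem_satE_grp n m t)
  have e2 : (fun c => Evt.cup c ∈ satE n m) = okL n m := by
    funext c; exact propext (mem_satE_cup n m c)
  rw [e1, e2]
  exact ⟨sel_of_gspan, gspan_of_sel⟩

/-- For every fixed dimension `s ≥ 2`, the Euclidean Max-2-PSP in `ℝˢ` is NP-hard. -/
theorem npHard_maxPSP2 (s : ℕ) (hs : 2 ≤ s) : NPHardP (MaxPSP2 s) := by
  refine (HardPr.trans (Pr' := fun _ => True) hardPr_SAT3b
    (f := fun φ => instP s (satW (3 * φ.length) φ.length (occF φ)))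
    ((poly_instP s).comp poly_satW) (fun _ _ => trivial) ?_).toHardI.toNPHardP
  intro φ hφ
  rw [instP_iff hs]
  exact sat_iff_sel φ hφ.2.1

end Pool.Agent.R533.PSP
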