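import Pool.Agent.R533.PSP.Sound

/-!
# Euclidean Max-2-PSP: soundness of the costs
-/

namespace Pool.Agent.R533.PSP

open Pool.Agent.H820R2.MS

variable {Γ : Type} {s : Sys Γ} {h : Sh} {K : ℕ} {S : Finset V} {A B : Finset (V × V)}

/-- The defining properties of the swaps of one colour. -/
def IsPerm (s : Sys Γ) (h : Sh) (A : Finset (V × V)) (E : ℕ → ℕ → V × V) : Prop :=
  ∀ k, h.og k = true →
    (∀ r < s.len k, E k r ∈ A ∧ (E k r).1 = (k, 0, s.o k r, 0) ∧ (E k r).2.1 = k ∧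
      (E k r).2.2.1 = 1 ∧ (∀ e ∈ A, e.1 = ((k, 0, s.o k r, 0) : V) → e = E k r) ∧
      (E k r).2.2.2.1 < s.len k) ∧
    (∀ r < s.len k, ∀ r' < s.len k, (E k r).2.2.2.1 = (E k r').2.2.2.1 → r = r')

/-- Gaps with swaps. -/
def Kog (h : Sh) (K : ℕ) : Finset ℕ := (Finset.range K).filter fun k => h.og k = true

open Classical in
theorem cost_ge (hf : Fit s h K) (hR : Rig h S A) {E : ℕ → ℕ → V × V} (hE : IsPerm s h A E) :
    ∑ k ∈ Kog h K, ∑ r ∈ Finset.range (s.len k),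
      ((s.o k r : ℤ) - s.o k (E k r).2.2.2.1) ^ 2 ≤
      ∑ e ∈ A.filter (fun e => ¬ h.NS e.1 e.2), h.cost e.1 e.2 := by
  have hh := hf.ok
  have hns : ∀ k r, h.og k = true → r < s.len k → ¬ h.NS (E k r).1 (E k r).2 := by
    intro k r hk hr h1
    obtain ⟨a1, a2, -⟩ := (hE k hk).1 r hr
    rw [a2] at h1
    rcases h1 with h1 | h1
    · have := h1.1; simp only at this; omega
    · have := h1.1; simp only at this; omega
  have hcost : ∀ k r, h.og k = true → r < s.len k → h.cost (E k r).1 (E k r).2 =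
      ((s.o k r : ℤ) - s.o k (E k r).2.2.2.1) ^ 2 := by
    intro k r hk hr
    obtain ⟨a1, a2, a3, -⟩ := (hE k hk).1 r hr
    have hst : h.ST (E k r).1 (E k r).2 := by
      rcases hR.ns _ a1 with h1 | h1
      · exact absurd h1 (hns k r hk hr)
      · exact h1
    obtain ⟨b1, b2, b3⟩ := hR.two.sub _ a1
    rcases hh.cost_cases ((hR.hS _).1 b1) ((hR.hS _).1 b2) b3 with h2 | h2 | h2
    · exact absurd h2.1 (hns k r hk hr)
    · have e1 : (E k r).1.1 = k := by rw [a2]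
      have e2 : (E k r).1.2.2.1 = s.o k r := by rw [a2]
      rw [h2.2.2, e1, e2, if_pos hk, hf.o]
    · exact absurd hst h2.2.1
  rw [Finset.sum_sigma']
  set T := (Kog h K).sigma fun k => Finset.range (s.len k) with hT
  have hTm : ∀ x ∈ T, h.og x.1 = true ∧ x.2 < s.len x.1 := by
    intro x hx
    rw [hT, Finset.mem_sigma] at hx
    exact ⟨(Finset.mem_filter.1 hx.1).2, Finset.mem_range.1 hx.2⟩
  have e1 : ∑ x ∈ T, ((s.o x.1 x.2 : ℤ) - s.o x.1 (E x.1 x.2).2.2.2.1) ^ 2 =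
      ∑ e ∈ T.image (fun x => E x.1 x.2), h.cost e.1 e.2 := by
    rw [Finset.sum_image]
    · refine Finset.sum_congr rfl fun x hx => ?_
      exact (hcost x.1 x.2 (hTm x hx).1 (hTm x hx).2).symm
    · intro x hx y hy hxy
      have hx := hTm x (Finset.mem_coe.1 hx)
      have hy := hTm y (Finset.mem_coe.1 hy)
      simp only at hxy
      obtain ⟨a1, a2, -⟩ := (hE x.1 hx.1).1 x.2 hx.2
      obtain ⟨b1, b2, -⟩ := (hE y.1 hy.1).1 y.2 hy.2
      rw [hxy, b2] at a2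
      obtain ⟨k, r⟩ := x
      obtain ⟨k', r'⟩ := y
      simp only [Prod.mk.injEq] at a2
      obtain ⟨rfl, -, a3, -⟩ := a2
      simp only at hx hy
      obtain ⟨r0, hop⟩ := (hf.og k').1 hx.1
      have := smono_inj (fun q hq => (hf.good.op_strict hop hq).1) hx.2 hy.2 a3.symm
      rw [this]
  rw [e1]
  refine Finset.sum_le_sum_of_subset_of_nonneg ?_ ?_
  · intro e he
    obtain ⟨x, hx, rfl⟩ := Finset.mem_image.1 he
    obtain ⟨c1, c2⟩ := hTm x hx
    exact Finset.mem_filter.2 ⟨((hE x.1 c1).1 x.2 c2).1, hns _ _ c1 c2⟩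
  · intro e he _
    rw [Finset.mem_filter] at he
    obtain ⟨b1, b2, b3⟩ := hR.two.sub _ he.1
    rcases hh.cost_cases ((hR.hS _).1 b1) ((hR.hS _).1 b2) b3 with h2 | h2 | h2
    · exact absurd h2.1 he.2
    · rw [h2.2.2]; split_ifs
      · positivity
      · exact le_rfl
    · linarith [h2.2.2, hh.M0]

/-- The number of crossed cuts. -/
noncomputable def crT (s : Sys Γ) (h : Sh) (K : ℕ) (E : ℕ → ℕ → V × V) : ℕ :=
  ∑ k ∈ Kog h K, (Perm.Cr (s.len k) (fun r => (E k r).2.2.2.1)).card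

theorem og_lt (hf : Fit s h K) {k : ℕ} (hk : h.og k = true) : k < K := by
  by_contra hc
  obtain ⟨r0, hop⟩ := (hf.og k).1 hk
  have := (hf.good.op_spec k r0 hop).1
  rw [hf.top k (by omega)] at this
  omega

theorem cr_ge (hf : Fit s h K) (hR : Rig h S A) {E : ℕ → ℕ → V × V} (hE : IsPerm s h A E)
    (Λ : Finset Γ) (hΛ : ∀ c, c ∈ Λ ↔ ∃ k r, r < s.len k ∧ s.lab k r = c) :
    Λ.card ≤ crT s h K E + 1 := by
  classical
  set T := (Kog h K).sigma fun k => Perm.Cr (s.len k) (fun r => (E k r).2.2.2.1) with hT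
  have hTc : T.card = crT s h K E := by rw [hT, Finset.card_sigma]; rfl
  have hlt : ∀ x ∈ T, h.og x.1 = true ∧ x.2 + 1 < s.len x.1 ∧
      x.2 ∈ Perm.Cr (s.len x.1) (fun r => (E x.1 r).2.2.2.1) := by
    intro x hx
    rw [hT, Finset.mem_sigma] at hx
    have hog := (Finset.mem_filter.1 hx.1).2
    refine ⟨hog, ?_, hx.2⟩
    obtain ⟨r, hr⟩ := (Finset.mem_filter.1 hx.2).2
    simp only [Perm.cu, Finset.mem_filter, Finset.mem_range] at hr
    have := ((hE x.1 hog).1 r hr.1).2.2.2.2.2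
    omega
  rw [← hTc]
  refine card_le_of_conn Λ T (fun x => s.lab x.1 x.2) (fun x => s.lab x.1 (x.2 + 1)) ?_ ?_ ?_
  · intro x hx
    exact (hΛ _).2 ⟨x.1, x.2, by have := (hlt x hx).2.1; omega, rfl⟩
  · intro x hx
    exact (hΛ _).2 ⟨x.1, x.2 + 1, (hlt x hx).2.1, rfl⟩
  · intro L hL c hc c' hc'
    obtain ⟨k, r, hr, rfl⟩ := (hΛ c).1 hc
    obtain ⟨k', r', hr', rfl⟩ := (hΛ c').1 hc'
    refine closed_labels hf hR hE L ?_ k r k' r' hr hr'
    intro k hk q hq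
    exact hL ⟨k, q⟩ (by
      rw [hT, Finset.mem_sigma]
      exact ⟨Finset.mem_filter.2 ⟨Finset.mem_range.2 (og_lt hf hk), hk⟩, hq⟩)

theorem perm_ge (hf : Fit s h K) {E : ℕ → ℕ → V × V} (hE : IsPerm s h A E) {k : ℕ}
    (hk : h.og k = true) :
    2 * ((Perm.Cr (s.len k) (fun r => (E k r).2.2.2.1)).card : ℤ) ≤
        ∑ r ∈ Finset.range (s.len k), ((s.o k r : ℤ) - s.o k (E k r).2.2.2.1) ^ 2 ∧
      (∑ r ∈ Finset.range (s.len k), ((s.o k r : ℤ) - s.o k (E k r).2.2.2.1) ^ 2 ≤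
          2 * ((Perm.Cr (s.len k) (fun r => (E k r).2.2.2.1)).card : ℤ) →
        (∀ q ∈ Perm.Cr (s.len k) (fun r => (E k r).2.2.2.1),
          q + 1 ∉ Perm.Cr (s.len k) (fun r => (E k r).2.2.2.1)) ∧
        ∀ q ∈ Perm.Cr (s.len k) (fun r => (E k r).2.2.2.1),
          (s.o k (q + 1) : ℤ) = s.o k q + 1) := by
  obtain ⟨hE1, hE2⟩ := hE k hk
  obtain ⟨r0, hop⟩ := (hf.og k).1 hk
  exact Perm.main (n := s.len k) (π := fun r => (E k r).2.2.2.1) (o := fun r => (s.o k r : ℤ))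
    (fun q hq => by exact_mod_cast (hf.good.op_strict hop hq).1)
    (fun r hr => (hE1 r hr).2.2.2.2.2) hE2

/-- Soundness. -/
theorem sound (hf : Fit s h K) (hS : ∀ v, v ∈ S ↔ h.IsV v) (hA : Two S A) (hB : Two S B)
    (hAB : Disjoint A B) (Λ : Finset Γ)
    (hΛ : ∀ c, c ∈ Λ ↔ ∃ k r, r < s.len k ∧ s.lab k r = c) (N : ℕ) (hN : N ≤ Λ.card)
    (hbud : 4 * ((N : ℤ) - 1) < h.M)
    (hc : ∑ e ∈ A, h.cost e.1 e.2 + ∑ e ∈ B, h.cost e.1 e.2 ≤
      - h.M * (NSet h S).card + 4 * ((N : ℤ) - 1)) : s.Span := by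
  classical
  have hs := hf.good
  obtain ⟨hF, hNA, hNB, hsum⟩ := split hf.ok hS hA hB hAB hbud hc
  have hRA : Rig h S A := ⟨hS, hA, hNA, fun k r hr => (rod_one hS hA hB hAB hF hNA hNB hr).1,
    fun k r hr => (rod_one hS hA hB hAB hF hNA hNB hr).2⟩
  have hRB : Rig h S B := ⟨hS, hB, hNB,
    fun k r hr => (rod_one hS hB hA hAB.symm (fun e he => (hF e he).symm) hNB hNA hr).1,
    fun k r hr => (rod_one hS hB hA hAB.symm (fun e he => (hF e he).symm) hNB hNA hr).2⟩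
  obtain ⟨E, hE⟩ := exists_perm hf hRA
  obtain ⟨E', hE'⟩ := exists_perm hf hRB
  have hEA : IsPerm s h A E := hE
  have hEB : IsPerm s h B E' := hE'
  have cA := cost_ge hf hRA hEA
  have cB := cost_ge hf hRB hEB
  have gA := cr_ge hf hRA hEA Λ hΛ
  have gB := cr_ge hf hRB hEB Λ hΛ
  have hog : ∀ k ∈ Kog h K, h.og k = true := fun k hk => (Finset.mem_filter.1 hk).2
  have pA : ∀ k ∈ Kog h K, 2 * ((Perm.Cr (s.len k) (fun r => (E k r).2.2.2.1)).card : ℤ) ≤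
        ∑ r ∈ Finset.range (s.len k), ((s.o k r : ℤ) - s.o k (E k r).2.2.2.1) ^ 2 :=
    fun k hk => (perm_ge hf hEA (hog k hk)).1
  have pB : ∀ k ∈ Kog h K, 2 * ((Perm.Cr (s.len k) (fun r => (E' k r).2.2.2.1)).card : ℤ) ≤
        ∑ r ∈ Finset.range (s.len k), ((s.o k r : ℤ) - s.o k (E' k r).2.2.2.1) ^ 2 :=
    fun k hk => (perm_ge hf hEB (hog k hk)).1
  have sA := Finset.sum_le_sum pA
  have sB := Finset.sum_le_sum pB
  have tA : ∑ k ∈ Kog h K, 2 * ((Perm.Cr (s.len k) (fun r => (E k r).2.2.2.1)).card : ℤ) =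
      2 * (crT s h K E : ℤ) := by
    rw [← Finset.mul_sum, crT]; push_cast; rfl
  have tB : ∑ k ∈ Kog h K, 2 * ((Perm.Cr (s.len k) (fun r => (E' k r).2.2.2.1)).card : ℤ) =
      2 * (crT s h K E' : ℤ) := by
    rw [← Finset.mul_sum, crT]; push_cast; rfl
  have hNz : (N : ℤ) ≤ (Λ.card : ℤ) := by exact_mod_cast hN
  have gA' : (Λ.card : ℤ) ≤ crT s h K E + 1 := by exact_mod_cast gA
  have gB' : (Λ.card : ℤ) ≤ crT s h K E' + 1 := by exact_mod_cast gB
  have heq : ∑ k ∈ Kog h K, 2 * ((Perm.Cr (s.len k) (fun r => (E k r).2.2.2.1)).card : ℤ) =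
      ∑ k ∈ Kog h K, ∑ r ∈ Finset.range (s.len k),
        ((s.o k r : ℤ) - s.o k (E k r).2.2.2.1) ^ 2 := by linarith
  have heq' := (Finset.sum_eq_sum_iff_of_le pA).1 heq
  have hfin : ∀ k, h.og k = true →
      (∀ q ∈ Perm.Cr (s.len k) (fun r => (E k r).2.2.2.1),
          q + 1 ∉ Perm.Cr (s.len k) (fun r => (E k r).2.2.2.1)) ∧
        ∀ q ∈ Perm.Cr (s.len k) (fun r => (E k r).2.2.2.1),
          (s.o k (q + 1) : ℤ) = s.o k q + 1 := fun k hk =>
    (perm_ge hf hEA hk).2 (heq' k (Finset.mem_filter.2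
      ⟨Finset.mem_range.2 (og_lt hf hk), hk⟩)).ge
  refine ⟨fun k r => s.op k r ∧ h.og k = true ∧
    r ∈ Perm.Cr (s.len k) (fun r => (E k r).2.2.2.1), fun k r h1 => h1.1, ?_, ?_⟩
  · rintro k r ⟨h1, h2⟩
    exact (hfin k h1.2.1).1 r h1.2.2 h2.2.2
  · intro L hL k r k' r' hr hr'
    refine closed_labels hf hRA hE (fun c => c ∈ L) ?_ k r k' r' hr hr'
    intro k hk q hq
    have hlt : q + 1 < s.len k := by
      obtain ⟨r, hr⟩ := (Finset.mem_filter.1 hq).2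
      simp only [Perm.cu, Finset.mem_filter, Finset.mem_range] at hr
      have := ((hE k hk).1 r hr.1).2.2.2.2.2
      omega
    have hsp := (hfin k hk).2 q hq
    have hsp' : s.o k (q + 1) = s.o k q + 1 := by exact_mod_cast hsp
    obtain ⟨r0, hop⟩ := (hf.og k).1 hk
    have hio := (hs.op_spec k r0 hop).2.2
    rcases hs.cut k q hlt with h1 | h1 | h1 | h1
    · rw [h1]
    · rw [hio (q + 1) hlt] at h1; omega
    · rw [hio q (by omega)] at h1; omega
    · exact hL k q ⟨h1, hk, hq⟩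

end Pool.Agent.R533.PSP
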