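import Pool.Agent.R533.PSP.Emb
import Pool.Agent.R533.PSP.Bounds
import Pool.Agent.R533.PSP.Sound2
import Pool.Agent.H820R2.MS.T4

/-!
# Euclidean Max-2-PSP: the instance of a word
-/

namespace Pool.Agent.R533.PSP

open Pool.Agent.H820R2.MS

/-- The operation of a gap. -/
def gw (w : List NOp) (k : ℕ) : NOp := w.getD (k / 5) (0, 0, 0)

/-- The number of cups. -/
def cups (w : List NOp) : ℕ :=
  ((List.range w.length).filter fun p => decide ((w.getD p (0, 0, 0)).1 = 0)).length

/-- The weight of the rods. -/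
def Mw (w : List NOp) : ℕ := 4 * cups w + 4

/-- A bound for the horizontal coordinates. -/
def xm (w : List NOp) : ℕ := 2 * Mw w * (8 * w.length + 20)

/-- The shape of a word. -/
def shW (w : List NOp) : Sh where
  len k := if k / 5 < w.length then min (cnt (gw w k) (k % 5)) (2 * w.length + 2) else 0
  o k r := oPos (gw w k) (k % 5) r
  i k r := iPos (gw w k) (k % 5) r
  og k := decide (k / 5 < w.length ∧ k % 5 = 2 ∧ 2 ≤ (gw w k).1)
  D := 2 * (Mw w : ℤ)
  M := (Mw w : ℤ)
  B := (xm w : ℤ) ^ 2 + 2 * (Mw w : ℤ)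

/-- The slots. -/
def slots (w : List NOp) : List (ℕ × ℕ) :=
  (List.range (5 * w.length)).flatMap fun k => (List.range ((shW w).len k)).map fun r => (k, r)

/-- Offsets and indices in a rod. -/
def rodJ : List (ℕ × ℕ) :=
  (List.range 8).flatMap fun j => if j = 0 then [] else (List.range (wd j)).map fun q => (j, q)

/-- The vertices. -/
def VL (w : List NOp) : List V :=
  ((slots w).map (fun p => ((p.1, 0, (shW w).o p.1 p.2, 0) : V)) ++
    ((slots w).map (fun p => ((p.1 + 1, 0, (shW w).i p.1 p.2, 0) : V)) ++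
      (slots w).flatMap fun p => rodJ.map fun a => ((p.1, a.1, p.2, a.2) : V))).dedup

instance (h : Sh) (v w : V) : Decidable (h.NS v w) := by
  unfold Sh.NS
  infer_instance

/-- The number of rigid edges. -/
def m0 (w : List NOp) : ℕ :=
  ((VL w).map fun v =>
    ((VL w).filter fun u => decide (lv u = lv v + 1 ∧ (shW w).NS v u)).length).sum

/-- The budget. -/
def budW (w : List NOp) : ℤ := - (Mw w : ℤ) * (m0 w : ℤ) + 4 * ((cups w : ℤ) - 1)

def KW (w : List NOp) : ℕ := 40 * w.length + 8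

/-- A bound for the potentials. -/
def Bw (w : List NOp) : ℕ := 4 * xm w ^ 2 + 2 * Mw w

/-- A bound for all quantities. -/
def ZW (w : List NOp) : ℕ :=
  2 * (2 * (VL w).length) * xm w + 4 * (2 * (VL w).length) ^ 2 * Bw w + 2 * Bw w +
    (2 * (VL w).length) ^ 2 + Mw w * m0 w + 4 * cups w + 7

/-- The parameters of the embedding. -/
def EW (w : List NOp) : Em where
  h := shW w
  m := 8 * KW w
  H := 82 * (8 * KW w) ^ 2 * ZW w ^ 3
  W := 2 * (VL w).length
  K := KW w

/-- The instance of a word. -/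
def instW (s : ℕ) (w : List NOp) : List (List ℚ) × ℚ :=
  ((VL w).map (ptL (EW w) s), ((thr (EW w) (VL w) (budW w) : ℤ) : ℚ))

theorem mem_slots {w : List NOp} {p : ℕ × ℕ} : p ∈ slots w ↔ p.2 < (shW w).len p.1 := by
  obtain ⟨k, r⟩ := p
  unfold slots
  rw [List.mem_flatMap]
  constructor
  · rintro ⟨k', hk', h⟩
    rw [List.mem_map] at h
    obtain ⟨r', hr', h⟩ := h
    rw [Prod.mk.injEq] at h
    obtain ⟨rfl, rfl⟩ := h
    exact List.mem_range.1 hr'
  · intro h
    simp only at h
    refine ⟨k, ?_, List.mem_map.2 ⟨r, List.mem_range.2 h, rfl⟩⟩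
    rw [List.mem_range]
    by_contra hk
    have : ¬ k / 5 < w.length := by omega
    simp only [shW, if_neg this] at h
    omega

theorem mem_rodJ {j q : ℕ} : (j, q) ∈ rodJ ↔ 1 ≤ j ∧ j < 8 ∧ q < wd j := by
  unfold rodJ
  rw [List.mem_flatMap]
  constructor
  · rintro ⟨j', hj', h⟩
    rw [List.mem_range] at hj'
    by_cases h0 : j' = 0
    · rw [if_pos h0] at h; exact absurd h List.not_mem_nil
    · rw [if_neg h0, List.mem_map] at h
      obtain ⟨q', hq', h⟩ := h
      rw [Prod.mk.injEq] at h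
      obtain ⟨rfl, rfl⟩ := h
      exact ⟨by omega, hj', List.mem_range.1 hq'⟩
  · rintro ⟨h1, h2, h3⟩
    refine ⟨j, List.mem_range.2 h2, ?_⟩
    rw [if_neg (by omega), List.mem_map]
    exact ⟨q, List.mem_range.2 h3, rfl⟩

theorem mem_VL {w : List NOp} (h0 : (shW w).len 0 = 0) {v : V} :
    v ∈ VL w ↔ (shW w).IsV v := by
  unfold VL
  rw [List.mem_dedup, List.mem_append, List.mem_append, List.mem_map, List.mem_map,
    List.mem_flatMap]
  obtain ⟨k, j, x, q⟩ := v
  constructor
  · rintro (⟨p, hp, h⟩ | ⟨p, hp, h⟩ | ⟨p, hp, h⟩)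
    · rw [mem_slots] at hp
      simp only [Prod.mk.injEq] at h
      obtain ⟨rfl, rfl, rfl, rfl⟩ := h
      exact Or.inl ⟨rfl, rfl, Or.inl (Sh.isLo_iff.2 ⟨p.2, hp, rfl⟩)⟩
    · rw [mem_slots] at hp
      simp only [Prod.mk.injEq] at h
      obtain ⟨rfl, rfl, rfl, rfl⟩ := h
      refine Or.inl ⟨rfl, rfl, Or.inr (Sh.isUp_iff.2 ⟨p.2, ?_, ?_⟩)⟩
      · rw [Nat.add_sub_cancel]; exact hp
      · rw [Nat.add_sub_cancel]
    · rw [mem_slots] at hp
      rw [List.mem_map] at h
      obtain ⟨⟨j', q'⟩, ha, h⟩ := h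
      simp only [Prod.mk.injEq] at h
      obtain ⟨rfl, rfl, rfl, rfl⟩ := h
      rw [mem_rodJ] at ha
      exact Or.inr ⟨ha.1, ha.2.1, hp, ha.2.2⟩
  · rintro (h | h)
    · obtain ⟨h1, h2, h3⟩ := h
      simp only at h1 h2 h3
      subst h1 h2
      rcases h3 with h3 | h3
      · obtain ⟨r, hr, rfl⟩ := Sh.isLo_iff.1 h3
        exact Or.inl ⟨(k, r), mem_slots.2 hr, rfl⟩
      · obtain ⟨r, hr, hrx⟩ := Sh.isUp_iff.1 h3
        cases k with
        | zero => rw [Nat.zero_sub, h0] at hr; omega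
        | succ k =>
          rw [Nat.add_sub_cancel] at hr hrx
          subst hrx
          exact Or.inr (Or.inl ⟨(k, r), mem_slots.2 hr, rfl⟩)
    · obtain ⟨h1, h2, h3, h4⟩ := h
      simp only at h1 h2 h3 h4
      refine Or.inr (Or.inr ⟨(k, x), mem_slots.2 h3, List.mem_map.2 ⟨(j, q), ?_, rfl⟩⟩)
      exact mem_rodJ.2 ⟨h1, h2, h4⟩

section
variable {Γ Λ : Type} {gr : Λ → List Γ} {w : List NOp} {e : List (Evt Γ Λ)} {N : ℕ → ℕ}
  {L : ℕ → ℕ → Γ}

theorem len_eq (H : T4H gr w e N L) (k : ℕ) : (shW w).len k = (T4sys w L).len k := by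
  simp only [shW, T4sys, gw]
  split_ifs with hk
  · obtain ⟨ev, _, hK⟩ := H.step (k / 5) hk
    have h1 := T4_cnt_le hK (k % 5)
    have h2 := T4_N_le H (k / 5)
    omega
  · rfl

theorem top_eq {k : ℕ} (hk : 5 * w.length ≤ k) : (T4sys w L).len k = 0 := by
  simp only [T4sys]
  rw [if_neg (by omega)]

theorem og_iff (k : ℕ) : (shW w).og k = true ↔ ∃ r, (T4sys w L).op k r := by
  have h0 : (shW w).og k = decide (k / 5 < w.length ∧ k % 5 = 2 ∧
    2 ≤ (w.getD (k / 5) (0, 0, 0)).1) := rfl
  rw [h0, decide_eq_true_iff]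
  simp only [T4sys]
  constructor
  · rintro ⟨h1, h2, h3⟩
    exact ⟨(w.getD (k / 5) (0, 0, 0)).2.1, h1, h2, h3, le_rfl, by omega⟩
  · rintro ⟨r, h1, h2, h3, -, -⟩
    exact ⟨h1, h2, h3⟩

theorem pos_le (H : T4H gr w e N L) {k r : ℕ} (hr : r < (T4sys w L).len k) :
    (T4sys w L).o k r ≤ 4 * w.length + 9 ∧ (T4sys w L).i k r ≤ 4 * w.length + 9 := by
  obtain ⟨p, t, ht, rfl⟩ := T4_dec k
  by_cases hp : p < w.length
  · obtain ⟨ev, _, hK⟩ := H.step p hp
    obtain ⟨h1, h2⟩ := T4_pos_le hK t ht r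
    have h3 := T4_cnt_le hK t
    have h4 := T4_N_le H p
    rw [T4_len p t ht hp] at hr
    rw [T4_o p t ht, T4_i p t ht]
    constructor <;> omega
  · rw [T4_len_top p t ht (by omega)] at hr
    exact absurd hr (Nat.not_lt_zero _)

theorem bdW (H : T4H gr w e N L) (hf : Fresh e) : Bd (shW w) (xm w) := by
  have hs := T4_good H hf
  have hM : 4 ≤ Mw w := by unfold Mw; omega
  have ho : ∀ k r, (shW w).o k r = (T4sys w L).o k r := fun k r => rfl
  have hi : ∀ k r, (shW w).i k r = (T4sys w L).i k r := fun k r => rfl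
  have key : ∀ p : ℕ, p ≤ 4 * w.length + 9 → (shW w).D * (2 * (p : ℤ)) ≤ (xm w : ℤ) := by
    intro p hp
    have h1 : 2 * Mw w * (2 * p) ≤ xm w := by
      unfold xm
      apply Nat.mul_le_mul_left
      omega
    have h2 : ((2 * Mw w * (2 * p) : ℕ) : ℤ) ≤ ((xm w : ℕ) : ℤ) := by exact_mod_cast h1
    push_cast at h2
    simpa [shW] using h2
  refine ⟨?_, ?_, ?_, ?_, ?_, ?_, ?_, ?_⟩
  · simp only [shW]; omega
  · simp only [shW]; omega
  · exact Int.natCast_nonneg _
  · intro k r hr
    rw [len_eq H] at hr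
    exact hs.omono (by omega) hr
  · intro k r hr
    rw [len_eq H] at hr
    exact hs.imono (by omega) hr
  · intro k r hr
    rw [len_eq H] at hr
    exact key _ (pos_le H hr).1
  · intro k r hr
    rw [len_eq H] at hr
    exact key _ (pos_le H hr).2
  · rfl

theorem fitW (H : T4H gr w e N L) (hf : Fresh e) :
    Fit (T4sys w L) (shW w) (5 * w.length) where
  ok := by
    have hs := T4_good H hf
    have hb := bdW H hf
    refine ⟨?_, hb.omono, hb.imono, ?_, ?_, ?_, ?_, ?_⟩
    · rw [len_eq H]; exact hs.len_zero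
    · intro k r hr
      rw [len_eq H] at hr
      rcases hs.mono k r hr with h1 | h1 | h1
      · exact Or.inl h1.1
      · exact Or.inr h1.2.2
      · exact Or.inl h1.2.1
    · intro k hk r hr
      obtain ⟨r0, hop⟩ := (og_iff (L := L) k).1 hk
      rw [len_eq H] at hr
      exact (hs.op_spec k r0 hop).2.2 r hr
    · simp only [shW, Mw]; omega
    · simp only [shW]; exact le_rfl
    · intro k j r _ hr
      exact hb.hB hr
  good := T4_good H hf
  len := len_eq H
  o := fun k r => rfl
  i := fun k r => rfl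
  og := og_iff
  top := fun k hk => top_eq hk

/-- The labels are counted by the cups. -/
theorem labels (H : T4H gr w e N L) (hl : e.length = w.length) (hf : Fresh e) :
    ∃ Λ : Finset Γ, (∀ c, c ∈ Λ ↔ ∃ k r, r < (T4sys w L).len k ∧ (T4sys w L).lab k r = c) ∧
      Λ.card = cups w := by
  classical
  have hmem : ∀ c, (∃ k r, r < (T4sys w L).len k ∧ (T4sys w L).lab k r = c) ↔
      Evt.cup c ∈ e := by
    intro c
    constructor
    · rintro ⟨k, r, hr, rfl⟩
      exact T4_slot_cup H k r hr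
    · exact fun h => T4_cup_slot H hl h
  set I : Finset ℕ := (Finset.range w.length).filter fun p => (w.getD p (0, 0, 0)).1 = 0 with hI
  set f : ℕ → Γ := fun p => L (p + 1) (w.getD p (0, 0, 0)).2.1 with hf'
  have hcup : ∀ p ∈ I, e[p]? = some (Evt.cup (f p)) := by
    intro p hp
    rw [hI, Finset.mem_filter, Finset.mem_range] at hp
    obtain ⟨ev, hev, hK⟩ := H.step p hp.1
    rw [hev]
    simp only [hf']
    have h0 := hp.2
    generalize w.getD p (0, 0, 0) = A at hK h0
    cases hK with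
    | cup j c hj hN h1 h2 h3 h4 => rw [← h3]
    | cap j hj hN h1 h2 h3 => exact absurd h0 (by simp)
    | grp g j τ hg2 hg4 hj hN h1 h2 h3 =>
      simp only at h0
      omega
  refine ⟨I.image f, ?_, ?_⟩
  · intro c
    rw [hmem, Finset.mem_image]
    constructor
    · rintro ⟨p, hp, rfl⟩
      exact List.mem_of_getElem? (hcup p hp)
    · intro hc
      obtain ⟨p, hp⟩ := List.mem_iff_getElem?.1 hc
      have hp' : p < w.length := by
        rw [← hl]; exact (List.getElem?_eq_some_iff.1 hp).1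
      have hpI : p ∈ I := by
        rw [hI, Finset.mem_filter, Finset.mem_range]
        refine ⟨hp', ?_⟩
        obtain ⟨ev, hev, hK⟩ := H.step p hp'
        rw [hp] at hev
        obtain rfl : Evt.cup c = ev := Option.some.inj hev
        generalize w.getD p (0, 0, 0) = A at hK
        cases hK with
        | cup j c hj hN h1 h2 h3 h4 => rfl
      refine ⟨p, hpI, ?_⟩
      have h1 := hcup p hpI
      rw [hp] at h1
      have h2 := Option.some.inj h1
      injection h2 with h3
      exact h3.symm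
  · rw [Finset.card_image_of_injOn]
    · rw [hI, Finset.card_def]
      unfold cups
      rfl
    · intro p hp p' hp' h
      have h1 := hcup p hp
      have h2 := hcup p' hp'
      have h3 : f p = f p' := h
      rw [← h3] at h2
      exact T4_fresh_idx hf h1 h2 (by simp)

theorem len_zero' (H : T4H gr w e N L) : (shW w).len 0 = 0 := by
  rw [len_eq H]
  have := T4_len0 H 0
  rw [mul_zero] at this
  rw [this, H.zero]

/-- The rigid edges are counted. -/
theorem card_NSet (w : List NOp) : (NSet (shW w) (VL w).toFinset).card = m0 w := by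
  have hnd : (VL w).Nodup := List.nodup_dedup _
  have h2 : NSet (shW w) (VL w).toFinset = ((VL w).toFinset ×ˢ (VL w).toFinset).filter
      (fun e : V × V => lv e.2 = lv e.1 + 1 ∧ (shW w).NS e.1 e.2) := by
    ext e
    simp only [NSet, Finset.mem_filter]
  rw [h2, Finset.card_filter, Finset.sum_product]
  unfold m0
  rw [← List.sum_toFinset _ hnd]
  refine Finset.sum_congr rfl fun v _ => ?_
  rw [← List.toFinset_card_of_nodup (hnd.filter _), List.toFinset_filter, ← Finset.card_filter]
  congr 1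
  ext u
  simp only [Finset.mem_filter, decide_eq_true_eq]

end

end Pool.Agent.R533.PSP
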