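import Pool.Agent.R533.PSP.Inst
import Pool.Agent.R533.PSP.Compl2

/-!
# Euclidean Max-2-PSP: correctness of the instance of a word
-/

namespace Pool.Agent.R533.PSP

open Pool.Agent.H820R2.MS

section
variable {Γ Λ : Type} {gr : Λ → List Γ} {w : List NOp} {e : List (Evt Γ Λ)} {N : ℕ → ℕ}
  {L : ℕ → ℕ → Γ}

theorem lt_of_len {k r : ℕ} (hr : r < (shW w).len k) : k < 5 * w.length := by
  by_contra hk
  have : ¬ k / 5 < w.length := by omega
  simp only [shW, if_neg this] at hr
  omega

theorem isV_lv {v : V} (hv : (shW w).IsV v) : lv v ≤ 40 * w.length + 8 := by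
  unfold lv
  rcases hv with h1 | h1
  · obtain ⟨a1, -, a3⟩ := h1
    have : v.1 ≤ 5 * w.length := by
      rcases a3 with a3 | a3
      · obtain ⟨r, hr, -⟩ := Sh.isLo_iff.1 a3
        exact (lt_of_len hr).le
      · obtain ⟨r, hr, -⟩ := Sh.isUp_iff.1 a3
        have := lt_of_len hr
        omega
    omega
  · have := lt_of_len h1.2.2.1
    have := h1.2.1
    omega

theorem isV_q {h : Sh} {v : V} (hv : h.IsV v) : v.2.2.2 ≤ 2 := by
  rcases hv with h1 | h1
  · rw [h1.2.1]; omega
  · have := h1.2.2.2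
    have h3 : wd v.2.1 ≤ 3 := by unfold wd; split_ifs <;> omega
    omega

theorem isV_j {h : Sh} {v : V} (hv : h.IsV v) : v.2.1 < 8 := by
  rcases hv with h1 | h1
  · rw [h1.1]; omega
  · exact h1.2.1

theorem Bw_eq (w : List NOp) : (4 * (xm w : ℤ) ^ 2 + 2 * (shW w).M) = (Bw w : ℤ) := by
  unfold Bw
  simp only [shW]
  push_cast
  rfl

theorem ZW_eq (w : List NOp) : (ZW w : ℤ) = 2 * (2 * ((VL w).length : ℤ)) * xm w +
    4 * (2 * ((VL w).length : ℤ)) ^ 2 * Bw w + 2 * Bw w +
      (2 * ((VL w).length : ℤ)) ^ 2 + Mw w * m0 w + 4 * cups w + 7 := by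
  unfold ZW
  push_cast
  ring

theorem budW_eq (w : List NOp) :
    budW w = - (Mw w : ℤ) * (m0 w : ℤ) + 4 * ((cups w : ℤ) - 1) := rfl

seal VL m0 cups Mw xm Bw ZW budW

theorem parW (H : T4H gr w e N L) (hf : Fresh e) (h3 : 3 ≤ (VL w).length) :
    Par (EW w) (VL w) (ZW w) (budW w) := by
  have hb := bdW H hf
  have hfit := fitW H hf
  have hok := hfit.ok
  have h0 := len_zero' H
  have hV : ∀ v ∈ VL w, (shW w).IsV v := fun v hv => (mem_VL h0).1 hv
  obtain ⟨n, hn⟩ : ∃ n, n = (VL w).length := ⟨_, rfl⟩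
  have hBw := Bw_eq w
  have hZ := ZW_eq w
  rw [← hn] at hZ
  have hW : ((EW w).W : ℤ) = 2 * (n : ℤ) := by
    rw [hn]
    simp only [EW]; push_cast; rfl
  have p1 : 0 ≤ 2 * (2 * (n : ℤ)) * xm w := by positivity
  have p2 : 0 ≤ 4 * (2 * (n : ℤ)) ^ 2 * Bw w := by positivity
  have p3 : 0 ≤ (2 * (n : ℤ)) ^ 2 := by positivity
  have p4 : 0 ≤ (Mw w : ℤ) * m0 w := by positivity
  have p5 : 0 ≤ (cups w : ℤ) := by positivity
  have p6 : 0 ≤ (Bw w : ℤ) := by positivity
  have hnd : (VL w).Nodup := by unfold VL; exact List.nodup_dedup _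
  refine ⟨?_, le_rfl, ?_, ?_, ?_, ?_, ?_, ?_, hnd, h3, rfl, ?_, ?_, rfl, ?_⟩
  · simp only [EW, KW]; omega
  · intro v hv
    exact isV_lv (hV v hv)
  · intro v hv
    have h1 := hb.X_bd (hV v hv)
    have h2 : |(EW w).x v| = 2 * (2 * (n : ℤ)) * |(shW w).X v| := by
      simp only [Em.x]
      rw [hW, abs_mul, abs_of_nonneg (by positivity)]
      rfl
    rw [h2, hZ]
    have : 2 * (2 * (n : ℤ)) * |(shW w).X v| ≤ 2 * (2 * (n : ℤ)) * xm w :=
      mul_le_mul_of_nonneg_left h1 (by positivity)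
    linarith
  · intro v hv
    have h1 := hb.P_bd (hV v hv)
    have h2 := hb.Q_bd (hV v hv)
    have h4 := isV_q (hV v hv)
    rw [hBw] at h1 h2
    have h5 : |(shW w).P v - (shW w).Q v| ≤ 2 * Bw w := by
      rw [abs_le] at h1 h2 ⊢
      constructor <;> linarith [h1.1, h1.2, h2.1, h2.2]
    have h6 : |2 * (2 * (n : ℤ)) ^ 2 * ((shW w).P v - (shW w).Q v)| ≤
        4 * (2 * (n : ℤ)) ^ 2 * Bw w := by
      rw [abs_mul, abs_of_nonneg (by positivity : 0 ≤ 2 * (2 * (n : ℤ)) ^ 2)]
      have := mul_le_mul_of_nonneg_left h5 (by positivity : 0 ≤ 2 * (2 * (n : ℤ)) ^ 2)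
      linarith
    have h7 : (EW w).t v = 2 * (2 * (n : ℤ)) ^ 2 * ((shW w).P v - (shW w).Q v) + v.2.2.2 := by
      simp only [Em.t]
      rw [hW]
      rfl
    have h8 : ((v.2.2.2 : ℕ) : ℤ) ≤ 2 := by exact_mod_cast h4
    have h9 : (0 : ℤ) ≤ ((v.2.2.2 : ℕ) : ℤ) := Int.natCast_nonneg _
    rw [h7, hZ]
    rw [abs_le] at h6 ⊢
    constructor <;> linarith [h6.1, h6.2]
  · intro v hv
    have h1 := hb.P_bd (hV v hv)
    have h2 := hb.Q_bd (hV v hv)
    rw [hBw] at h1 h2
    have h5 : |(shW w).P v + (shW w).Q v| ≤ 2 * Bw w := by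
      rw [abs_le] at h1 h2 ⊢
      constructor <;> linarith [h1.1, h1.2, h2.1, h2.2]
    have h6 : |2 * (2 * (n : ℤ)) ^ 2 * ((shW w).P v + (shW w).Q v)| ≤
        4 * (2 * (n : ℤ)) ^ 2 * Bw w := by
      rw [abs_mul, abs_of_nonneg (by positivity : 0 ≤ 2 * (2 * (n : ℤ)) ^ 2)]
      have := mul_le_mul_of_nonneg_left h5 (by positivity : 0 ≤ 2 * (2 * (n : ℤ)) ^ 2)
      linarith
    have h7 : (EW w).p v = 2 * (2 * (n : ℤ)) ^ 2 * ((shW w).P v + (shW w).Q v) := by
      simp only [Em.p]
      rw [hW]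
      rfl
    rw [h7, hZ]
    linarith
  · intro v hv u hu
    have h1 := hb.P_bd (hV v hv)
    have h2 := hb.Q_bd (hV u hu)
    rw [hBw] at h1 h2
    rw [abs_le] at h1 h2
    have h3 : (EW w).h.cost v u = ((shW w).X v - (shW w).X u) ^ 2 - (shW w).P v - (shW w).Q u :=
      rfl
    rw [h3, hZ]
    have := sq_nonneg ((shW w).X v - (shW w).X u)
    linarith [h1.1, h1.2, h2.1, h2.2]
  · intro v hv
    exact isV_q (hV v hv)
  · have h1 : (((EW w).W ^ 2 : ℕ) : ℤ) ≤ ((ZW w : ℕ) : ℤ) := by
      push_cast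
      rw [hW, hZ]
      linarith
    exact_mod_cast h1
  · have h1 : |budW w| ≤ Mw w * m0 w + (4 * cups w + 4) := by
      rw [budW_eq, abs_le]
      constructor <;> linarith
    rw [hZ]
    linarith
  · intro v hv u hu hl hx ht
    have v1 := hV v hv
    have u1 := hV u hu
    have hn0 : (0 : ℤ) < n := by
      have : 0 < n := by omega
      exact_mod_cast this
    have hX : (shW w).X v = (shW w).X u := by
      have h1 : 2 * (2 * (n : ℤ)) * (shW w).X v = 2 * (2 * (n : ℤ)) * (shW w).X u := by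
        have : (EW w).x v = (EW w).x u := hx
        simp only [Em.x] at this
        rw [hW] at this
        exact this
      have h2 : 2 * (2 * (n : ℤ)) ≠ 0 := by positivity
      exact mul_left_cancel₀ h2 h1
    have jv := isV_j v1
    have ju := isV_j u1
    obtain ⟨k, j, x, q⟩ := v
    obtain ⟨k', j', x', q'⟩ := u
    simp only [lv] at hl jv ju
    obtain rfl : k = k' := by omega
    obtain rfl : j = j' := by omega
    by_cases j0 : j = 0
    · subst j0
      have q0 : q = 0 := by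
        rcases v1 with h1 | h1
        · exact h1.2.1
        · have := h1.1; simp only at this; omega
      have q0' : q' = 0 := by
        rcases u1 with h1 | h1
        · exact h1.2.1
        · have := h1.1; simp only at this; omega
      have hxx : x = x' := by
        by_contra hne
        exact hok.xl_ne (k := k) hne hX
      rw [q0, q0', hxx]
    · have hxl : x < (shW w).len k := by
        rcases v1 with h1 | h1
        · exact absurd h1.1 j0
        · exact h1.2.2.1
      have hxl' : x' < (shW w).len k := by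
        rcases u1 with h1 | h1
        · exact absurd h1.1 j0
        · exact h1.2.2.1
      have hxx : x = x' := by
        by_contra hne
        refine hok.xr_ne (k := k) (j := j) (by omega) hxl hxl' hne ?_
        simpa [Sh.X, j0] using hX
      subst hxx
      have hq : q = q' := by
        have h1 : (shW w).P (k, j, x, q) = (shW w).P (k, j, x, q') := rfl
        have h2 : (shW w).Q (k, j, x, q) = (shW w).Q (k, j, x, q') := rfl
        have h4 : (EW w).t (k, j, x, q) = (EW w).t (k, j, x, q') := ht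
        simp only [Em.t] at h4
        have h5 : (EW w).h = shW w := rfl
        rw [h5, h1, h2] at h4
        have h6 := add_left_cancel h4
        exact_mod_cast h6
      rw [hq]

/-- Correctness of the instance of a word. -/
theorem instW_iff (H : T4H gr w e N L) (hl : e.length = w.length) (hf : Fresh e)
    (h3 : 3 ≤ (VL w).length) (hc : 1 ≤ cups w) {s : ℕ} (hs : 2 ≤ s) :
    MaxPSP2 s (instW s w) ↔ (T4sys w L).Span := by
  have hfit := fitW H hf
  have h0 := len_zero' H
  have hp := parW H hf h3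
  have hS : ∀ v, v ∈ (VL w).toFinset ↔ v ∈ VL w := fun v => List.mem_toFinset
  have hSV : ∀ v, v ∈ (VL w).toFinset ↔ (shW w).IsV v := fun v => by rw [hS, mem_VL h0]
  obtain ⟨Λ, hΛ, hΛc⟩ := labels H hl hf
  unfold instW
  rw [inst_iff hp hs hS]
  have hbud : budW w = - (shW w).M * ((NSet (shW w) (VL w).toFinset).card : ℤ) +
      4 * ((cups w : ℤ) - 1) := by
    rw [card_NSet, budW_eq]
    rfl
  constructor
  · rintro ⟨A, B, hA, hB, hAB, hcost⟩
    rw [hbud] at hcost
    refine sound hfit hSV hA hB hAB Λ hΛ (cups w) hΛc.ge ?_ hcost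
    unfold Mw at *
    simp only [shW]
    unfold Mw
    push_cast
    linarith
  · intro hsp
    have hne : Λ.Nonempty := by
      rw [← Finset.card_pos, hΛc]; exact hc
    obtain ⟨A, B, hA, hB, hAB, hcost⟩ := complete hfit hSV Λ hΛ hne hsp
    rw [hΛc, ← hbud] at hcost
    exact ⟨A, B, hA, hB, hAB, hcost⟩

end

end Pool.Agent.R533.PSP
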