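import Mathlib

/-!
# Euclidean Max-2-PSP: potentials of two monotone sequences
-/

namespace Pool.Agent.R533.PSP

/-- The potential of the first of two sequences. -/
def al (a b : ℕ → ℤ) (r : ℕ) : ℤ :=
  ((List.range r).map fun s => (b s + b (s + 1)) * (a (s + 1) - a s)).sum

/-- The potential of the second of two sequences. -/
def be (a b : ℕ → ℤ) (r : ℕ) : ℤ :=
  2 * (a 0 * b 0) + ((List.range r).map fun s => (a s + a (s + 1)) * (b (s + 1) - b s)).sum

/-- Reduced cost of the pair `r`, `r'`. -/
def base (a b : ℕ → ℤ) (r r' : ℕ) : ℤ := al a b r + be a b r' - 2 * (a r * b r')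

theorem al_zero (a b : ℕ → ℤ) : al a b 0 = 0 := by simp [al]

theorem al_succ (a b : ℕ → ℤ) (r : ℕ) :
    al a b (r + 1) = al a b r + (b r + b (r + 1)) * (a (r + 1) - a r) := by
  simp [al, List.range_succ]

theorem be_zero (a b : ℕ → ℤ) : be a b 0 = 2 * (a 0 * b 0) := by simp [be]

theorem be_succ (a b : ℕ → ℤ) (r : ℕ) :
    be a b (r + 1) = be a b r + (a r + a (r + 1)) * (b (r + 1) - b r) := by
  simp [be, List.range_succ]; ring

theorem base_self (a b : ℕ → ℤ) (r : ℕ) : base a b r r = 0 := by
  induction r with
  | zero => simp [base, al_zero, be_zero]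
  | succ r ih =>
    unfold base at ih ⊢
    rw [al_succ, be_succ]
    linear_combination ih

theorem base_succ_right (a b : ℕ → ℤ) (r r' : ℕ) :
    base a b r (r' + 1) = base a b r r' + (a r' + a (r' + 1) - 2 * a r) * (b (r' + 1) - b r') := by
  unfold base
  rw [be_succ]
  ring

theorem base_succ_left (a b : ℕ → ℤ) (r r' : ℕ) :
    base a b (r + 1) r' = base a b r r' + (b r + b (r + 1) - 2 * b r') * (a (r + 1) - a r) := by
  unfold base
  rw [al_succ]
  ring

theorem wmonoZ {n : ℕ} {f : ℕ → ℤ} (hf : ∀ s, s + 1 < n → f s ≤ f (s + 1)) {r r' : ℕ}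
    (h : r ≤ r') (hr' : r' < n) : f r ≤ f r' := by
  induction r', h using Nat.le_induction with
  | base => exact le_rfl
  | succ m hm ih => exact (ih (by omega)).trans (hf m hr')

theorem smonoZ {n : ℕ} {f : ℕ → ℤ} (hf : ∀ s, s + 1 < n → f s < f (s + 1)) {r r' : ℕ}
    (h : r < r') (hr' : r' < n) : f r < f r' := by
  have h1 := hf r (by omega)
  have h2 := wmonoZ (fun s hs => (hf s hs).le) (show r + 1 ≤ r' from h) hr'
  omega

/-- The hypotheses on the sequences of one gap. -/
structure Seqs (n : ℕ) (a b : ℕ → ℤ) (D : ℤ) : Prop where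
  ma : ∀ s, s + 1 < n → a s ≤ a (s + 1)
  mb : ∀ s, s + 1 < n → b s ≤ b (s + 1)
  st : (∀ s, s + 1 < n → a s < a (s + 1)) ∨ ∀ s, s + 1 < n → b s < b (s + 1)
  pr : ∀ s, s + 1 < n → a s < a (s + 1) → b s < b (s + 1) →
    D ≤ (a (s + 1) - a s) * (b (s + 1) - b s)

variable {n : ℕ} {a b : ℕ → ℤ} {D : ℤ}

theorem Seqs.up (h : Seqs n a b D) (_hD : 0 ≤ D) {r : ℕ} :
    ∀ r', r ≤ r' → r' < n → 0 ≤ base a b r r' ∧ 0 ≤ base a b r' r ∧
      (a r = a r' ∨ b r = b r' → base a b r r' = 0 ∧ base a b r' r = 0) ∧
      (a r < a r' → b r < b r' → D ≤ base a b r r' ∧ D ≤ base a b r' r) := by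
  intro r' hr
  induction r', hr using Nat.le_induction with
  | base =>
    intro _
    rw [base_self]
    exact ⟨le_rfl, le_rfl, fun _ => ⟨rfl, rfl⟩, fun h => absurd h (lt_irrefl _)⟩
  | succ m hm ih =>
    intro hm1
    obtain ⟨i1, i2, i3, i4⟩ := ih (by omega)
    have a1 := wmonoZ h.ma hm (by omega : m < n)
    have b1 := wmonoZ h.mb hm (by omega : m < n)
    have a2 := h.ma m hm1
    have b2 := h.mb m hm1
    rw [base_succ_right, base_succ_left]
    have e1 : 0 ≤ (a m + a (m + 1) - 2 * a r) * (b (m + 1) - b m) :=
      mul_nonneg (by linarith) (by linarith)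
    have e2 : 0 ≤ (b m + b (m + 1) - 2 * b r) * (a (m + 1) - a m) :=
      mul_nonneg (by linarith) (by linarith)
    refine ⟨by linarith, by linarith, ?_, ?_⟩
    · rintro (h0 | h0)
      · have h1 : a r = a m := by linarith
        have h2 : a m = a (m + 1) := by linarith
        obtain ⟨j1, j2⟩ := i3 (Or.inl h1)
        rw [j1, j2, ← h2, h1]
        constructor <;> ring
      · have h1 : b r = b m := by linarith
        have h2 : b m = b (m + 1) := by linarith
        obtain ⟨j1, j2⟩ := i3 (Or.inr h1)
        rw [j1, j2, ← h2, h1]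
        constructor <;> ring
    · intro h1 h2
      by_cases c1 : a r < a m
      · by_cases c2 : b r < b m
        · obtain ⟨j1, j2⟩ := i4 c1 c2
          exact ⟨by linarith, by linarith⟩
        · -- `b r = b m < b (m + 1)`; since `a` or `b` is strict, `a m < a (m + 1)`
          have c3 : b r = b m := by linarith
          have c4 : b m < b (m + 1) := by linarith
          rcases Nat.eq_or_lt_of_le hm with c5 | c5
          · subst c5; exact absurd c1 (lt_irrefl _)
          · rcases h.st with hs | hs
            · have c6 := hs m hm1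
              have c7 := h.pr m hm1 c6 c4
              constructor
              · have : (a (m + 1) - a m) * (b (m + 1) - b m) ≤
                    (a m + a (m + 1) - 2 * a r) * (b (m + 1) - b m) :=
                  mul_le_mul_of_nonneg_right (by linarith) (by linarith)
                linarith
              · have : (a (m + 1) - a m) * (b (m + 1) - b m) ≤
                    (b m + b (m + 1) - 2 * b r) * (a (m + 1) - a m) := by
                  rw [c3]; nlinarith
                linarith
            · have := smonoZ hs c5 (by omega : m < n)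
              omega
      · have c3 : a r = a m := by linarith
        have c4 : a m < a (m + 1) := by linarith
        have key : b m < b (m + 1) → D ≤ (a (m + 1) - a m) * (b (m + 1) - b m) :=
          fun h' => h.pr m hm1 c4 h'
        rcases Nat.eq_or_lt_of_le hm with c5 | c5
        · subst c5
          have k1 := key h2
          constructor
          · have : (a r + a (r + 1) - 2 * a r) * (b (r + 1) - b r) =
                (a (r + 1) - a r) * (b (r + 1) - b r) := by ring
            linarith
          · have : (b r + b (r + 1) - 2 * b r) * (a (r + 1) - a r) =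
                (a (r + 1) - a r) * (b (r + 1) - b r) := by ring
            linarith
        · rcases h.st with hs | hs
          · have := smonoZ hs c5 (by omega : m < n)
            omega
          · have k1 := key (hs m hm1)
            constructor
            · have : (a (m + 1) - a m) * (b (m + 1) - b m) ≤
                  (a m + a (m + 1) - 2 * a r) * (b (m + 1) - b m) :=
                mul_le_mul_of_nonneg_right (by linarith) (by linarith)
              linarith
            · have : (b (m + 1) - b m) * (a (m + 1) - a m) ≤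
                  (b m + b (m + 1) - 2 * b r) * (a (m + 1) - a m) :=
                mul_le_mul_of_nonneg_right (by linarith) (by linarith)
              linarith

/-- Separation of different pairs. -/
theorem Seqs.sep (h : Seqs n a b D) (hD : 0 ≤ D) {r r' : ℕ} (hr : r < n) (hr' : r' < n) :
    (a r = a r' ∨ b r = b r' → base a b r r' = 0) ∧
      (a r ≠ a r' → b r ≠ b r' → D ≤ base a b r r') := by
  rcases le_total r r' with h1 | h1
  · obtain ⟨-, -, i3, i4⟩ := h.up hD r' h1 hr'
    refine ⟨fun h2 => (i3 h2).1, fun h2 h3 => (i4 ?_ ?_).1⟩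
    · exact lt_of_le_of_ne (wmonoZ h.ma h1 hr') h2
    · exact lt_of_le_of_ne (wmonoZ h.mb h1 hr') h3
  · obtain ⟨-, -, i3, i4⟩ := h.up hD r h1 hr
    refine ⟨fun h2 => (i3 (h2.imp Eq.symm Eq.symm)).2, fun h2 h3 => (i4 ?_ ?_).2⟩
    · exact lt_of_le_of_ne (wmonoZ h.ma h1 hr) (Ne.symm h2)
    · exact lt_of_le_of_ne (wmonoZ h.mb h1 hr) (Ne.symm h3)

/-- Potentials agree at slots with a common end. -/
theorem Seqs.al_eq (h : Seqs n a b D) {r r' : ℕ} (hr : r < n) (hr' : r' < n)
    (he : a r = a r') : al a b r = al a b r' := by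
  wlog hle : r ≤ r' generalizing r r'
  · exact (this hr' hr he.symm (by omega)).symm
  induction r', hle using Nat.le_induction with
  | base => rfl
  | succ m hm ih =>
    have a1 := wmonoZ h.ma hm (by omega : m < n)
    have a2 := h.ma m hr'
    have h1 : a r = a m := by linarith
    have h2 : a m = a (m + 1) := by linarith
    rw [ih (by omega) h1, al_succ, ← h2]
    ring

theorem Seqs.be_eq (h : Seqs n a b D) {r r' : ℕ} (hr : r < n) (hr' : r' < n)
    (he : b r = b r') : be a b r = be a b r' := by
  wlog hle : r ≤ r' generalizing r r'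
  · exact (this hr' hr he.symm (by omega)).symm
  induction r', hle using Nat.le_induction with
  | base => rfl
  | succ m hm ih =>
    have a1 := wmonoZ h.mb hm (by omega : m < n)
    have a2 := h.mb m hr'
    have h1 : b r = b m := by linarith
    have h2 : b m = b (m + 1) := by linarith
    rw [ih (by omega) h1, be_succ, ← h2]
    ring

theorem base_same (a : ℕ → ℤ) (r r' : ℕ) : base a a r r' = (a r - a r') ^ 2 := by
  have h1 : ∀ r, al a a r = a r ^ 2 - a 0 ^ 2 := by
    intro r
    induction r with
    | zero => simp [al_zero]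
    | succ r ih => rw [al_succ, ih]; ring
  have h2 : ∀ r, be a a r = a r ^ 2 + a 0 ^ 2 := by
    intro r
    induction r with
    | zero => rw [be_zero]; ring
    | succ r ih => rw [be_succ, ih]; ring
  unfold base
  rw [h1, h2]
  ring

theorem al_nonneg {n : ℕ} {a b : ℕ → ℤ} (ha : ∀ s, s + 1 < n → a s ≤ a (s + 1))
    (hb : ∀ s, s < n → 0 ≤ b s) {r : ℕ} (hr : r < n) : 0 ≤ al a b r := by
  induction r with
  | zero => simp [al_zero]
  | succ r ih =>
    rw [al_succ]
    have := ih (by omega)
    have h1 := ha r hr
    have h2 := hb r (by omega)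
    have h3 := hb (r + 1) hr
    have : 0 ≤ (b r + b (r + 1)) * (a (r + 1) - a r) := mul_nonneg (by linarith) (by linarith)
    linarith

theorem be_nonneg {n : ℕ} {a b : ℕ → ℤ} (hb : ∀ s, s + 1 < n → b s ≤ b (s + 1))
    (ha : ∀ s, s < n → 0 ≤ a s) (hb0 : ∀ s, s < n → 0 ≤ b s) {r : ℕ} (hr : r < n) :
    0 ≤ be a b r := by
  induction r with
  | zero =>
    rw [be_zero]
    have := mul_nonneg (ha 0 hr) (hb0 0 hr)
    linarith
  | succ r ih =>
    rw [be_succ]
    have := ih (by omega)
    have h1 := hb r hr
    have h2 := ha r (by omega)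
    have h3 := ha (r + 1) hr
    have : 0 ≤ (a r + a (r + 1)) * (b (r + 1) - b r) := mul_nonneg (by linarith) (by linarith)
    linarith

end Pool.Agent.R533.PSP
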