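import Mathlib

/-!
# Euclidean Max-2-PSP: squared displacement of permutations
-/

namespace Pool.Agent.R533.PSP

namespace Perm

variable (n : ℕ) (π : ℕ → ℕ)

/-- Slots moved upwards over the cut `s`. -/
def cu (s : ℕ) : Finset ℕ := (Finset.range n).filter fun r => r ≤ s ∧ s < π r

/-- Slots moved downwards over the cut `s`. -/
def cd (s : ℕ) : Finset ℕ := (Finset.range n).filter fun r => s < r ∧ π r ≤ s

open Classical in
/-- The crossed cuts. -/
noncomputable def Cr : Finset ℕ := (Finset.range n).filter fun s => (cu n π s).Nonempty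

variable {n π}

theorem card_cu_cd (h1 : ∀ r < n, π r < n) (h2 : ∀ r < n, ∀ r' < n, π r = π r' → r = r')
    {s : ℕ} (hs : s < n) : (cu n π s).card = (cd n π s).card := by
  classical
  have himg : (Finset.range n).image π = Finset.range n := by
    apply Finset.eq_of_subset_of_card_le
    · intro x hx
      obtain ⟨r, hr, rfl⟩ := Finset.mem_image.1 hx
      exact Finset.mem_range.2 (h1 r (Finset.mem_range.1 hr))
    · rw [Finset.card_image_of_injOn]
      intro r hr r' hr' h
      exact h2 r (Finset.mem_range.1 hr) r' (Finset.mem_range.1 hr') h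
  have e1 : ((Finset.range n).filter fun r => r ≤ s).card = s + 1 := by
    have : ((Finset.range n).filter fun r => r ≤ s) = Finset.range (s + 1) := by
      ext x; simp only [Finset.mem_filter, Finset.mem_range]; omega
    rw [this, Finset.card_range]
  have e2 : ((Finset.range n).filter fun r => π r ≤ s).card = s + 1 := by
    have h3 : (((Finset.range n).filter fun r => π r ≤ s).image π) =
        (Finset.range n).filter fun t => t ≤ s := by
      ext t
      simp only [Finset.mem_image, Finset.mem_filter, Finset.mem_range]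
      constructor
      · rintro ⟨r, ⟨hr, hrs⟩, rfl⟩
        exact ⟨h1 r hr, hrs⟩
      · rintro ⟨ht, hts⟩
        have : t ∈ (Finset.range n).image π := by rw [himg]; exact Finset.mem_range.2 ht
        obtain ⟨r, hr, rfl⟩ := Finset.mem_image.1 this
        exact ⟨r, ⟨Finset.mem_range.1 hr, hts⟩, rfl⟩
    rw [← e1, ← h3, Finset.card_image_of_injOn]
    intro r hr r' hr' h
    simp only [Finset.coe_filter, Finset.mem_range, Set.mem_ofPred_eq] at hr hr'
    exact h2 r hr.1 r' hr'.1 h
  have e3 : ((Finset.range n).filter fun r => r ≤ s) =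
      ((Finset.range n).filter fun r => r ≤ s ∧ π r ≤ s) ∪ cu n π s := by
    ext x; simp only [cu, Finset.mem_filter, Finset.mem_range, Finset.mem_union]; omega
  have e4 : ((Finset.range n).filter fun r => π r ≤ s) =
      ((Finset.range n).filter fun r => r ≤ s ∧ π r ≤ s) ∪ cd n π s := by
    ext x; simp only [cd, Finset.mem_filter, Finset.mem_range, Finset.mem_union]; omega
  rw [e3, Finset.card_union_of_disjoint] at e1
  · rw [e4, Finset.card_union_of_disjoint] at e2
    · omega
    · rw [Finset.disjoint_left]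
      intro x hx hx'
      simp only [cd, Finset.mem_filter] at hx hx'
      omega
  · rw [Finset.disjoint_left]
    intro x hx hx'
    simp only [cu, Finset.mem_filter] at hx hx'
    omega

/-- Squares of sums of positive integers. -/
theorem sq_le {o : ℕ → ℤ} (ho : ∀ s, s + 1 < n → o s < o (s + 1)) {x : ℕ} :
    ∀ y, x ≤ y → y < n → 0 ≤ o y - o x ∧
      ∑ s ∈ Finset.Ico x y, (o (s + 1) - o s) ^ 2 ≤ (o y - o x) ^ 2 ∧
      (x + 1 < y → ∑ s ∈ Finset.Ico x y, (o (s + 1) - o s) ^ 2 < (o y - o x) ^ 2) ∧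
      (x < y → 0 < o y - o x) := by
  intro y hy
  induction y, hy using Nat.le_induction with
  | base =>
    intro _
    simp
  | succ m hm ih =>
    intro hm1
    obtain ⟨i1, i2, i3, i4⟩ := ih (by omega)
    have h1 := ho m hm1
    rw [Finset.sum_Ico_succ_top hm]
    have e : (o (m + 1) - o x) ^ 2 = (o m - o x) ^ 2 + (o (m + 1) - o m) ^ 2 +
        2 * ((o m - o x) * (o (m + 1) - o m)) := by ring
    have h2 : 0 ≤ (o m - o x) * (o (m + 1) - o m) := mul_nonneg i1 (by linarith)
    refine ⟨by linarith, by rw [e]; linarith, fun hlt => ?_, fun _ => by linarith⟩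
    have h3 := i4 (by omega)
    have h4 : 0 < (o m - o x) * (o (m + 1) - o m) := mul_pos h3 (by linarith)
    rw [e]
    linarith

/-- Cuts between `r` and `t`. -/
def btw (r t : ℕ) : Finset ℕ := Finset.Ico (min r t) (max r t)

theorem mem_btw {r t s : ℕ} : s ∈ btw r t ↔ (r ≤ s ∧ s < t) ∨ (t ≤ s ∧ s < r) := by
  unfold btw
  rw [Finset.mem_Ico]
  omega

theorem sq_btw {o : ℕ → ℤ} (ho : ∀ s, s + 1 < n → o s < o (s + 1)) {r t : ℕ} (hr : r < n)
    (ht : t < n) : ∑ s ∈ btw r t, (o (s + 1) - o s) ^ 2 ≤ (o r - o t) ^ 2 ∧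
      ((r + 1 < t ∨ t + 1 < r) →
        ∑ s ∈ btw r t, (o (s + 1) - o s) ^ 2 < (o r - o t) ^ 2) := by
  rcases le_total r t with h | h
  · obtain ⟨-, h1, h2, -⟩ := sq_le ho t h ht
    rw [show btw r t = Finset.Ico r t by unfold btw; rw [min_eq_left h, max_eq_right h],
      show (o r - o t) ^ 2 = (o t - o r) ^ 2 by ring]
    exact ⟨h1, fun h3 => h2 (by omega)⟩
  · obtain ⟨-, h1, h2, -⟩ := sq_le ho r h hr
    rw [show btw r t = Finset.Ico t r by unfold btw; rw [min_eq_right h, max_eq_left h]]
    exact ⟨h1, fun h3 => h2 (by omega)⟩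

theorem double (h1 : ∀ r < n, π r < n) (f : ℕ → ℤ) :
    ∑ r ∈ Finset.range n, ∑ s ∈ btw r (π r), f s =
      ∑ s ∈ Finset.range n, (((cu n π s).card : ℤ) + (cd n π s).card) * f s := by
  classical
  have e1 : ∀ r ∈ Finset.range n, ∑ s ∈ btw r (π r), f s =
      ∑ s ∈ Finset.range n, if s ∈ btw r (π r) then f s else 0 := by
    intro r hr
    rw [← Finset.sum_filter]
    apply Finset.sum_congr _ fun _ _ => rfl
    ext s
    rw [Finset.mem_filter, Finset.mem_range]
    constructor
    · intro h
      refine ⟨?_, h⟩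
      have := mem_btw.1 h
      have := h1 r (Finset.mem_range.1 hr)
      have := Finset.mem_range.1 hr
      omega
    · exact fun h => h.2
  rw [Finset.sum_congr rfl e1, Finset.sum_comm]
  refine Finset.sum_congr rfl fun s _ => ?_
  rw [← Finset.sum_filter, Finset.sum_const]
  have e2 : (Finset.range n).filter (fun r => s ∈ btw r (π r)) = cu n π s ∪ cd n π s := by
    ext r
    simp only [Finset.mem_filter, mem_btw, Finset.mem_union, cu, cd, Finset.mem_range]
    omega
  rw [e2, Finset.card_union_of_disjoint]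
  · rw [nsmul_eq_mul]; push_cast; ring
  · rw [Finset.disjoint_left]
    intro x hx hx'
    simp only [cu, cd, Finset.mem_filter] at hx hx'
    omega

theorem main {o : ℕ → ℤ} (ho : ∀ s, s + 1 < n → o s < o (s + 1)) (h1 : ∀ r < n, π r < n)
    (h2 : ∀ r < n, ∀ r' < n, π r = π r' → r = r') :
    2 * ((Cr n π).card : ℤ) ≤ ∑ r ∈ Finset.range n, (o r - o (π r)) ^ 2 ∧
      (∑ r ∈ Finset.range n, (o r - o (π r)) ^ 2 ≤ 2 * ((Cr n π).card : ℤ) →
        (∀ s ∈ Cr n π, s + 1 ∉ Cr n π) ∧ ∀ s ∈ Cr n π, o (s + 1) = o s + 1) := by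
  classical
  set f : ℕ → ℤ := fun s => (o (s + 1) - o s) ^ 2 with hf
  have hA : ∀ r ∈ Finset.range n, ∑ s ∈ btw r (π r), f s ≤ (o r - o (π r)) ^ 2 := fun r hr =>
    (sq_btw ho (Finset.mem_range.1 hr) (h1 r (Finset.mem_range.1 hr))).1
  have hS := Finset.sum_le_sum hA
  have hD := double h1 f
  have hlt : ∀ s ∈ Cr n π, s + 1 < n := by
    intro s hs
    obtain ⟨r, hr⟩ := (Finset.mem_filter.1 hs).2
    simp only [cu, Finset.mem_filter, Finset.mem_range] at hr
    have := h1 r hr.1
    omega
  have hcr : ∀ s ∈ Finset.range n, (if s ∈ Cr n π then (2 : ℤ) else 0) ≤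
      (((cu n π s).card : ℤ) + (cd n π s).card) * f s := by
    intro s hs
    split_ifs with hc
    · have h3 : 1 ≤ (cu n π s).card := Finset.card_pos.2 (Finset.mem_filter.1 hc).2
      have h4 := card_cu_cd h1 h2 (Finset.mem_range.1 hs)
      have h5 : (1 : ℤ) ≤ f s := by
        have := ho s (hlt s hc)
        have h6 : 1 ≤ o (s + 1) - o s := by linarith
        simp only [hf]
        nlinarith
      have h7 : (1 : ℤ) ≤ ((cu n π s).card : ℤ) := by exact_mod_cast h3
      rw [← h4]
      nlinarith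
    · exact mul_nonneg (by positivity) (sq_nonneg _)
  have hS2 := Finset.sum_le_sum hcr
  have hcard : ∑ s ∈ Finset.range n, (if s ∈ Cr n π then (2 : ℤ) else 0) =
      2 * ((Cr n π).card : ℤ) := by
    rw [← Finset.sum_filter, Finset.sum_const, nsmul_eq_mul]
    have : (Finset.range n).filter (fun s => s ∈ Cr n π) = Cr n π := by
      ext s
      rw [Finset.mem_filter]
      exact ⟨fun h => h.2, fun h => ⟨(Finset.mem_filter.1 h).1, h⟩⟩
    rw [this]; ring
  refine ⟨by rw [hcard] at hS2; linarith, fun hle => ?_⟩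
  have t1 : ∑ r ∈ Finset.range n, ∑ s ∈ btw r (π r), f s =
      ∑ r ∈ Finset.range n, (o r - o (π r)) ^ 2 := by rw [hcard] at hS2; linarith
  have t2 : ∑ s ∈ Finset.range n, (if s ∈ Cr n π then (2 : ℤ) else 0) =
      ∑ s ∈ Finset.range n, (((cu n π s).card : ℤ) + (cd n π s).card) * f s := by
    rw [hcard] at hS2 ⊢; linarith
  have e1 := (Finset.sum_eq_sum_iff_of_le hA).1 t1
  have e2 := (Finset.sum_eq_sum_iff_of_le hcr).1 t2
  have hone : ∀ r < n, ¬ (r + 1 < π r ∨ π r + 1 < r) := by
    intro r hr hc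
    have := (sq_btw ho hr (h1 r hr)).2 hc
    have h3 := e1 r (Finset.mem_range.2 hr)
    simp only [hf] at h3
    linarith
  constructor
  · intro s hs hs1
    obtain ⟨r, hr⟩ := (Finset.mem_filter.1 hs).2
    have hsn := Finset.mem_range.1 (Finset.mem_filter.1 hs).1
    have hcd : (cd n π s).Nonempty := by
      rw [← Finset.card_pos, ← card_cu_cd h1 h2 hsn, Finset.card_pos]
      exact ⟨r, hr⟩
    obtain ⟨r', hr'⟩ := hcd
    obtain ⟨r2, hr2⟩ := (Finset.mem_filter.1 hs1).2
    simp only [cu, cd, Finset.mem_filter, Finset.mem_range] at hr hr' hr2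
    have g1 := hone r hr.1
    have g2 := hone r' hr'.1
    have g3 := hone r2 hr2.1
    have : r' = r2 := by omega
    subst this
    omega
  · intro s hs
    have h3 := e2 s (Finset.mem_filter.1 hs).1
    rw [if_pos hs] at h3
    have h4 : 1 ≤ (cu n π s).card := Finset.card_pos.2 (Finset.mem_filter.1 hs).2
    have h5 := card_cu_cd h1 h2 (Finset.mem_range.1 (Finset.mem_filter.1 hs).1)
    have h6 := ho s (hlt s hs)
    have h7 : (1 : ℤ) ≤ ((cu n π s).card : ℤ) := by exact_mod_cast h4
    rw [← h5] at h3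
    have h8 : f s ≤ 1 := by
      have : 0 ≤ f s := sq_nonneg _
      nlinarith
    simp only [hf] at h8
    have h9 : o (s + 1) - o s ≤ 1 := by nlinarith
    linarith

/-- A crossed cut is also crossed downwards. -/
theorem cr_of_down (h1 : ∀ r < n, π r < n) (h2 : ∀ r < n, ∀ r' < n, π r = π r' → r = r')
    {r s : ℕ} (hr : r < n) (hs : s ∈ btw r (π r)) : s ∈ Cr n π := by
  have hr' := h1 r hr
  have h3 := mem_btw.1 hs
  have hsn : s < n := by omega
  refine Finset.mem_filter.2 ⟨Finset.mem_range.2 hsn, ?_⟩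
  rcases h3 with h3 | h3
  · exact ⟨r, by simp only [cu, Finset.mem_filter, Finset.mem_range]; omega⟩
  · rw [← Finset.card_pos, card_cu_cd h1 h2 hsn, Finset.card_pos]
    exact ⟨r, by simp only [cd, Finset.mem_filter, Finset.mem_range]; omega⟩

end Perm

end Pool.Agent.R533.PSP
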