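import Pool.Agent.R533.PSP.Inst2
import Pool.Agent.H820R2.MS.T7
import Pool.Agent.H820R2.MS.FinalQ

/-!
# Euclidean Max-2-PSP: polynomial-time computability of the instance
-/

namespace Pool.Agent.R533.PSP

open Pool.Agent.H820R2.MS Pool.Agent.H820R2.MS.T7 Pool.Agent.NPC

attribute [local fun_prop] NPC.Poly.iadd NPC.Poly.isub NPC.Poly.imul NPC.Poly.ineg
  NPC.Poly.isum NPC.Poly.natCast_int

variable {α β γ : Type} [TEnc α] [TEnc β] [TEnc γ]

/-! ### Shapes -/

section shape

variable {w : α → List NOp} {k r j p : α → ℕ}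

theorem poly_gw (hw : Poly w) (hk : Poly k) : Poly (fun a => gw (w a) (k a)) := by
  unfold gw
  fun_prop

theorem poly_len (hw : Poly w) (hk : Poly k) : Poly (fun a => (shW (w a)).len (k a)) := by
  have h1 : Poly (fun a => cnt (gw (w a) (k a)) (k a % 5)) :=
    poly_cnt (poly_gw hw hk) (by fun_prop)
  simp only [shW]
  fun_prop

theorem upoly_len (hw : Poly w) (hk : Poly k) : UPoly (fun a => (shW (w a)).len (k a)) := by
  refine UPoly.of_le (poly_len hw hk)
    (((UPoly.const 2).mul (UPoly.length hw)).add (UPoly.const 2)) fun a => ?_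
  simp only [shW]
  split_ifs
  · exact min_le_right _ _
  · exact Nat.zero_le _

theorem poly_o (hw : Poly w) (hk : Poly k) (hr : Poly r) :
    Poly (fun a => (shW (w a)).o (k a) (r a)) := by
  simp only [shW]
  exact poly_oPos (poly_gw hw hk) (by fun_prop) hr

theorem poly_i (hw : Poly w) (hk : Poly k) (hr : Poly r) :
    Poly (fun a => (shW (w a)).i (k a) (r a)) := by
  simp only [shW]
  exact poly_iPos (poly_gw hw hk) (by fun_prop) hr

theorem poly_og (hw : Poly w) (hk : Poly k) : Poly (fun a => (shW (w a)).og (k a)) := by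
  have h1 := poly_gw hw hk
  simp only [shW]
  fun_prop

theorem poly_cups (hw : Poly w) : Poly (fun a => cups (w a)) := by
  unfold cups
  refine NPC.Poly.length (NPC.Poly.filter (p := fun a p =>
    decide (((w a).getD p (0, 0, 0)).1 = 0)) (UPoly.range (UPoly.length hw)) ?_)
  fun_prop

theorem poly_Mw (hw : Poly w) : Poly (fun a => Mw (w a)) := by
  have h1 := poly_cups hw
  unfold Mw
  fun_prop

theorem poly_xm (hw : Poly w) : Poly (fun a => xm (w a)) := by
  have h1 := poly_Mw hw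
  unfold xm
  fun_prop

theorem poly_D (hw : Poly w) : Poly (fun a => (shW (w a)).D) := by
  have h1 := poly_Mw hw
  simp only [shW]
  fun_prop

theorem poly_M (hw : Poly w) : Poly (fun a => (shW (w a)).M) := by
  have h1 := poly_Mw hw
  simp only [shW]
  fun_prop

theorem poly_sq {f : α → ℤ} (hf : Poly f) : Poly (fun a => f a ^ 2) :=
  NPC.Poly.ipow (n := fun _ => 2) hf (UPoly.const 2)

theorem poly_B (hw : Poly w) : Poly (fun a => (shW (w a)).B) := by
  have h1 := poly_Mw hw
  have h2 := poly_xm hw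
  have h3 : Poly (fun a => (xm (w a) : ℤ) ^ 2) := poly_sq (by fun_prop)
  simp only [shW]
  fun_prop

theorem poly_xl (hw : Poly w) (hk : Poly k) (hp : Poly p) :
    Poly (fun a => (shW (w a)).xl (k a) (p a)) := by
  have h1 := poly_og hw hk
  have h2 := poly_D hw
  unfold Sh.xl
  refine NPC.Poly.ite (p := fun a => (shW (w a)).og (k a) = true) ?_ ?_ ?_
  · fun_prop
  · fun_prop
  · fun_prop

theorem poly_xr (hw : Poly w) (hk : Poly k) (hj : Poly j) (hr : Poly r) :
    Poly (fun a => (shW (w a)).xr (k a) (j a) (r a)) := by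
  have h1 := poly_og hw hk
  have h2 := poly_D hw
  have h3 := poly_o hw hk hr
  have h4 := poly_i hw hk hr
  unfold Sh.xr
  refine NPC.Poly.ite (p := fun a => (shW (w a)).og (k a) = true ∧ j a = 1) ?_ ?_ ?_
  · fun_prop
  · fun_prop
  · fun_prop

theorem poly_a (hw : Poly w) (hk : Poly k) (hj : Poly j) (hr : Poly r) :
    Poly (fun a => (shW (w a)).a (k a) (j a) (r a)) := by
  have h1 := poly_xl hw hk (poly_o hw hk hr)
  have h2 := poly_xr hw hk hj hr
  unfold Sh.a
  refine NPC.Poly.ite (p := fun a => j a = 0) ?_ ?_ ?_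
  · fun_prop
  · fun_prop
  · fun_prop

theorem poly_b (hw : Poly w) (hk : Poly k) (hj : Poly j) (hr : Poly r) :
    Poly (fun a => (shW (w a)).b (k a) (j a) (r a)) := by
  have h1 := poly_xl hw (k := fun a => k a + 1) (by fun_prop) (poly_i hw hk hr)
  have h2 := poly_xr hw hk (j := fun a => j a + 1) (by fun_prop) hr
  unfold Sh.b
  refine NPC.Poly.ite (p := fun a => j a = 7) ?_ ?_ ?_
  · fun_prop
  · fun_prop
  · fun_prop

theorem poly_al (hw : Poly w) (hk : Poly k) (hj : Poly j) (hr : UPoly r) :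
    Poly (fun a => al ((shW (w a)).a (k a) (j a)) ((shW (w a)).b (k a) (j a)) (r a)) := by
  unfold al
  refine NPC.Poly.isum (NPC.Poly.map (F := fun a s =>
    ((shW (w a)).b (k a) (j a) s + (shW (w a)).b (k a) (j a) (s + 1)) *
      ((shW (w a)).a (k a) (j a) (s + 1) - (shW (w a)).a (k a) (j a) s)) (UPoly.range hr) ?_)
  have hw' : Poly (fun q : α × ℕ => w q.1) := hw.comp (NPC.Poly.fst NPC.Poly.id)
  have hk' : Poly (fun q : α × ℕ => k q.1) := hk.comp (NPC.Poly.fst NPC.Poly.id)
  have hj' : Poly (fun q : α × ℕ => j q.1) := hj.comp (NPC.Poly.fst NPC.Poly.id)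
  have h1 := poly_a hw' hk' hj' (r := fun q => q.2) (by fun_prop)
  have h2 := poly_a hw' hk' hj' (r := fun q => q.2 + 1) (by fun_prop)
  have h3 := poly_b hw' hk' hj' (r := fun q => q.2) (by fun_prop)
  have h4 := poly_b hw' hk' hj' (r := fun q => q.2 + 1) (by fun_prop)
  fun_prop

theorem poly_be (hw : Poly w) (hk : Poly k) (hj : Poly j) (hr : UPoly r) :
    Poly (fun a => be ((shW (w a)).a (k a) (j a)) ((shW (w a)).b (k a) (j a)) (r a)) := by
  unfold be
  have hw' : Poly (fun q : α × ℕ => w q.1) := hw.comp (NPC.Poly.fst NPC.Poly.id)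
  have hk' : Poly (fun q : α × ℕ => k q.1) := hk.comp (NPC.Poly.fst NPC.Poly.id)
  have hj' : Poly (fun q : α × ℕ => j q.1) := hj.comp (NPC.Poly.fst NPC.Poly.id)
  have h5 := poly_a hw hk hj (r := fun _ => 0) (by fun_prop)
  have h6 := poly_b hw hk hj (r := fun _ => 0) (by fun_prop)
  refine NPC.Poly.iadd (by fun_prop) ?_
  refine NPC.Poly.isum (NPC.Poly.map (F := fun a s =>
    ((shW (w a)).a (k a) (j a) s + (shW (w a)).a (k a) (j a) (s + 1)) *
      ((shW (w a)).b (k a) (j a) (s + 1) - (shW (w a)).b (k a) (j a) s)) (UPoly.range hr) ?_)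
  have h1 := poly_a hw' hk' hj' (r := fun q => q.2) (by fun_prop)
  have h2 := poly_a hw' hk' hj' (r := fun q => q.2 + 1) (by fun_prop)
  have h3 := poly_b hw' hk' hj' (r := fun q => q.2) (by fun_prop)
  have h4 := poly_b hw' hk' hj' (r := fun q => q.2 + 1) (by fun_prop)
  fun_prop

theorem poly_Pg (hw : Poly w) (hk : Poly k) (hj : Poly j) (hr : UPoly r) :
    Poly (fun a => (shW (w a)).Pg (k a) (j a) (r a)) := by
  have h1 := poly_al hw hk hj hr
  have h2 := poly_sq (poly_a hw hk hj hr.toPoly)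
  have h3 := poly_M hw
  have h4 : Poly (fun a => if j a = 0 then (0 : ℤ) else (shW (w a)).M) :=
    NPC.Poly.ite (p := fun a => j a = 0) (by fun_prop) (by fun_prop) (by fun_prop)
  unfold Sh.Pg
  fun_prop

theorem poly_Qg (hw : Poly w) (hk : Poly k) (hj : Poly j) (hr : UPoly r) :
    Poly (fun a => (shW (w a)).Qg (k a) (j a) (r a)) := by
  have h1 := poly_be hw hk hj hr
  have h2 := poly_sq (poly_b hw hk hj hr.toPoly)
  unfold Sh.Qg
  fun_prop

theorem poly_isLo (hw : Poly w) (hk : Poly k) (hp : Poly p) :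
    Poly (fun a => (shW (w a)).isLo (k a) (p a)) := by
  have h1 : Poly (fun a => (List.range ((shW (w a)).len (k a))).map
      fun r => (shW (w a)).o (k a) r) := by
    refine NPC.Poly.map (F := fun a r => (shW (w a)).o (k a) r)
      (UPoly.range (upoly_len hw hk)) ?_
    exact poly_o (hw.comp (NPC.Poly.fst NPC.Poly.id)) (hk.comp (NPC.Poly.fst NPC.Poly.id))
      (NPC.Poly.snd NPC.Poly.id)
  refine (NPC.Poly.decide_mem hp h1).congr fun a => ?_
  unfold Sh.isLo
  rw [List.elem_eq_mem]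

theorem poly_isUp (hw : Poly w) (hk : Poly k) (hp : Poly p) :
    Poly (fun a => (shW (w a)).isUp (k a) (p a)) := by
  have hk' : Poly (fun a => k a - 1) := by fun_prop
  have h1 : Poly (fun a => (List.range ((shW (w a)).len (k a - 1))).map
      fun r => (shW (w a)).i (k a - 1) r) := by
    refine NPC.Poly.map (F := fun a r => (shW (w a)).i (k a - 1) r)
      (UPoly.range (upoly_len hw hk')) ?_
    exact poly_i (hw.comp (NPC.Poly.fst NPC.Poly.id)) (hk'.comp (NPC.Poly.fst NPC.Poly.id))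
      (NPC.Poly.snd NPC.Poly.id)
  refine (NPC.Poly.decide_mem hp h1).congr fun a => ?_
  unfold Sh.isUp
  rw [List.elem_eq_mem]

theorem upoly_clo (hw : Poly w) (hk : Poly k) (hp : Poly p) :
    UPoly (fun a => cl (fun r => (shW (w a)).o (k a) r) ((shW (w a)).len (k a)) (p a)) := by
  unfold cl
  refine UPoly.length (NPC.Poly.filter (p := fun a r =>
    decide ((shW (w a)).o (k a) r < p a)) (UPoly.range (upoly_len hw hk)) ?_)
  have h1 := poly_o (hw.comp (NPC.Poly.fst (NPC.Poly.id (α := α × ℕ))))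
    (hk.comp (NPC.Poly.fst NPC.Poly.id)) (NPC.Poly.snd NPC.Poly.id)
  have h2 : Poly (fun q : α × ℕ => p q.1) := hp.comp (NPC.Poly.fst NPC.Poly.id)
  exact NPC.Poly.decide_lt h1 h2

theorem upoly_cli (hw : Poly w) (hk : Poly k) (hp : Poly p) :
    UPoly (fun a => cl (fun r => (shW (w a)).i (k a) r) ((shW (w a)).len (k a)) (p a)) := by
  unfold cl
  refine UPoly.length (NPC.Poly.filter (p := fun a r =>
    decide ((shW (w a)).i (k a) r < p a)) (UPoly.range (upoly_len hw hk)) ?_)
  have h1 := poly_i (hw.comp (NPC.Poly.fst (NPC.Poly.id (α := α × ℕ))))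
    (hk.comp (NPC.Poly.fst NPC.Poly.id)) (NPC.Poly.snd NPC.Poly.id)
  have h2 : Poly (fun q : α × ℕ => p q.1) := hp.comp (NPC.Poly.fst NPC.Poly.id)
  exact NPC.Poly.decide_lt h1 h2

end shape

/-! ### Vertices -/

/-- Guarded slot index. -/
def gr' (w : List NOp) (v : V) : ℕ := min v.2.2.1 (2 * w.length + 2)

/-- Guarded upward potential. -/
def P' (w : List NOp) (v : V) : ℤ :=
  if v.2.1 = 0 then
    (if (shW w).isLo v.1 v.2.2.1 = true then
      (shW w).Pg v.1 0 (cl (fun r => (shW w).o v.1 r) ((shW w).len v.1) v.2.2.1) else - (shW w).B)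
  else (shW w).Pg v.1 v.2.1 (gr' w v)

/-- Guarded downward potential. -/
def Q' (w : List NOp) (v : V) : ℤ :=
  if v.2.1 = 0 then
    (if (shW w).isUp v.1 v.2.2.1 = true then
      (shW w).Qg (v.1 - 1) 7
        (cl (fun r => (shW w).i (v.1 - 1) r) ((shW w).len (v.1 - 1)) v.2.2.1) else - (shW w).B)
  else (shW w).Qg v.1 (v.2.1 - 1) (gr' w v)

theorem gr'_eq {w : List NOp} {v : V} (hv : (shW w).IsV v) (h0 : v.2.1 ≠ 0) :
    gr' w v = v.2.2.1 := by
  unfold gr'
  rcases hv with h1 | h1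
  · exact absurd h1.1 h0
  · have h2 := h1.2.2.1
    simp only [shW] at h2
    split_ifs at h2 <;> omega

theorem P'_eq {w : List NOp} {v : V} (hv : (shW w).IsV v) : P' w v = (shW w).P v := by
  unfold P' Sh.P
  by_cases h0 : v.2.1 = 0
  · rw [if_pos h0, if_pos h0]
  · rw [if_neg h0, if_neg h0, gr'_eq hv h0]

theorem Q'_eq {w : List NOp} {v : V} (hv : (shW w).IsV v) : Q' w v = (shW w).Q v := by
  unfold Q' Sh.Q
  by_cases h0 : v.2.1 = 0
  · rw [if_pos h0, if_pos h0]
  · rw [if_neg h0, if_neg h0, gr'_eq hv h0]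

section vertex

variable {w : α → List NOp} {v : α → V}

theorem upoly_gr' (hw : Poly w) (hv : Poly v) : UPoly (fun a => gr' (w a) (v a)) := by
  have hb : UPoly (fun a => 2 * (w a).length + 2) :=
    ((UPoly.const 2).mul (UPoly.length hw)).add (UPoly.const 2)
  refine UPoly.of_le ?_ hb fun a => min_le_right _ _
  unfold gr'
  fun_prop

theorem poly_P' (hw : Poly w) (hv : Poly v) : Poly (fun a => P' (w a) (v a)) := by
  have k1 : Poly (fun a => (v a).1) := by fun_prop
  have k2 : Poly (fun a => (v a).2.1) := by fun_prop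
  have k3 : Poly (fun a => (v a).2.2.1) := by fun_prop
  have h1 := poly_isLo hw k1 k3
  have h2 := poly_Pg hw k1 (j := fun _ => 0) (by fun_prop) (upoly_clo hw k1 k3)
  have h3 := poly_Pg hw k1 k2 (upoly_gr' hw hv)
  have h4 := poly_B hw
  unfold P'
  refine NPC.Poly.ite (p := fun a => (v a).2.1 = 0) (by fun_prop) ?_ h3
  refine NPC.Poly.ite (p := fun a => (shW (w a)).isLo (v a).1 (v a).2.2.1 = true) ?_ h2 ?_
  · fun_prop
  · fun_prop

theorem poly_Q' (hw : Poly w) (hv : Poly v) : Poly (fun a => Q' (w a) (v a)) := by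
  have k1 : Poly (fun a => (v a).1) := by fun_prop
  have k0 : Poly (fun a => (v a).1 - 1) := by fun_prop
  have k2 : Poly (fun a => (v a).2.1 - 1) := by fun_prop
  have k3 : Poly (fun a => (v a).2.2.1) := by fun_prop
  have h1 := poly_isUp hw k1 k3
  have h2 := poly_Qg hw k0 (j := fun _ => 7) (by fun_prop) (upoly_cli hw k0 k3)
  have h3 := poly_Qg hw k1 k2 (upoly_gr' hw hv)
  have h4 := poly_B hw
  unfold Q'
  refine NPC.Poly.ite (p := fun a => (v a).2.1 = 0) (by fun_prop) ?_ h3
  refine NPC.Poly.ite (p := fun a => (shW (w a)).isUp (v a).1 (v a).2.2.1 = true) ?_ h2 ?_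
  · fun_prop
  · fun_prop

theorem poly_X (hw : Poly w) (hv : Poly v) : Poly (fun a => (shW (w a)).X (v a)) := by
  have k1 : Poly (fun a => (v a).1) := by fun_prop
  have k2 : Poly (fun a => (v a).2.1) := by fun_prop
  have k3 : Poly (fun a => (v a).2.2.1) := by fun_prop
  have h1 := poly_xl hw k1 k3
  have h2 := poly_xr hw k1 k2 k3
  unfold Sh.X
  refine NPC.Poly.ite (p := fun a => (v a).2.1 = 0) (by fun_prop) h1 h2

end vertex

end Pool.Agent.R533.PSP
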