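import Pool.Agent.R533.PSP.PolyI

/-!
# Euclidean Max-2-PSP: polynomial-time computability of the instance, continued
-/

namespace Pool.Agent.R533.PSP

open Pool.Agent.H820R2.MS Pool.Agent.H820R2.MS.T7 Pool.Agent.NPC

attribute [local fun_prop] NPC.Poly.iadd NPC.Poly.isub NPC.Poly.imul NPC.Poly.ineg
  NPC.Poly.isum NPC.Poly.natCast_int

seal VL m0 cups Mw xm Bw ZW budW KW P' Q'

variable {α β γ : Type} [TEnc α] [TEnc β] [TEnc γ]

section
variable {w : α → List NOp} {v : α → V}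

theorem poly_slots (hw : Poly w) : Poly (fun a => slots (w a)) := by
  unfold slots
  refine NPC.Poly.flatMap (F := fun a k => (List.range ((shW (w a)).len k)).map fun r => (k, r))
    (UPoly.range ((UPoly.const 5).mul (UPoly.length hw))) ?_
  refine NPC.Poly.map (F := fun (p : α × ℕ) r => (p.2, r)) (UPoly.range
    (upoly_len (hw.comp (NPC.Poly.fst NPC.Poly.id)) (NPC.Poly.snd NPC.Poly.id))) ?_
  fun_prop

theorem poly_VL (hw : Poly w) : Poly (fun a => VL (w a)) := by
  have h1 := poly_slots hw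
  unfold VL
  refine poly_dedup (NPC.Poly.append ?_ (NPC.Poly.append ?_ ?_))
  · refine NPC.Poly.map (F := fun a (p : ℕ × ℕ) => ((p.1, 0, (shW (w a)).o p.1 p.2, 0) : V)) h1 ?_
    have h2 := poly_o (w := fun q : α × (ℕ × ℕ) => w q.1) (k := fun q => q.2.1)
      (r := fun q => q.2.2) (hw.comp (NPC.Poly.fst NPC.Poly.id)) (by fun_prop) (by fun_prop)
    fun_prop
  · refine NPC.Poly.map (F := fun a (p : ℕ × ℕ) => ((p.1 + 1, 0, (shW (w a)).i p.1 p.2, 0) : V))
      h1 ?_
    have h2 := poly_i (w := fun q : α × (ℕ × ℕ) => w q.1) (k := fun q => q.2.1)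
      (r := fun q => q.2.2) (hw.comp (NPC.Poly.fst NPC.Poly.id)) (by fun_prop) (by fun_prop)
    fun_prop
  · refine NPC.Poly.flatMap (F := fun _ (p : ℕ × ℕ) =>
      rodJ.map fun a => ((p.1, a.1, p.2, a.2) : V)) h1 ?_
    refine NPC.Poly.map (F := fun (q : α × (ℕ × ℕ)) (a : ℕ × ℕ) =>
      ((q.2.1, a.1, q.2.2, a.2) : V)) (NPC.Poly.const rodJ) ?_
    fun_prop

theorem poly_lv (hv : Poly v) : Poly (fun a => lv (v a)) := by
  unfold lv
  fun_prop

theorem poly_m0 (hw : Poly w) : Poly (fun a => m0 (w a)) := by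
  have h1 := poly_VL hw
  unfold m0
  refine NPC.Poly.sum (NPC.Poly.map (F := fun a v => ((VL (w a)).filter fun u =>
    decide (lv u = lv v + 1 ∧ (shW (w a)).NS v u)).length) h1 ?_)
  refine NPC.Poly.length (NPC.Poly.filter (p := fun (q : α × V) u =>
    decide (lv u = lv q.2 + 1 ∧ (shW (w q.1)).NS q.2 u)) (h1.comp (NPC.Poly.fst NPC.Poly.id)) ?_)
  have hw' : Poly (fun q : (α × V) × V => w q.1.1) :=
    hw.comp (NPC.Poly.fst (NPC.Poly.fst NPC.Poly.id))
  have h2 := poly_i (w := fun q : (α × V) × V => w q.1.1) (k := fun q => q.1.2.1)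
    (r := fun q => q.1.2.2.2.1) hw' (by fun_prop) (by fun_prop)
  have h3 := poly_lv (v := fun q : (α × V) × V => q.1.2) (by fun_prop)
  have h4 := poly_lv (v := fun q : (α × V) × V => q.2) (by fun_prop)
  have h5 : Poly (fun q : (α × V) × V => decide (lv q.2 = lv q.1.2 + 1 ∧
      ((1 ≤ q.1.2.2.1 ∧ q.1.2.2.1 ≤ 6 ∧ q.2.1 = q.1.2.1 ∧ q.2.2.1 = q.1.2.2.1 + 1 ∧
        q.2.2.2.1 = q.1.2.2.2.1) ∨
      (q.1.2.2.1 = 7 ∧ q.2.1 = q.1.2.1 + 1 ∧ q.2.2.1 = 0 ∧
        q.2.2.2.1 = (shW (w q.1.1)).i q.1.2.1 q.1.2.2.2.1)))) := by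
    fun_prop
  refine h5.congr fun q => ?_
  rw [decide_eq_decide]
  rfl

theorem poly_Bw (hw : Poly w) : Poly (fun a => Bw (w a)) := by
  have h1 := poly_xm hw
  have h2 := poly_Mw hw
  have h3 : Poly (fun a => xm (w a) ^ 2) := NPC.Poly.npow (n := fun _ => 2) h1 (UPoly.const 2)
  unfold Bw
  fun_prop

theorem poly_n (hw : Poly w) : Poly (fun a => (VL (w a)).length) := NPC.Poly.length (poly_VL hw)

theorem poly_ZW (hw : Poly w) : Poly (fun a => ZW (w a)) := by
  have h1 := poly_xm hw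
  have h2 := poly_Mw hw
  have h3 := poly_Bw hw
  have h4 := poly_n hw
  have h5 := poly_m0 hw
  have h6 := poly_cups hw
  have h7 : Poly (fun a => (2 * (VL (w a)).length) ^ 2) :=
    NPC.Poly.npow (n := fun _ => 2) (by fun_prop) (UPoly.const 2)
  unfold ZW
  fun_prop

theorem poly_budW (hw : Poly w) : Poly (fun a => budW (w a)) := by
  have h2 := poly_Mw hw
  have h5 := poly_m0 hw
  have h6 := poly_cups hw
  unfold budW
  fun_prop

theorem upoly_KW (hw : Poly w) : UPoly (fun a => KW (w a)) := by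
  unfold KW
  exact ((UPoly.const 40).mul (UPoly.length hw)).add (UPoly.const 8)

/-! ### Gaussian integers -/

theorem poly_gmul {f g : α → ℤ × ℤ} (hf : Poly f) (hg : Poly g) :
    Poly (fun a => gmul (f a) (g a)) := by
  unfold gmul
  fun_prop

theorem gpow_bd (a : ℤ × ℤ) (k : ℕ) : (gpow a k).1.natAbs ≤ (a.1.natAbs + a.2.natAbs) ^ k ∧
    (gpow a k).2.natAbs ≤ (a.1.natAbs + a.2.natAbs) ^ k := by
  have key : ∀ k, (gpow a k).1.natAbs + (gpow a k).2.natAbs ≤
      (a.1.natAbs + a.2.natAbs) ^ k := by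
    intro k
    unfold gpow
    induction k with
    | zero => simp
    | succ k ih =>
      rw [Function.iterate_succ_apply', pow_succ]
      generalize (gmul a)^[k] (1, 0) = b at ih
      unfold gmul
      simp only
      have h1 := Int.natAbs_sub_le (a.1 * b.1) (a.2 * b.2)
      have h2 := Int.natAbs_add_le (a.1 * b.2) (a.2 * b.1)
      rw [Int.natAbs_mul, Int.natAbs_mul] at h1 h2
      calc (a.1 * b.1 - a.2 * b.2).natAbs + (a.1 * b.2 + a.2 * b.1).natAbs ≤
          (b.1.natAbs + b.2.natAbs) * (a.1.natAbs + a.2.natAbs) := by nlinarith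
        _ ≤ _ := Nat.mul_le_mul_right _ ih
  have := key k
  constructor <;> omega

theorem poly_gpow {f : α → ℤ × ℤ} {n : α → ℕ} (hf : Poly f) (hn : UPoly n) :
    Poly (fun a => gpow (f a) (n a)) := by
  obtain ⟨r, hr⟩ := hf.sz_le
  obtain ⟨q, hq⟩ := Poly.sz_le hn
  refine (NPC.Poly.iterLen (l := fun a => List.replicate (n a) ()) (s := fun _ => ((1, 0) : ℤ × ℤ))
    (F := fun a x => gmul (f a) x) hn (NPC.Poly.const _)
    (poly_gmul (hf.comp (NPC.Poly.fst NPC.Poly.id)) (NPC.Poly.snd NPC.Poly.id))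
    (Polynomial.C 8 * (q * (r + Polynomial.C 1) + Polynomial.C 1) + Polynomial.C 20)
    ?_).congr fun a => ?_
  · intro a k hk
    change sz (gpow (f a) k) ≤ _
    obtain ⟨b1, b2⟩ := gpow_bd (f a) k
    have h0 : sz (gpow (f a) k) = sz (gpow (f a) k).1 + sz (gpow (f a) k).2 + 1 := by
      rw [← sz_pair]
    have h1 := sz_int_le (gpow (f a) k).1
    have h2 := sz_int_le (gpow (f a) k).2
    have e0 : sz (f a) = sz (f a).1 + sz (f a).2 + 1 := by rw [← sz_pair]
    have e1 := size_natAbs_le_sz (f a).1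
    have e2 := size_natAbs_le_sz (f a).2
    have e3 := hr a
    have e4 := hq a
    have e5 := length_lt_sz (List.replicate (n a) ())
    set s := (f a).1.natAbs + (f a).2.natAbs with hs
    have hsz : s.size ≤ r.eval (sz a) + 1 := by
      have c1 := Nat.lt_size_self (f a).1.natAbs
      have c2 := Nat.lt_size_self (f a).2.natAbs
      rw [Nat.size_le]
      have d1 : (f a).1.natAbs < 2 ^ r.eval (sz a) :=
        lt_of_lt_of_le c1 (Nat.pow_le_pow_right (by norm_num) (by omega))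
      have d2 : (f a).2.natAbs < 2 ^ r.eval (sz a) :=
        lt_of_lt_of_le c2 (Nat.pow_le_pow_right (by norm_num) (by omega))
      rw [pow_succ]
      omega
    have hp := size_pow_le s k
    have hk' : k ≤ q.eval (sz a) := by
      simp only [List.length_replicate] at hk e5
      omega
    have hm : k * s.size ≤ q.eval (sz a) * (r.eval (sz a) + 1) := Nat.mul_le_mul hk' hsz
    have g1 : (gpow (f a) k).1.natAbs.size ≤ (s ^ k).size := Nat.size_le_size b1
    have g2 : (gpow (f a) k).2.natAbs.size ≤ (s ^ k).size := Nat.size_le_size b2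
    simp only [Polynomial.eval_add, Polynomial.eval_mul, Polynomial.eval_C]
    omega
  · simp only [List.length_replicate]
    rfl

end

/-! ### Points -/

/-- Guarded level. -/
def lg (w : List NOp) (v : V) : ℕ := min (lv v) (KW w)

def x' (w : List NOp) (v : V) : ℤ := 2 * ((2 * (VL w).length : ℕ) : ℤ) * (shW w).X v

def t' (w : List NOp) (v : V) : ℤ :=
  2 * ((2 * (VL w).length : ℕ) : ℤ) ^ 2 * (P' w v - Q' w v) + (v.2.2.2 : ℤ)

def p' (w : List NOp) (v : V) : ℤ := 2 * ((2 * (VL w).length : ℕ) : ℤ) ^ 2 * (P' w v + Q' w v)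

def mw (w : List NOp) : ℤ := ((8 * KW w : ℕ) : ℤ)

def bH (w : List NOp) : ℤ := ((82 * (8 * KW w) ^ 2 * ZW w ^ 3 : ℕ) : ℤ)

def re' (w : List NOp) (v : V) : ℤ :=
  2 * (mw w ^ 2 - 1) * bH w ^ 2 + (-1) ^ lg w v * (2 * (mw w ^ 2 - 1) * bH w * x' w v)

def im' (w : List NOp) (v : V) : ℤ := mw w * t' w v

def fac' (w : List NOp) (v : V) : ℤ :=
  (-1) ^ lg w v * (mw w ^ 2 + 1) ^ (2 * (KW w - lg w v) + 1)

def pz' (w : List NOp) (v : V) : ℤ × ℤ :=
  gmul (gpow (gmul (mw w ^ 2 - 1, 2 * mw w) (mw w ^ 2 - 1, 2 * mw w)) (lg w v))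
    (fac' w v * re' w v, fac' w v * im' w v)

def ψ' (w : List NOp) (v : V) : ℤ :=
  (mw w ^ 2 - 1) * re' w v + 4 * mw w ^ 2 * x' w v ^ 2 - 2 * mw w ^ 2 * p' w v

section eqs
variable {w : List NOp} {v : V}

theorem lg_eq (hv : (shW w).IsV v) : lg w v = lv v := by
  unfold lg KW
  exact min_eq_left (isV_lv hv)

theorem x'_eq : x' w v = (EW w).x v := rfl

theorem t'_eq (hv : (shW w).IsV v) : t' w v = (EW w).t v := by
  unfold t'
  rw [P'_eq hv, Q'_eq hv]
  rfl

theorem p'_eq (hv : (shW w).IsV v) : p' w v = (EW w).p v := by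
  unfold p'
  rw [P'_eq hv, Q'_eq hv]
  rfl

theorem re'_eq (hv : (shW w).IsV v) : re' w v = (EW w).re v := by
  unfold re'
  rw [lg_eq hv, x'_eq]
  rfl

theorem im'_eq (hv : (shW w).IsV v) : im' w v = (EW w).im v := by
  unfold im'
  rw [t'_eq hv]
  rfl

theorem fac'_eq (hv : (shW w).IsV v) : fac' w v = (EW w).fac (lv v) := by
  unfold fac'
  rw [lg_eq hv]
  rfl

theorem pz'_eq (hv : (shW w).IsV v) : pz' w v = (EW w).pz v := by
  unfold pz'
  rw [fac'_eq hv, re'_eq hv, im'_eq hv, lg_eq hv]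
  rfl

theorem ψ'_eq (hv : (shW w).IsV v) : ψ' w v = (EW w).ψ v := by
  unfold ψ'
  rw [re'_eq hv, x'_eq, p'_eq hv]
  rfl

end eqs

section polys
variable {w : α → List NOp} {v : α → V}

theorem poly_W2 (hw : Poly w) : Poly (fun a => ((2 * (VL (w a)).length : ℕ) : ℤ) ^ 2) := by
  have h1 := poly_n hw
  exact poly_sq (f := fun a => ((2 * (VL (w a)).length : ℕ) : ℤ))
    (NPC.Poly.natCast_int (NPC.Poly.mul (NPC.Poly.const 2) h1))

theorem upoly_lg (hw : Poly w) (hv : Poly v) : UPoly (fun a => lg (w a) (v a)) := by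
  refine UPoly.of_le ?_ (upoly_KW hw) fun a => min_le_right _ _
  have h1 := poly_lv hv
  have h2 := (upoly_KW hw).toPoly
  unfold lg
  fun_prop

theorem poly_x' (hw : Poly w) (hv : Poly v) : Poly (fun a => x' (w a) (v a)) := by
  have h1 := poly_n hw
  have h2 := poly_X hw hv
  unfold x'
  fun_prop

theorem poly_t' (hw : Poly w) (hv : Poly v) : Poly (fun a => t' (w a) (v a)) := by
  have h1 := poly_W2 hw
  have h2 := poly_P' hw hv
  have h3 := poly_Q' hw hv
  unfold t'
  fun_prop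

theorem poly_p' (hw : Poly w) (hv : Poly v) : Poly (fun a => p' (w a) (v a)) := by
  have h1 := poly_W2 hw
  have h2 := poly_P' hw hv
  have h3 := poly_Q' hw hv
  unfold p'
  fun_prop

theorem poly_mw (hw : Poly w) : Poly (fun a => mw (w a)) := by
  have h1 := (upoly_KW hw).toPoly
  unfold mw
  fun_prop

theorem poly_bH (hw : Poly w) : Poly (fun a => bH (w a)) := by
  have h1 := (upoly_KW hw).toPoly
  have h2 := poly_ZW hw
  have h3 : Poly (fun a => (8 * KW (w a)) ^ 2) :=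
    NPC.Poly.npow (n := fun _ => 2) (by fun_prop) (UPoly.const 2)
  have h4 : Poly (fun a => ZW (w a) ^ 3) :=
    NPC.Poly.npow (n := fun _ => 3) (by fun_prop) (UPoly.const 3)
  unfold bH
  fun_prop

theorem poly_re' (hw : Poly w) (hv : Poly v) : Poly (fun a => re' (w a) (v a)) := by
  have h1 := poly_sq (poly_mw hw)
  have h2 := poly_sq (poly_bH hw)
  have h3 := poly_bH hw
  have h4 := poly_x' hw hv
  have h5 : Poly (fun a => (-1 : ℤ) ^ lg (w a) (v a)) :=
    NPC.Poly.ipow (NPC.Poly.const (-1)) (upoly_lg hw hv)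
  unfold re'
  fun_prop

theorem poly_im' (hw : Poly w) (hv : Poly v) : Poly (fun a => im' (w a) (v a)) := by
  have h1 := poly_mw hw
  have h2 := poly_t' hw hv
  unfold im'
  fun_prop

theorem poly_fac' (hw : Poly w) (hv : Poly v) : Poly (fun a => fac' (w a) (v a)) := by
  have h1 := poly_sq (poly_mw hw)
  have h5 : Poly (fun a => (-1 : ℤ) ^ lg (w a) (v a)) :=
    NPC.Poly.ipow (NPC.Poly.const (-1)) (upoly_lg hw hv)
  have hK := upoly_KW hw
  have h2 := hK.toPoly
  have h3 := (upoly_lg hw hv).toPoly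
  have h6 : UPoly (fun a => 2 * (KW (w a) - lg (w a) (v a)) + 1) := by
    refine UPoly.of_le (by fun_prop) (((UPoly.const 2).mul hK).add (UPoly.const 1)) fun a => ?_
    omega
  have h7 : Poly (fun a => (mw (w a) ^ 2 + 1) ^ (2 * (KW (w a) - lg (w a) (v a)) + 1)) :=
    NPC.Poly.ipow (by fun_prop) h6
  unfold fac'
  fun_prop

theorem poly_pz' (hw : Poly w) (hv : Poly v) : Poly (fun a => pz' (w a) (v a)) := by
  have h1 := poly_mw hw
  have h2 := poly_sq h1
  have h3 := poly_fac' hw hv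
  have h4 := poly_re' hw hv
  have h5 := poly_im' hw hv
  have h6 : Poly (fun a => ((mw (w a) ^ 2 - 1, 2 * mw (w a)) : ℤ × ℤ)) := by fun_prop
  unfold pz'
  exact poly_gmul (poly_gpow (poly_gmul h6 h6) (upoly_lg hw hv)) (by fun_prop)

theorem poly_ψ' (hw : Poly w) (hv : Poly v) : Poly (fun a => ψ' (w a) (v a)) := by
  have h1 := poly_mw hw
  have h2 := poly_sq h1
  have h4 := poly_re' hw hv
  have h5 := poly_sq (poly_x' hw hv)
  have h6 := poly_p' hw hv
  unfold ψ'
  fun_prop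

end polys

/-- The guarded instance. -/
def instP (s : ℕ) (w : List NOp) : List (List ℚ) × ℚ :=
  ((VL w).map (fun v => (((pz' w v).1 : ℤ) : ℚ) :: (((pz' w v).2 : ℤ) : ℚ) ::
      List.replicate (s - 2) 0),
    (((mw w ^ 2 + 1) ^ (2 * KW w) * (4 * ((VL w).map (ψ' w)).sum -
      8 * mw w ^ 2 * ((2 * (VL w).length : ℕ) : ℤ) ^ 2 * budW w -
      4 * mw w ^ 2 * ((2 * (VL w).length : ℕ) : ℤ) ^ 2) : ℤ) : ℚ))

theorem instP_eq {w : List NOp} (h0 : (shW w).len 0 = 0) (s : ℕ) : instP s w = instW s w := by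
  unfold instP instW
  have hV : ∀ v ∈ VL w, (shW w).IsV v := fun v hv => (mem_VL h0).1 hv
  have e1 : (VL w).map (fun v => (((pz' w v).1 : ℤ) : ℚ) :: (((pz' w v).2 : ℤ) : ℚ) ::
      List.replicate (s - 2) 0) = (VL w).map (ptL (EW w) s) := by
    apply List.map_congr_left
    intro v hv
    rw [pz'_eq (hV v hv)]
    rfl
  have e2 : (VL w).map (ψ' w) = (VL w).map (EW w).ψ := by
    apply List.map_congr_left
    intro v hv
    exact ψ'_eq (hV v hv)
  rw [e1, e2]
  rfl

theorem poly_instP (s : ℕ) : Poly (instP s) := by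
  have hid : Poly (fun w : List NOp => w) := NPC.Poly.id
  have h1 := poly_VL hid
  unfold instP
  refine NPC.Poly.pair ?_ (poly_intCast ?_)
  · refine NPC.Poly.map (F := fun w v => (((pz' w v).1 : ℤ) : ℚ) :: (((pz' w v).2 : ℤ) : ℚ) ::
      List.replicate (s - 2) (0 : ℚ)) h1 ?_
    have h2 := poly_pz' (w := fun q : List NOp × V => q.1) (v := fun q => q.2)
      (NPC.Poly.fst NPC.Poly.id) (NPC.Poly.snd NPC.Poly.id)
    exact NPC.Poly.cons (poly_intCast (NPC.Poly.fst h2)) (NPC.Poly.cons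
      (poly_intCast (NPC.Poly.snd h2)) (NPC.Poly.const _))
  · have h3 := poly_sq (poly_mw hid)
    have h4 := poly_W2 hid
    have h5 := poly_budW hid
    have h6 : Poly (fun w => ((VL w).map (ψ' w)).sum) :=
      NPC.Poly.isum (NPC.Poly.map (F := fun w v => ψ' w v) h1
        (poly_ψ' (NPC.Poly.fst NPC.Poly.id) (NPC.Poly.snd NPC.Poly.id)))
    have h7 : Poly (fun w => (mw w ^ 2 + 1) ^ (2 * KW w)) :=
      NPC.Poly.ipow (by fun_prop) ((UPoly.const 2).mul (upoly_KW hid))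
    fun_prop

end Pool.Agent.R533.PSP
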