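import Pool.Agent.R533.PSP.Cost

/-!
# Euclidean Max-2-PSP: two Hamiltonian cycles of small cost, and rigidity of the rods
-/

namespace Pool.Agent.R533.PSP

/-- The upward edges of a Hamiltonian cycle all of whose edges join consecutive levels. -/
structure Two (S : Finset V) (A : Finset (V × V)) : Prop where
  sub : ∀ e ∈ A, e.1 ∈ S ∧ e.2 ∈ S ∧ lv e.2 = lv e.1 + 1
  deg : ∀ v ∈ S, (A.filter fun e => e.1 = v).card + (A.filter fun e => e.2 = v).card = 2
  conn : ∀ W : V → Prop, (∃ v ∈ S, W v) → (∀ e ∈ A, (W e.1 ↔ W e.2)) → ∀ v ∈ S, W v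

/-- Membership of a vertex in the group at offset `j` of the rod of slot `r` of gap `k`. -/
def inT (k j r : ℕ) (v : V) : Prop := v.1 = k ∧ v.2.1 = j ∧ v.2.2.1 = r

instance (k j r : ℕ) : DecidablePred (inT k j r) := fun v => by
  unfold inT; infer_instance

variable {h : Sh} {S : Finset V} {A B : Finset (V × V)}

open Classical in
/-- The rigid edges. -/
noncomputable def NSet (h : Sh) (S : Finset V) : Finset (V × V) :=
  (S ×ˢ S).filter fun e => lv e.2 = lv e.1 + 1 ∧ h.NS e.1 e.2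

open Classical in
theorem split (hh : h.OK) (hS : ∀ v, v ∈ S ↔ h.IsV v) (hA : Two S A) (hB : Two S B)
    (hAB : Disjoint A B) {bud : ℤ} (hbud : bud < h.M)
    (hc : ∑ e ∈ A, h.cost e.1 e.2 + ∑ e ∈ B, h.cost e.1 e.2 ≤ - h.M * (NSet h S).card + bud) :
    (∀ e ∈ NSet h S, e ∈ A ∨ e ∈ B) ∧ (∀ e ∈ A, h.NS e.1 e.2 ∨ h.ST e.1 e.2) ∧
      (∀ e ∈ B, h.NS e.1 e.2 ∨ h.ST e.1 e.2) ∧
      ∑ e ∈ A.filter (fun e => ¬ h.NS e.1 e.2), h.cost e.1 e.2 +
        ∑ e ∈ B.filter (fun e => ¬ h.NS e.1 e.2), h.cost e.1 e.2 ≤ bud := by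
  have hM := hh.M0
  set F := A ∪ B with hF
  have hcl : ∀ e ∈ F, (h.NS e.1 e.2 ∧ h.cost e.1 e.2 = - h.M) ∨
      (¬ h.NS e.1 e.2 ∧ h.ST e.1 e.2 ∧ 0 ≤ h.cost e.1 e.2) ∨
      (¬ h.NS e.1 e.2 ∧ ¬ h.ST e.1 e.2 ∧ h.M ≤ h.cost e.1 e.2) := by
    intro e he
    have h1 : e.1 ∈ S ∧ e.2 ∈ S ∧ lv e.2 = lv e.1 + 1 := by
      rcases Finset.mem_union.1 he with he | he
      · exact hA.sub e he
      · exact hB.sub e he
    rcases hh.cost_cases ((hS _).1 h1.1) ((hS _).1 h1.2.1) h1.2.2 with h2 | h2 | h2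
    · exact Or.inl h2
    · refine Or.inr (Or.inl ⟨h2.1, h2.2.1, ?_⟩)
      rw [h2.2.2]
      split_ifs
      · positivity
      · exact le_rfl
    · exact Or.inr (Or.inr h2)
  have hsumF : ∑ e ∈ F, h.cost e.1 e.2 = ∑ e ∈ A, h.cost e.1 e.2 + ∑ e ∈ B, h.cost e.1 e.2 :=
    Finset.sum_union hAB
  have hsplit := Finset.sum_filter_add_sum_filter_not F (fun e => h.NS e.1 e.2)
    (fun e => h.cost e.1 e.2)
  have h1 : ∑ e ∈ F.filter (fun e => h.NS e.1 e.2), h.cost e.1 e.2 =
      - h.M * (F.filter (fun e => h.NS e.1 e.2)).card := by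
    rw [Finset.sum_congr rfl (g := fun _ => - h.M), Finset.sum_const, nsmul_eq_mul]
    · ring
    · intro e he
      rw [Finset.mem_filter] at he
      rcases hcl e he.1 with h2 | h2 | h2
      · exact h2.2
      · exact absurd he.2 h2.1
      · exact absurd he.2 h2.1
  have hsub : F.filter (fun e => h.NS e.1 e.2) ⊆ NSet h S := by
    intro e he
    rw [Finset.mem_filter] at he
    have h1 : e.1 ∈ S ∧ e.2 ∈ S ∧ lv e.2 = lv e.1 + 1 := by
      rcases Finset.mem_union.1 he.1 with he | he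
      · exact hA.sub e he
      · exact hB.sub e he
    exact Finset.mem_filter.2 ⟨Finset.mem_product.2 ⟨h1.1, h1.2.1⟩, h1.2.2, he.2⟩
  have hle := Finset.card_le_card hsub
  have hnn : ∀ e ∈ F.filter (fun e => ¬ h.NS e.1 e.2), 0 ≤ h.cost e.1 e.2 := by
    intro e he
    rw [Finset.mem_filter] at he
    rcases hcl e he.1 with h2 | h2 | h2
    · exact absurd h2.1 he.2
    · exact h2.2.2
    · linarith [h2.2.2]
  have hrest : 0 ≤ ∑ e ∈ F.filter (fun e => ¬ h.NS e.1 e.2), h.cost e.1 e.2 :=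
    Finset.sum_nonneg hnn
  have hcard : (F.filter (fun e => h.NS e.1 e.2)).card = (NSet h S).card := by
    by_contra hne
    have hlt : ((F.filter (fun e => h.NS e.1 e.2)).card : ℤ) + 1 ≤ (NSet h S).card := by
      have : (F.filter (fun e => h.NS e.1 e.2)).card + 1 ≤ (NSet h S).card := by omega
      exact_mod_cast this
    nlinarith
  have heq := Finset.eq_of_subset_of_card_le hsub (by rw [hcard])
  have hle2 : ∑ e ∈ F.filter (fun e => ¬ h.NS e.1 e.2), h.cost e.1 e.2 ≤ bud := by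
    rw [hcard] at h1
    linarith
  have hall : ∀ e ∈ F, h.NS e.1 e.2 ∨ h.ST e.1 e.2 := by
    intro e he
    rcases hcl e he with h2 | h2 | h2
    · exact Or.inl h2.1
    · exact Or.inr h2.2.1
    · exfalso
      have := Finset.single_le_sum hnn (Finset.mem_filter.2 ⟨he, h2.1⟩)
      linarith [h2.2.2]
  refine ⟨fun e he => ?_, fun e he => hall e (Finset.mem_union_left _ he),
    fun e he => hall e (Finset.mem_union_right _ he), ?_⟩
  · rw [← heq, Finset.mem_filter] at he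
    exact Finset.mem_union.1 he.1
  · have hd : Disjoint (A.filter fun e => ¬ h.NS e.1 e.2) (B.filter fun e => ¬ h.NS e.1 e.2) :=
      Finset.disjoint_filter_filter hAB
    rw [← Finset.sum_union hd, ← Finset.filter_union]
    exact hle2

/-! ### Rods -/

/-- Edges of `A` starting in a group. -/
def nU (A : Finset (V × V)) (k j r : ℕ) : ℕ := (A.filter fun e => inT k j r e.1).card

/-- Edges of `A` ending in a group. -/
def nD (A : Finset (V × V)) (k j r : ℕ) : ℕ := (A.filter fun e => inT k j r e.2).card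

theorem mem_group (hS : ∀ v, v ∈ S ↔ h.IsV v) {k j r : ℕ} (hj : 1 ≤ j) (hj8 : j < 8)
    (hr : r < h.len k) (v : V) : (v ∈ S ∧ inT k j r v) ↔ ∃ q < wd j, v = (k, j, r, q) := by
  rw [hS]
  obtain ⟨k', j', r', q⟩ := v
  simp only [inT, Sh.IsV, Prod.mk.injEq]
  constructor
  · rintro ⟨h1 | h1, h2, h3, h4⟩
    · omega
    · subst h2 h3 h4
      exact ⟨q, h1.2.2.2, rfl, rfl, rfl, rfl⟩
  · rintro ⟨q', hq', rfl, rfl, rfl, rfl⟩
    exact ⟨Or.inr ⟨hj, hj8, hr, hq'⟩, rfl, rfl, rfl⟩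

/-- The degree sum of a group. -/
theorem group_sum (hS : ∀ v, v ∈ S ↔ h.IsV v) (hA : Two S A) {k j r : ℕ} (hj : 1 ≤ j)
    (hj8 : j < 8) (hr : r < h.len k) : nU A k j r + nD A k j r = 2 * wd j := by
  classical
  set G : Finset V := (Finset.range (wd j)).image fun q => (k, j, r, q) with hG
  have hGm : ∀ v, v ∈ G ↔ (v ∈ S ∧ inT k j r v) := by
    intro v
    rw [mem_group hS hj hj8 hr, hG, Finset.mem_image]
    constructor
    · rintro ⟨q, hq, rfl⟩
      exact ⟨q, Finset.mem_range.1 hq, rfl⟩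
    · rintro ⟨q, hq, rfl⟩
      exact ⟨q, Finset.mem_range.2 hq, rfl⟩
  have hGc : G.card = wd j := by
    rw [hG, Finset.card_image_of_injective, Finset.card_range]
    intro q q' hq
    simpa using hq
  have e1 : nU A k j r = ∑ v ∈ G, (A.filter fun e => e.1 = v).card := by
    unfold nU
    rw [Finset.card_eq_sum_card_fiberwise (f := fun e : V × V => e.1) (t := G)]
    · refine Finset.sum_congr rfl fun v hv => ?_
      congr 1
      ext e
      simp only [Finset.mem_filter]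
      constructor
      · rintro ⟨⟨a1, a2⟩, a3⟩
        exact ⟨a1, a3⟩
      · rintro ⟨a1, a3⟩
        exact ⟨⟨a1, a3 ▸ ((hGm v).1 hv).2⟩, a3⟩
    · intro e he
      have he' := Finset.mem_filter.1 (Finset.mem_coe.1 he)
      exact Finset.mem_coe.2 ((hGm _).2 ⟨(hA.sub e he'.1).1, he'.2⟩)
  have e2 : nD A k j r = ∑ v ∈ G, (A.filter fun e => e.2 = v).card := by
    unfold nD
    rw [Finset.card_eq_sum_card_fiberwise (f := fun e : V × V => e.2) (t := G)]
    · refine Finset.sum_congr rfl fun v hv => ?_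
      congr 1
      ext e
      simp only [Finset.mem_filter]
      constructor
      · rintro ⟨⟨a1, a2⟩, a3⟩
        exact ⟨a1, a3⟩
      · rintro ⟨a1, a3⟩
        exact ⟨⟨a1, a3 ▸ ((hGm v).1 hv).2⟩, a3⟩
    · intro e he
      have he' := Finset.mem_filter.1 (Finset.mem_coe.1 he)
      exact Finset.mem_coe.2 ((hGm _).2 ⟨(hA.sub e he'.1).2.1, he'.2⟩)
  rw [e1, e2, ← Finset.sum_add_distrib, Finset.sum_congr rfl (g := fun _ => 2), Finset.sum_const,
    hGc, smul_eq_mul, mul_comm]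
  intro v hv
  exact hA.deg v ((hGm v).1 hv).1

/-- Edges into a group come from the group below. -/
theorem nD_eq_nU (hN : ∀ e ∈ A, h.NS e.1 e.2 ∨ h.ST e.1 e.2) {k j r : ℕ} (hj : 1 ≤ j)
    (hj6 : j ≤ 6) : nD A k (j + 1) r = nU A k j r := by
  unfold nD nU
  congr 1
  ext e
  simp only [Finset.mem_filter]
  refine and_congr_right fun he => ?_
  unfold inT
  rcases hN e he with h1 | h1
  · rcases h1 with h1 | h1
    · obtain ⟨h1, h2, h3, h4, h5⟩ := h1
      rw [h3, h4, h5]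
      constructor
      · rintro ⟨a1, a2, a3⟩; exact ⟨a1, by omega, a3⟩
      · rintro ⟨a1, a2, a3⟩; exact ⟨a1, by omega, a3⟩
    · obtain ⟨h1, h2, h3, h4⟩ := h1
      rw [h1, h3]
      constructor
      · rintro ⟨a1, a2, a3⟩; omega
      · rintro ⟨a1, a2, a3⟩; omega
  · obtain ⟨h1, h2, h3, h4, h5⟩ := h1
    rw [h1, h3]
    constructor
    · rintro ⟨a1, a2, a3⟩; omega
    · rintro ⟨a1, a2, a3⟩; omega

theorem rod_count (hS : ∀ v, v ∈ S ↔ h.IsV v) (hA : Two S A)
    (hN : ∀ e ∈ A, h.NS e.1 e.2 ∨ h.ST e.1 e.2) {k r : ℕ} (hr : r < h.len k) :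
    nU A k 3 r + nD A k 1 r = 2 ∧ nU A k 7 r + nD A k 1 r = 2 := by
  have g : ∀ j, 1 ≤ j → j < 8 → nU A k j r + nD A k j r = 2 * wd j := fun j h1 h2 =>
    group_sum hS hA h1 h2 hr
  have e : ∀ j, 1 ≤ j → j ≤ 6 → nD A k (j + 1) r = nU A k j r := fun j h1 h2 =>
    nD_eq_nU hN h1 h2
  have g1 := g 1 (by omega) (by omega)
  have g2 := g 2 (by omega) (by omega)
  have g3 := g 3 (by omega) (by omega)
  have g4 := g 4 (by omega) (by omega)
  have g5 := g 5 (by omega) (by omega)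
  have g6 := g 6 (by omega) (by omega)
  have g7 := g 7 (by omega) (by omega)
  have e1 := e 1 (by omega) (by omega)
  have e2 := e 2 (by omega) (by omega)
  have e3 := e 3 (by omega) (by omega)
  have e4 := e 4 (by omega) (by omega)
  have e5 := e 5 (by omega) (by omega)
  have e6 := e 6 (by omega) (by omega)
  simp only [wd] at g1 g2 g3 g4 g5 g6 g7
  norm_num at g1 g2 g3 g4 g5 g6 g7 e1 e2 e3 e4 e5 e6
  omega

theorem rod_ne_two (hS : ∀ v, v ∈ S ↔ h.IsV v) (hA : Two S A)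
    (hN : ∀ e ∈ A, h.NS e.1 e.2 ∨ h.ST e.1 e.2) {k r : ℕ} (hr : r < h.len k) :
    nD A k 1 r ≠ 2 := by
  intro h2
  obtain ⟨c3, c7⟩ := rod_count hS hA hN hr
  have d3 : nU A k 3 r = 0 := by omega
  have d7 : nU A k 7 r = 0 := by omega
  have key : ∀ j, nU A k j r = 0 → ∀ e ∈ A, ¬ inT k j r e.1 := by
    intro j hj e he hc
    unfold nU at hj
    rw [Finset.card_eq_zero, Finset.filter_eq_empty_iff] at hj
    exact hj he hc
  have k3 := key 3 d3
  have k7 := key 7 d7
  have hW := hA.conn (fun v => v.1 = k ∧ v.2.2.1 = r ∧ 4 ≤ v.2.1 ∧ v.2.1 ≤ 7)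
    ⟨(k, 4, r, 0), (hS _).2 (Or.inr ⟨by simp, by simp, hr, by simp [wd]⟩), rfl, rfl, by simp,
      by simp⟩ (by
    intro e he
    have n3 := k3 e he
    have n7 := k7 e he
    unfold inT at n3 n7
    rcases hN e he with h1 | h1
    · rcases h1 with h1 | h1
      · obtain ⟨h1, h2, h3, h4, h5⟩ := h1
        rw [h3, h4, h5]
        constructor
        · rintro ⟨a1, a2, a3, a4⟩; exact ⟨a1, a2, by omega, by omega⟩
        · rintro ⟨a1, a2, a3, a4⟩
          refine ⟨a1, a2, ?_, by omega⟩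
          by_contra hc
          exact n3 ⟨a1, by omega, a2⟩
      · obtain ⟨h1, h2, h3, h4⟩ := h1
        rw [h3]
        constructor
        · rintro ⟨a1, a2, a3, a4⟩; exact absurd ⟨a1, h1, a2⟩ n7
        · rintro ⟨a1, a2, a3, a4⟩; omega
    · obtain ⟨h1, h2, h3, h4, h5⟩ := h1
      rw [h1, h3]
      constructor
      · rintro ⟨a1, a2, a3, a4⟩; omega
      · rintro ⟨a1, a2, a3, a4⟩; omega)
    (k, 1, r, 0) ((hS _).2 (Or.inr ⟨by simp, by simp, hr, by simp [wd]⟩))
  have := hW.2.2.1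
  simp only at this
  omega

/-- The two edges from the site into a rod. -/
theorem rod_sum (hS : ∀ v, v ∈ S ↔ h.IsV v) (hA : Two S A) (hB : Two S B) (hAB : Disjoint A B)
    (hF : ∀ e ∈ NSet h S, e ∈ A ∨ e ∈ B) (hNA : ∀ e ∈ A, h.NS e.1 e.2 ∨ h.ST e.1 e.2)
    (hNB : ∀ e ∈ B, h.NS e.1 e.2 ∨ h.ST e.1 e.2) {k r : ℕ} (hr : r < h.len k) :
    nD A k 1 r + nD B k 1 r = 2 := by
  classical
  have gA := group_sum hS hA (j := 1) le_rfl (by omega) hr
  have gB := group_sum hS hB (j := 1) le_rfl (by omega) hr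
  have hU : nU A k 1 r + nU B k 1 r = 6 := by
    unfold nU
    have hd : Disjoint (A.filter fun e => inT k 1 r e.1) (B.filter fun e => inT k 1 r e.1) :=
      Finset.disjoint_filter_filter hAB
    rw [← Finset.card_union_of_disjoint hd, ← Finset.filter_union]
    have : (A ∪ B).filter (fun e => inT k 1 r e.1) =
        ((Finset.range 2) ×ˢ (Finset.range 3)).image
          fun p : ℕ × ℕ => (((k, 1, r, p.1), (k, 2, r, p.2)) : V × V) := by
      ext e
      rw [Finset.mem_filter, Finset.mem_union, Finset.mem_image]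
      constructor
      · rintro ⟨he, hT⟩
        have hsub : e.1 ∈ S ∧ e.2 ∈ S ∧ lv e.2 = lv e.1 + 1 := by
          rcases he with he | he
          · exact hA.sub e he
          · exact hB.sub e he
        have hN : h.NS e.1 e.2 ∨ h.ST e.1 e.2 := by
          rcases he with he | he
          · exact hNA e he
          · exact hNB e he
        obtain ⟨q, hq, hq1⟩ := (mem_group hS le_rfl (by omega) hr e.1).1 ⟨hsub.1, hT⟩
        have h2 : inT k 2 r e.2 := by
          rcases hN with h1 | h1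
          · rcases h1 with h1 | h1
            · exact ⟨by rw [h1.2.2.1, hT.1], by rw [h1.2.2.2.1, hT.2.1],
                by rw [h1.2.2.2.2, hT.2.2]⟩
            · have := hT.2.1; omega
          · have := hT.2.1
            have := h1.1
            omega
        obtain ⟨q', hq', hq2⟩ := (mem_group hS (by omega : 1 ≤ 2) (by omega) hr e.2).1
          ⟨hsub.2.1, h2⟩
        refine ⟨(q, q'), Finset.mem_product.2 ⟨Finset.mem_range.2 hq, Finset.mem_range.2 hq'⟩, ?_⟩
        exact Prod.ext hq1.symm hq2.symm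
      · rintro ⟨⟨q, q'⟩, hq, rfl⟩
        rw [Finset.mem_product, Finset.mem_range, Finset.mem_range] at hq
        refine ⟨hF _ (Finset.mem_filter.2 ⟨Finset.mem_product.2 ⟨?_, ?_⟩, ?_, ?_⟩), rfl, rfl, rfl⟩
        · exact (hS _).2 (Or.inr ⟨by simp, by simp, hr, by simpa [wd] using hq.1⟩)
        · exact (hS _).2 (Or.inr ⟨by simp, by simp, hr, by simpa [wd] using hq.2⟩)
        · simp [lv]
        · exact Or.inl ⟨by simp, by simp, rfl, rfl, rfl⟩
    rw [this, Finset.card_image_of_injective]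
    · simp
    · rintro ⟨q1, q2⟩ ⟨q3, q4⟩ hq
      simp only [Prod.mk.injEq] at hq
      exact Prod.ext hq.1.2.2.2 hq.2.2.2.2
  simp only [wd] at gA gB
  norm_num at gA gB
  omega

/-- Every rod is entered once, and left once at its top, by each of the two cycles. -/
theorem rod_one (hS : ∀ v, v ∈ S ↔ h.IsV v) (hA : Two S A) (hB : Two S B) (hAB : Disjoint A B)
    (hF : ∀ e ∈ NSet h S, e ∈ A ∨ e ∈ B) (hNA : ∀ e ∈ A, h.NS e.1 e.2 ∨ h.ST e.1 e.2)
    (hNB : ∀ e ∈ B, h.NS e.1 e.2 ∨ h.ST e.1 e.2) {k r : ℕ} (hr : r < h.len k) :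
    nD A k 1 r = 1 ∧ nU A k 7 r = 1 := by
  have h1 := rod_ne_two hS hA hNA hr
  have h2 := rod_ne_two hS hB hNB hr
  have h3 := rod_sum hS hA hB hAB hF hNA hNB hr
  have h4 := (rod_count hS hA hNA hr).2
  omega

end Pool.Agent.R533.PSP
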