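import Pool.Agent.R533.PSP.Monge

/-!
# Euclidean Max-2-PSP: shapes, vertices and costs
-/

namespace Pool.Agent.R533.PSP

/-- The numerical data of a layered slot system. -/
structure Sh where
  len : ℕ → ℕ
  o : ℕ → ℕ → ℕ
  i : ℕ → ℕ → ℕ
  og : ℕ → Bool
  D : ℤ
  M : ℤ
  B : ℤ

/-- Vertices: gap, offset, slot or position, index. -/
abbrev V : Type := ℕ × ℕ × ℕ × ℕ

/-- The level of a vertex. -/
def lv (v : V) : ℕ := 8 * v.1 + v.2.1

/-- Number of vertices of a rod at offset `j`. -/
def wd (j : ℕ) : ℕ := if j = 4 then 1 else if j = 2 ∨ j = 6 then 3 else 2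

/-- The number of slots below `n` with value less than `p`. -/
def cl (f : ℕ → ℕ) (n p : ℕ) : ℕ := ((List.range n).filter fun r => decide (f r < p)).length

namespace Sh

variable (h : Sh)

/-- Horizontal coordinate of a location. -/
def xl (k p : ℕ) : ℤ := if h.og k = true then (p : ℤ) else h.D * p

/-- Horizontal coordinate of a rod vertex. -/
def xr (k j r : ℕ) : ℤ :=
  if h.og k = true ∧ j = 1 then (h.o k r : ℤ) else h.D * (h.o k r + h.i k r : ℕ)

/-- Lower ends of the slots between the offsets `j` and `j + 1` of gap `k`. -/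
def a (k j r : ℕ) : ℤ := if j = 0 then h.xl k (h.o k r) else h.xr k j r

/-- Upper ends. -/
def b (k j r : ℕ) : ℤ := if j = 7 then h.xl (k + 1) (h.i k r) else h.xr k (j + 1) r

def Pg (k j r : ℕ) : ℤ :=
  h.a k j r ^ 2 - al (h.a k j) (h.b k j) r + (if j = 0 then 0 else h.M)

def Qg (k j r : ℕ) : ℤ := h.b k j r ^ 2 - be (h.a k j) (h.b k j) r

/-- `p` is the position of a lower end of gap `k`. -/
def isLo (k p : ℕ) : Bool := ((List.range (h.len k)).map fun r => h.o k r).elem p

/-- `p` is the position of an upper end of the gap before gap `k`. -/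
def isUp (k p : ℕ) : Bool := ((List.range (h.len (k - 1))).map fun r => h.i (k - 1) r).elem p

/-- Horizontal coordinates. -/
def X (v : V) : ℤ := if v.2.1 = 0 then h.xl v.1 v.2.2.1 else h.xr v.1 v.2.1 v.2.2.1

/-- Upward potentials. -/
def P (v : V) : ℤ :=
  if v.2.1 = 0 then
    (if h.isLo v.1 v.2.2.1 = true then
      h.Pg v.1 0 (cl (fun r => h.o v.1 r) (h.len v.1) v.2.2.1) else - h.B)
  else h.Pg v.1 v.2.1 v.2.2.1

/-- Downward potentials. -/
def Q (v : V) : ℤ :=
  if v.2.1 = 0 then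
    (if h.isUp v.1 v.2.2.1 = true then
      h.Qg (v.1 - 1) 7 (cl (fun r => h.i (v.1 - 1) r) (h.len (v.1 - 1)) v.2.2.1) else - h.B)
  else h.Qg v.1 (v.2.1 - 1) v.2.2.1

/-- The cost of a pair of vertices of consecutive levels. -/
def cost (v w : V) : ℤ := (h.X v - h.X w) ^ 2 - h.P v - h.Q w

/-- The vertices. -/
def IsV (v : V) : Prop :=
  (v.2.1 = 0 ∧ v.2.2.2 = 0 ∧ (h.isLo v.1 v.2.2.1 = true ∨ h.isUp v.1 v.2.2.1 = true)) ∨
    (1 ≤ v.2.1 ∧ v.2.1 < 8 ∧ v.2.2.1 < h.len v.1 ∧ v.2.2.2 < wd v.2.1)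

/-- The rigid edges. -/
def NS (v w : V) : Prop :=
  (1 ≤ v.2.1 ∧ v.2.1 ≤ 6 ∧ w.1 = v.1 ∧ w.2.1 = v.2.1 + 1 ∧ w.2.2.1 = v.2.2.1) ∨
    (v.2.1 = 7 ∧ w.1 = v.1 + 1 ∧ w.2.1 = 0 ∧ w.2.2.1 = h.i v.1 v.2.2.1)

/-- The edges at the sites. -/
def ST (v w : V) : Prop :=
  v.2.1 = 0 ∧ w.1 = v.1 ∧ w.2.1 = 1 ∧ h.isLo v.1 v.2.2.1 = true ∧
    (h.og v.1 = true ∨ h.o v.1 w.2.2.1 = v.2.2.1)

/-- The axioms needed for the costs. -/
structure OK : Prop where
  len0 : h.len 0 = 0
  omono : ∀ k r, r + 1 < h.len k → h.o k r ≤ h.o k (r + 1)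
  imono : ∀ k r, r + 1 < h.len k → h.i k r ≤ h.i k (r + 1)
  smono : ∀ k r, r + 1 < h.len k → h.o k r < h.o k (r + 1) ∨ h.i k r < h.i k (r + 1)
  ogi : ∀ k, h.og k = true → ∀ r, r < h.len k → h.i k r = h.o k r
  M0 : 0 < h.M
  D2 : 2 * h.M ≤ h.D
  hB : ∀ k j r, j < 8 → r < h.len k → h.Pg k j r + h.M ≤ h.B ∧ h.Qg k j r + h.M ≤ h.B

variable {h}

theorem isLo_iff {k p : ℕ} : h.isLo k p = true ↔ ∃ r < h.len k, h.o k r = p := by
  unfold isLo
  rw [List.elem_iff]
  simp

theorem isUp_iff {k p : ℕ} : h.isUp k p = true ↔ ∃ r < h.len (k - 1), h.i (k - 1) r = p := by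
  unfold isUp
  rw [List.elem_iff]
  simp

end Sh

theorem cl_spec {f : ℕ → ℕ} {n p : ℕ} (hf : ∀ s, s + 1 < n → f s ≤ f (s + 1)) {r : ℕ}
    (hr : r < n) (hp : f r = p) : cl f n p < n ∧ f (cl f n p) = p := by
  classical
  have hex : ∃ s, s < n ∧ f s = p := ⟨r, hr, hp⟩
  obtain ⟨r0, ⟨h1, h2⟩, h5⟩ : ∃ r0, (r0 < n ∧ f r0 = p) ∧ ∀ m < r0, ¬ (m < n ∧ f m = p) :=
    ⟨Nat.find hex, Nat.find_spec hex, fun m hm => Nat.find_min hex hm⟩
  have hmono : ∀ s s', s ≤ s' → s' < n → f s ≤ f s' := by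
    intro s s' h h'
    induction s', h using Nat.le_induction with
    | base => exact le_rfl
    | succ m hm ih => exact (ih (by omega)).trans (hf m h')
  have key : ∀ s, s < n → (f s < p ↔ s < r0) := by
    intro s hs
    constructor
    · intro hlt
      by_contra hc
      have := hmono r0 s (by omega) hs
      omega
    · intro hlt
      have h3 := hmono s r0 hlt.le h1
      have h4 := h5 s hlt
      rcases Nat.lt_or_ge (f s) p with h6 | h6
      · exact h6
      · exact absurd ⟨hs, by omega⟩ h4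
  have e1 : cl f n p = r0 := by
    unfold cl
    have e2 : (List.range n).filter (fun r => decide (f r < p)) =
        (List.range n).filter (fun r => decide (r < r0)) := by
      apply List.filter_congr
      intro s hs
      rw [List.mem_range] at hs
      simp only [key s hs]
    rw [e2, ← List.toFinset_card_of_nodup (List.nodup_range.filter _)]
    have e3 : ((List.range n).filter (fun r => decide (r < r0))).toFinset = Finset.range r0 := by
      ext s
      simp only [List.mem_toFinset, List.mem_filter, List.mem_range, decide_eq_true_eq,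
        Finset.mem_range]
      omega
    rw [e3, Finset.card_range]
  rw [e1]
  exact ⟨h1, h2⟩

namespace Sh

variable {h : Sh}

theorem OK.Dpos (hh : h.OK) : 0 < h.D := by
  have := hh.M0
  have := hh.D2
  omega

theorem OK.ostrict (hh : h.OK) {k : ℕ} (hk : h.og k = true) {r : ℕ} (hr : r + 1 < h.len k) :
    h.o k r < h.o k (r + 1) := by
  have h1 := hh.smono k r hr
  rw [hh.ogi k hk r (by omega), hh.ogi k hk (r + 1) hr] at h1
  omega

theorem a_zero_og {k : ℕ} (hk : h.og k = true) : h.a k 0 = fun r => (h.o k r : ℤ) := by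
  funext r
  simp [a, xl, hk]

theorem b_zero_og {k : ℕ} (hk : h.og k = true) : h.b k 0 = fun r => (h.o k r : ℤ) := by
  funext r
  simp [b, xr, hk]

/-- All gaps but the sites of swaps have separated sequences. -/
theorem OK.seqs (hh : h.OK) {k j : ℕ} (hj : j < 8) (hs : ¬ (h.og k = true ∧ j = 0)) :
    Seqs (h.len k) (h.a k j) (h.b k j) h.D := by
  have hD := hh.Dpos
  have hD1 : 1 ≤ h.D := hD
  have hom := hh.omono k
  have him := hh.imono k
  have hsm := hh.smono k
  have strictR : ∀ j', 1 ≤ j' → ∀ s, s + 1 < h.len k → h.xr k j' s + (if h.og k = true ∧ j' = 1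
      then 1 else h.D) ≤ h.xr k j' (s + 1) := by
    intro j' hj' s hs'
    unfold xr
    split_ifs with hc
    · have := hh.ostrict hc.1 hs'
      push_cast; omega
    · have h1 := hom s hs'
      have h2 := him s hs'
      have h3 := hsm s hs'
      have : h.o k s + h.i k s + 1 ≤ h.o k (s + 1) + h.i k (s + 1) := by omega
      have : ((h.o k s + h.i k s : ℕ) : ℤ) + 1 ≤ ((h.o k (s + 1) + h.i k (s + 1) : ℕ) : ℤ) := by
        exact_mod_cast this
      nlinarith
  by_cases hj7 : j = 7
  · subst hj7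
    have ea : ∀ s, h.a k 7 s = h.xr k 7 s := fun s => by simp [a]
    have eb : ∀ s, h.b k 7 s = h.xl (k + 1) (h.i k s) := fun s => by simp [b]
    have ha : ∀ s, s + 1 < h.len k → h.a k 7 s + h.D ≤ h.a k 7 (s + 1) := by
      intro s hs'
      have := strictR 7 (by omega) s hs'
      rw [ea, ea]
      simpa using this
    have hb : ∀ s, s + 1 < h.len k → h.b k 7 s ≤ h.b k 7 (s + 1) := by
      intro s hs'
      rw [eb, eb]
      have := him s hs'
      have h2 : (h.i k s : ℤ) ≤ (h.i k (s + 1) : ℤ) := by exact_mod_cast this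
      unfold xl
      split_ifs
      · exact h2
      · exact mul_le_mul_of_nonneg_left h2 hD.le
    refine ⟨fun s hs' => by linarith [ha s hs'], hb, Or.inl fun s hs' => by linarith [ha s hs'],
      fun s hs' _ h2 => ?_⟩
    have h3 := ha s hs'
    have h4 : 1 ≤ h.b k 7 (s + 1) - h.b k 7 s := by omega
    nlinarith
  · have eb : ∀ s, h.b k j s = h.xr k (j + 1) s := fun s => by simp [b, hj7]
    have hb : ∀ s, s + 1 < h.len k → h.b k j s + (if h.og k = true ∧ j + 1 = 1 then 1 else h.D) ≤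
        h.b k j (s + 1) := by
      intro s hs'
      rw [eb, eb]
      exact strictR (j + 1) (by omega) s hs'
    have hb' : ∀ s, s + 1 < h.len k → h.b k j s + h.D ≤ h.b k j (s + 1) := by
      intro s hs'
      have h1 := hb s hs'
      have h2 : ¬ (h.og k = true ∧ j + 1 = 1) := by
        rintro ⟨c1, c2⟩
        exact hs ⟨c1, by omega⟩
      rwa [if_neg h2] at h1
    have ha : ∀ s, s + 1 < h.len k → h.a k j s ≤ h.a k j (s + 1) := by
      intro s hs'
      unfold a
      split_ifs with hj0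
      · have := hom s hs'
        have h2 : (h.o k s : ℤ) ≤ (h.o k (s + 1) : ℤ) := by exact_mod_cast this
        unfold xl
        split_ifs
        · exact h2
        · exact mul_le_mul_of_nonneg_left h2 hD.le
      · have := strictR j (by omega) s hs'
        split_ifs at this <;> linarith
    refine ⟨ha, fun s hs' => by linarith [hb' s hs'], Or.inr fun s hs' => by
      linarith [hb' s hs'], fun s hs' h1 _ => ?_⟩
    have h3 := hb' s hs'
    have h4 : 1 ≤ h.a k j (s + 1) - h.a k j s := by omega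
    nlinarith

end Sh

end Pool.Agent.R533.PSP
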