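import Pool.Agent.R533.PSP.Rod
import Pool.Agent.R533.PSP.Perm
import Pool.Agent.R533.PSP.CardConn
import Pool.Agent.H820R2.MS.Link

/-!
# Euclidean Max-2-PSP: two cheap disjoint Hamiltonian cycles give a connecting choice of swaps
-/

namespace Pool.Agent.R533.PSP

open Pool.Agent.H820R2.MS

/-- The numerical data `h` belongs to the slot system `s`. -/
structure Fit {Γ : Type} (s : Sys Γ) (h : Sh) (K : ℕ) : Prop where
  ok : h.OK
  good : s.Good
  len : ∀ k, h.len k = s.len k
  o : ∀ k r, h.o k r = s.o k r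
  i : ∀ k r, h.i k r = s.i k r
  og : ∀ k, h.og k = true ↔ ∃ r, s.op k r
  top : ∀ k, K ≤ k → s.len k = 0

/-- The rigid situation of one colour. -/
structure Rig (h : Sh) (S : Finset V) (A : Finset (V × V)) : Prop where
  hS : ∀ v, v ∈ S ↔ h.IsV v
  two : Two S A
  ns : ∀ e ∈ A, h.NS e.1 e.2 ∨ h.ST e.1 e.2
  d1 : ∀ k r, r < h.len k → nD A k 1 r = 1
  u7 : ∀ k r, r < h.len k → nU A k 7 r = 1

variable {Γ : Type} {s : Sys Γ} {h : Sh} {K : ℕ} {S : Finset V} {A : Finset (V × V)}

theorem loc_mem (hf : Fit s h K) (hS : ∀ v, v ∈ S ↔ h.IsV v) {k r : ℕ} (hr : r < s.len k) :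
    ((k, 0, s.o k r, 0) : V) ∈ S := by
  rw [hS]
  refine Or.inl ⟨rfl, rfl, Or.inl ?_⟩
  rw [Sh.isLo_iff]
  exact ⟨r, by rw [hf.len]; exact hr, hf.o k r⟩

/-- At the sites of swaps every lower location has one upward edge of each colour. -/
theorem up_one (hf : Fit s h K) (hR : Rig h S A) {k r : ℕ} (hk : h.og k = true)
    (hr : r < s.len k) : (A.filter fun e => e.1 = ((k, 0, s.o k r, 0) : V)).card = 1 := by
  classical
  have hs := hf.good
  obtain ⟨r0, hop⟩ := (hf.og k).1 hk
  obtain ⟨k, rfl⟩ : ∃ k', k = k' + 1 := by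
    cases k with
    | zero => rw [hs.len_zero] at hr; omega
    | succ k => exact ⟨k, rfl⟩
  have hst : ∀ q, q + 1 < s.len (k + 1) → s.o (k + 1) q < s.o (k + 1) (q + 1) := fun q hq =>
    (hs.op_strict hop hq).1
  obtain ⟨r', hr', h1, -, h3⟩ | ⟨r', hr', h1, h2, -⟩ := hs.lower hr
  swap
  · exact absurd (smono_inj hst hr' hr h2) h1
  have hdn : (A.filter fun e => e.2 = ((k + 1, 0, s.o (k + 1) r, 0) : V)).card =
      nU A k 7 r' := by
    unfold nU
    congr 1
    ext e
    simp only [Finset.mem_filter]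
    refine and_congr_right fun he => ?_
    obtain ⟨he1, he2, hlv⟩ := hR.two.sub e he
    constructor
    · intro hv
      rcases hR.ns e he with h4 | h4
      · rcases h4 with h4 | h4
        · obtain ⟨a1, a2, a3, a4, a5⟩ := h4
          rw [hv] at a4
          simp only at a4
          omega
        · obtain ⟨a1, a2, a3, a4⟩ := h4
          rw [hv] at a2 a4
          simp only at a2 a4
          refine ⟨by omega, a1, ?_⟩
          have hk' : e.1.1 = k := by omega
          have hlt : e.1.2.2.1 < s.len k := by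
            rcases (hR.hS _).1 he1 with h5 | h5
            · omega
            · rw [← hf.len, ← hk']; exact h5.2.2.1
          rw [hf.i, hk'] at a4
          rcases hs.upper hr' with ⟨q, hq, b1, b2, b3, b4⟩ | ⟨q, hq, b1, b2, b3, b4, b5⟩
          · exact b4 _ hlt (by rw [← a4, h1])
          · exact absurd h1.symm (b5 r hr)
      · have := h4.2.2.1
        rw [hv] at this
        simp only at this
        omega
    · rintro ⟨a1, a2, a3⟩
      rcases hR.ns e he with h4 | h4
      · rcases h4 with h4 | h4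
        · have := h4.2.1
          omega
        · obtain ⟨b1, b2, b3, b4⟩ := h4
          rw [a1, a3, hf.i, h1] at b4
          rw [a1] at b2
          have hq : e.2.2.2.2 = 0 := by
            rcases (hR.hS _).1 he2 with h5 | h5
            · exact h5.2.1
            · omega
          exact Prod.ext b2 (Prod.ext b3 (Prod.ext b4 hq))
      · have := h4.1
        omega
  have := hR.two.deg _ (loc_mem hf hR.hS hr)
  have := hR.u7 k r' (by rw [hf.len]; exact hr')
  omega

/-- The swaps of one colour. -/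
theorem exists_perm (hf : Fit s h K) (hR : Rig h S A) :
    ∃ E : ℕ → ℕ → V × V, ∀ k, h.og k = true →
      (∀ r < s.len k, E k r ∈ A ∧ (E k r).1 = (k, 0, s.o k r, 0) ∧ (E k r).2.1 = k ∧
        (E k r).2.2.1 = 1 ∧ (∀ e ∈ A, e.1 = ((k, 0, s.o k r, 0) : V) → e = E k r) ∧
        (E k r).2.2.2.1 < s.len k) ∧
      (∀ r < s.len k, ∀ r' < s.len k, (E k r).2.2.2.1 = (E k r').2.2.2.1 → r = r') := by
  classical
  have hex : ∀ k r, ∃ e : V × V, h.og k = true → r < s.len k → e ∈ A ∧
      e.1 = (k, 0, s.o k r, 0) ∧ e.2.1 = k ∧ e.2.2.1 = 1 ∧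
      (∀ e' ∈ A, e'.1 = ((k, 0, s.o k r, 0) : V) → e' = e) ∧ e.2.2.2.1 < s.len k := by
    intro k r
    by_cases hk : h.og k = true ∧ r < s.len k
    · obtain ⟨e, he⟩ := Finset.card_eq_one.1 (up_one hf hR hk.1 hk.2)
      have he' : e ∈ A.filter fun e => e.1 = ((k, 0, s.o k r, 0) : V) := by rw [he]; simp
      rw [Finset.mem_filter] at he'
      refine ⟨e, fun _ _ => ⟨he'.1, he'.2, ?_, ?_, ?_, ?_⟩⟩
      · rcases hR.ns e he'.1 with h1 | h1
        · rcases h1 with h1 | h1
          · have := h1.1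
            rw [he'.2] at this; simp only at this; omega
          · have := h1.1
            rw [he'.2] at this; simp only at this; omega
        · rw [h1.2.1, he'.2]
      · rcases hR.ns e he'.1 with h1 | h1
        · rcases h1 with h1 | h1
          · have := h1.1
            rw [he'.2] at this; simp only at this; omega
          · have := h1.1
            rw [he'.2] at this; simp only at this; omega
        · exact h1.2.2.1
      · intro e' h1 h2
        have : e' ∈ A.filter fun e => e.1 = ((k, 0, s.o k r, 0) : V) :=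
          Finset.mem_filter.2 ⟨h1, h2⟩
        rw [he] at this
        simpa using this
      · rcases hR.ns e he'.1 with h1 | h1
        · rcases h1 with h1 | h1
          · have := h1.1
            rw [he'.2] at this; simp only at this; omega
          · have := h1.1
            rw [he'.2] at this; simp only at this; omega
        · have h2 := h1.2.1
          have h3 := h1.2.2.1
          rw [he'.2] at h2
          simp only at h2
          rcases (hR.hS _).1 (hR.two.sub e he'.1).2.1 with h5 | h5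
          · have := h5.1
            omega
          · have := h5.2.2.1
            rw [h2, hf.len] at this
            exact this
    · exact ⟨((0, 0, 0, 0), (0, 0, 0, 0)), fun h1 h2 => absurd ⟨h1, h2⟩ hk⟩
  choose E hE using hex
  refine ⟨E, fun k hk => ⟨fun r hr => hE k r hk hr, fun r hr r' hr' heq => ?_⟩⟩
  obtain ⟨a1, a2, a3, a4, a5, a6⟩ := hE k r hk hr
  obtain ⟨b1, b2, b3, b4, b5, b6⟩ := hE k r' hk hr'
  have h1 := hR.d1 k (E k r).2.2.2.1 (by rw [hf.len]; exact a6)
  unfold nD at h1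
  obtain ⟨e, he⟩ := Finset.card_eq_one.1 h1
  have m1 : E k r ∈ A.filter fun e => inT k 1 (E k r).2.2.2.1 e.2 :=
    Finset.mem_filter.2 ⟨a1, a3, a4, rfl⟩
  have m2 : E k r' ∈ A.filter fun e => inT k 1 (E k r).2.2.2.1 e.2 :=
    Finset.mem_filter.2 ⟨b1, b3, b4, heq.symm⟩
  rw [he, Finset.mem_singleton] at m1 m2
  have h2 : (E k r).1 = (E k r').1 := by rw [m1, m2]
  rw [a2, b2] at h2
  have h3 : s.o k r = s.o k r' := by simpa using h2
  obtain ⟨r0, hop⟩ := (hf.og k).1 hk
  exact smono_inj (fun q hq => (hf.good.op_strict hop hq).1) hr hr' h3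

/-- Closed sets of labels give closed sets of vertices. -/
theorem closed_labels (hf : Fit s h K) (hR : Rig h S A) {E : ℕ → ℕ → V × V}
    (hE : ∀ k, h.og k = true →
      (∀ r < s.len k, E k r ∈ A ∧ (E k r).1 = (k, 0, s.o k r, 0) ∧ (E k r).2.1 = k ∧
        (E k r).2.2.1 = 1 ∧ (∀ e ∈ A, e.1 = ((k, 0, s.o k r, 0) : V) → e = E k r) ∧
        (E k r).2.2.2.1 < s.len k) ∧
      (∀ r < s.len k, ∀ r' < s.len k, (E k r).2.2.2.1 = (E k r').2.2.2.1 → r = r'))
    (L : Γ → Prop) (hL : ∀ k, h.og k = true →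
      ∀ q ∈ Perm.Cr (s.len k) (fun r => (E k r).2.2.2.1), (L (s.lab k q) ↔ L (s.lab k (q + 1)))) :
    ∀ k r k' r', r < s.len k → r' < s.len k' → (L (s.lab k r) ↔ L (s.lab k' r')) := by
  classical
  have hs := hf.good
  set W : V → Prop := fun v => (v.2.1 = 0 ∧ ((∃ r < s.len v.1, s.o v.1 r = v.2.2.1 ∧
      L (s.lab v.1 r)) ∨ ∃ k' r, v.1 = k' + 1 ∧ r < s.len k' ∧ s.i k' r = v.2.2.1 ∧
      L (s.lab k' r))) ∨ (1 ≤ v.2.1 ∧ L (s.lab v.1 v.2.2.1)) with hW
  have Wloc : ∀ k p q, W (k, 0, p, q) ↔ ((∃ r < s.len k, s.o k r = p ∧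
      L (s.lab k r)) ∨ ∃ k' r, k = k' + 1 ∧ r < s.len k' ∧ s.i k' r = p ∧
      L (s.lab k' r)) := by
    intro k p q
    simp only [hW]
    constructor
    · rintro (h1 | h1)
      · exact h1.2
      · omega
    · intro h1
      exact Or.inl ⟨trivial, h1⟩
  have Wrod : ∀ k j r q, 1 ≤ j → (W (k, j, r, q) ↔ L (s.lab k r)) := by
    intro k j r q hj
    simp only [hW]
    constructor
    · rintro (h1 | h1)
      · omega
      · exact h1.2
    · intro h1
      exact Or.inr ⟨hj, h1⟩
  -- a lower location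
  have Wlo : ∀ k r q, r < s.len k → (W (k, 0, s.o k r, q) ↔ L (s.lab k r)) := by
    intro k r q hr
    rw [Wloc]
    constructor
    · rintro (⟨r', hr', h1, h2⟩ | ⟨k', r', rfl, hr', h1, h2⟩)
      · rwa [hs.lab_o hr' hr h1] at h2
      · rwa [hs.lab_io hr' hr h1] at h2
    · intro h1
      exact Or.inl ⟨r, hr, rfl, h1⟩
  have Wup : ∀ k r q, r < s.len k → (W (k + 1, 0, s.i k r, q) ↔ L (s.lab k r)) := by
    intro k r q hr
    rw [Wloc]
    constructor
    · rintro (⟨r', hr', h1, h2⟩ | ⟨k', r', hk', hr', h1, h2⟩)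
      · rwa [← hs.lab_io hr hr' h1.symm] at h2
      · obtain rfl : k = k' := by omega
        rwa [hs.lab_i hr' hr h1] at h2
    · intro h1
      exact Or.inr ⟨k, r, rfl, hr, rfl, h1⟩
  have hWc : ∀ e ∈ A, (W e.1 ↔ W e.2) := by
    intro e he
    obtain ⟨he1, he2, hlv⟩ := hR.two.sub e he
    rcases hR.ns e he with h1 | h1
    · rcases h1 with h1 | h1
      · obtain ⟨a1, a2, a3, a4, a5⟩ := h1
        obtain ⟨⟨k, j, r, q⟩, ⟨k', j', r', q'⟩⟩ := e
        simp only at a1 a2 a3 a4 a5
        subst a3 a4 a5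
        rw [Wrod _ _ _ _ a1, Wrod _ _ _ _ (by omega)]
      · obtain ⟨a1, a2, a3, a4⟩ := h1
        have hlt : e.1.2.2.1 < s.len e.1.1 := by
          rcases (hR.hS _).1 he1 with h5 | h5
          · omega
          · rw [← hf.len]; exact h5.2.2.1
        obtain ⟨⟨k, j, r, q⟩, ⟨k', j', r', q'⟩⟩ := e
        simp only at a1 a2 a3 a4 hlt
        subst a1 a2 a3 a4
        rw [Wrod _ _ _ _ (by omega), hf.i, Wup _ _ _ hlt]
    · have h1' := h1
      obtain ⟨a1, a2, a3, a4, a5⟩ := h1
      obtain ⟨r, hr, hrp⟩ := Sh.isLo_iff.1 a4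
      rw [hf.len] at hr
      rw [hf.o] at hrp
      have hq0 : e.1.2.2.2 = 0 := by
        rcases (hR.hS _).1 he1 with h5 | h5
        · exact h5.2.1
        · omega
      have hlt : e.2.2.2.1 < s.len e.1.1 := by
        rcases (hR.hS _).1 he2 with h5 | h5
        · omega
        · rw [← hf.len, ← a2]; exact h5.2.2.1
      have ev : e.1 = (e.1.1, 0, s.o e.1.1 r, 0) := by
        refine Prod.ext rfl (Prod.ext a1 (Prod.ext hrp.symm hq0))
      have ew : e.2 = (e.1.1, 1, e.2.2.2.1, e.2.2.2.2) := by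
        refine Prod.ext a2 (Prod.ext a3 rfl)
      have w1 : W e.1 ↔ L (s.lab e.1.1 r) := by
        conv_lhs => rw [ev]
        exact Wlo _ _ _ hr
      have w2 : W e.2 ↔ L (s.lab e.1.1 e.2.2.2.1) := by
        conv_lhs => rw [ew]
        exact Wrod _ _ _ _ le_rfl
      rw [w1, w2]
      by_cases hog : h.og e.1.1 = true
      · obtain ⟨hE1, hE2⟩ := hE _ hog
        obtain ⟨b1, b2, b3, b4, b5, b6⟩ := hE1 r hr
        have hee : e = E e.1.1 r := b5 e he ev
        have hπ : e.2.2.2.1 = (E e.1.1 r).2.2.2.1 := by rw [← hee]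
        have hcr : ∀ q ∈ Perm.btw r ((fun r => (E e.1.1 r).2.2.2.1) r),
            (L (s.lab e.1.1 q) ↔ L (s.lab e.1.1 (q + 1))) := by
          intro q hq
          exact hL _ hog q (Perm.cr_of_down (fun r hr => (hE1 r hr).2.2.2.2.2) hE2 hr hq)
        rw [hπ]
        rcases le_total r (E e.1.1 r).2.2.2.1 with hle | hle
        · exact iff_steps hle fun q h1 h2 => hcr q (Perm.mem_btw.2 (Or.inl ⟨h1, h2⟩))
        · exact (iff_steps (P := fun q => L (s.lab e.1.1 q)) hle fun q h1 h2 =>
            hcr q (Perm.mem_btw.2 (Or.inr ⟨h1, h2⟩))).symm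
      · rcases a5 with a5 | a5
        · exact absurd a5 hog
        · rw [hf.o, ← hrp] at a5
          rw [hs.lab_o hr hlt a5.symm]
  intro k r k' r' hr hr'
  have hm : ∀ k r, r < s.len k → ((k, 1, r, 0) : V) ∈ S := by
    intro k r hr
    rw [hR.hS]
    exact Or.inr ⟨le_rfl, by simp, by rw [hf.len]; exact hr, by simp [wd]⟩
  have key : ∀ k r k' r', r < s.len k → r' < s.len k' → L (s.lab k r) → L (s.lab k' r') := by
    intro k r k' r' hr hr' h1
    have := hR.two.conn W ⟨_, hm k r hr, (Wrod k 1 r 0 le_rfl).2 h1⟩ hWc _ (hm k' r' hr')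
    exact (Wrod k' 1 r' 0 le_rfl).1 this
  exact ⟨key k r k' r' hr hr', key k' r' k r hr' hr⟩

end Pool.Agent.R533.PSP
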