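import Pool.Agent.H820R2.MS.T3

/-!
# Euclidean Max-2-PSP: few swaps which connect everything
-/

namespace Pool.Agent.R533.PSP

open Pool.Agent.H679R2

/-- The number of classes of the equivalence relation generated by two maps. -/
noncomputable def cls {V : Type*} (M S : V → V) : ℕ := Nat.card (Quot (Conn M S))

theorem cls_lt {V : Type*} [Finite V] {M S S' : V → V}
    (h1 : ∀ a b, Conn M S a b → Conn M S' a b) {a c : V} (h2 : Conn M S' a c)
    (h3 : ¬ Conn M S a c) : cls M S' < cls M S := by
  classical
  have : Finite (Quot (Conn M S)) := Quot.finite _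
  have := Fintype.ofFinite (Quot (Conn M S))
  have : Finite (Quot (Conn M S')) := Quot.finite _
  have := Fintype.ofFinite (Quot (Conn M S'))
  unfold cls
  rw [Nat.card_eq_fintype_card, Nat.card_eq_fintype_card]
  refine Fintype.card_lt_of_surjective_not_injective
    (Quot.map (fun x => x) (fun x y h => h1 x y h) : Quot (Conn M S) → Quot (Conn M S')) ?_ ?_
  · intro q
    induction q using Quot.ind with
    | _ x => exact ⟨Quot.mk _ x, rfl⟩
  · intro hinj
    have e : (Quot.mk (Conn M S) a) = Quot.mk _ c := hinj (Quot.sound h2)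
    apply h3
    have h4 := Quot.eqvGen_exact e
    clear e h2 h3 hinj
    induction h4 with
    | rel x y h => exact h
    | refl x => exact Conn.refl x
    | symm x y _ ih => exact ih.symm
    | trans x y z _ _ ih ih' => exact ih.trans ih'

/-- The number of switches in the second state. -/
def nz {ι : Type*} [Fintype ι] (z : ι → Bool) : ℕ := (Finset.univ.filter fun k => z k = true).card

theorem nz_update {ι : Type*} [Fintype ι] [DecidableEq ι] (z : ι → Bool) (k : ι) :
    nz (Function.update z k (!z k)) ≤ nz z + 1 := by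
  unfold nz
  have : (Finset.univ.filter fun k' => Function.update z k (!z k) k' = true) ⊆
      insert k (Finset.univ.filter fun k' => z k' = true) := by
    intro k' hk'
    rw [Finset.mem_insert, Finset.mem_filter]
    rw [Finset.mem_filter] at hk'
    by_cases h : k' = k
    · exact Or.inl h
    · right
      rw [Function.update_of_ne h] at hk'
      exact hk'
  exact (Finset.card_le_card this).trans (Finset.card_insert_le _ _)

theorem exists_free_count {ι V : Type*} [Fintype ι] [DecidableEq ι] [Fintype V] [DecidableEq V]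
    {M : V → V} (S : (ι → Bool) → V → V) (t : ι → Fin 4 → V)
    (hM : Function.Involutive M) (hM' : ∀ v, M v ≠ v)
    (hS : ∀ z, Function.Involutive (S z)) (hS' : ∀ z v, S z v ≠ v)
    (hf : ∀ z k, z k = false → S z (t k 0) = t k 1 ∧ S z (t k 2) = t k 3)
    (ht : ∀ z k, z k = true → S z (t k 1) = t k 2 ∧ S z (t k 3) = t k 0)
    (hag : ∀ z k x, (∀ i, x ≠ t k i) → S (Function.update z k (!z k)) x = S z x)
    (c0 : ℕ) (hc0 : cls M (S fun _ => false) ≤ c0) :
    ∃ z, (∀ k i j, Conn M (S z) (t k i) (t k j)) ∧ nz z + cls M (S z) ≤ c0 := by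
  classical
  set N : (ι → Bool) → Finset (V × V) := fun z =>
    Finset.univ.filter (fun q => Conn M (S z) q.1 q.2) with hN
  obtain ⟨z, hz0, hz⟩ := Finset.exists_max_image
    (Finset.univ.filter fun z : ι → Bool => nz z + cls M (S z) ≤ c0)
    (fun z => (N z).card) ⟨fun _ => false, by
      rw [Finset.mem_filter]
      refine ⟨Finset.mem_univ _, ?_⟩
      have : nz (fun _ : ι => false) = 0 := by simp [nz]
      omega⟩
  rw [Finset.mem_filter] at hz0
  have key : ∀ k a b c d, ((a = t k 0 ∧ b = t k 1 ∧ c = t k 2 ∧ d = t k 3 ∧ z k = false) ∨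
      (a = t k 3 ∧ b = t k 0 ∧ c = t k 1 ∧ d = t k 2 ∧ z k = true)) → Conn M (S z) a c := by
    intro k a b c d h
    by_contra hac
    set z' := Function.update z k (!z k) with hz'
    have hz'k : z' k = !z k := by simp [hz']
    have hcase : S z a = b ∧ S z c = d ∧ S z' b = c := by
      rcases h with ⟨rfl, rfl, rfl, rfl, hk⟩ | ⟨rfl, rfl, rfl, rfl, hk⟩
      · exact ⟨(hf z k hk).1, (hf z k hk).2, (ht z' k (by simp [hz'k, hk])).1⟩
      · exact ⟨(ht z k hk).2, (ht z k hk).1, (hf z' k (by simp [hz'k, hk])).1⟩
    have hag' : ∀ x, x ≠ a → x ≠ b → x ≠ c → x ≠ d → S z' x = S z x := by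
      intro x ha hb hc hd
      refine hag z k x fun i => ?_
      rcases h with ⟨rfl, rfl, rfl, rfl, -⟩ | ⟨rfl, rfl, rfl, rfl, -⟩ <;> fin_cases i <;>
        assumption
    obtain ⟨h1, h2⟩ := conn_toggle hM hM' (hS z) (hS' z) (hS z') hcase.1 hcase.2.1 hac
      hcase.2.2 hag'
    have hlt : (N z).card < (N z').card := by
      refine Finset.card_lt_card ((Finset.ssubset_iff_of_subset ?_).2 ⟨(a, c), ?_, ?_⟩)
      · intro q hq
        simp only [hN, Finset.mem_filter, Finset.mem_univ, true_and] at hq ⊢
        exact h1 _ _ hq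
      · simpa [hN] using h2
      · simpa [hN] using hac
    have hcl := cls_lt (fun x y hxy => h1 x y hxy) h2 hac
    have hnz := nz_update z k
    rw [← hz'] at hnz
    exact absurd (hz z' (Finset.mem_filter.2 ⟨Finset.mem_univ _, by omega⟩)) (not_le.2 hlt)
  refine ⟨z, fun k => ?_, hz0.2⟩
  have h0 : ∀ i, Conn M (S z) (t k 0) (t k i) := by
    cases hk : z k with
    | false =>
      have h02 := key k _ _ _ _ (Or.inl ⟨rfl, rfl, rfl, rfl, hk⟩)
      have h01 : Conn M (S z) (t k 0) (t k 1) := (hf z k hk).1 ▸ Conn.right _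
      have h23 : Conn M (S z) (t k 2) (t k 3) := (hf z k hk).2 ▸ Conn.right _
      intro i
      fin_cases i
      · exact Conn.refl _
      · exact h01
      · exact h02
      · exact h02.trans h23
    | true =>
      have h31 := key k _ _ _ _ (Or.inr ⟨rfl, rfl, rfl, rfl, hk⟩)
      have h12 : Conn M (S z) (t k 1) (t k 2) := (ht z k hk).1 ▸ Conn.right _
      have h30 : Conn M (S z) (t k 3) (t k 0) := (ht z k hk).2 ▸ Conn.right _
      intro i
      fin_cases i
      · exact Conn.refl _
      · exact h30.symm.trans h31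
      · exact h30.symm.trans (h31.trans h12)
      · exact h30.symm
  exact fun i j => (h0 i).symm.trans (h0 j)

end Pool.Agent.R533.PSP
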