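import Pool.Agent.R533.PSP.Compl2
import Pool.Agent.H820R2.MS.T0
import Pool.Agent.R533.PSP.Cyc

/-!
# Euclidean Max-2-PSP: tours as lists and as edge sets
-/

namespace Pool.Agent.R533.PSP

open Pool.Agent.H820R2.MS

theorem cyc_map {α β : Type} (f : α → β) (σ : List α) :
    cyc (σ.map f) = (cyc σ).map (fun e => (f e.1, f e.2)) := by
  unfold cyc
  rw [← List.map_rotate, List.zip_map]
  rfl

theorem cyc_fst {α : Type} (σ : List α) : (cyc σ).map Prod.fst = σ := by
  unfold cyc
  rw [List.map_fst_zip]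
  rw [List.length_rotate]

theorem cyc_snd {α : Type} (σ : List α) : (cyc σ).map Prod.snd = σ.rotate 1 := by
  unfold cyc
  rw [List.map_snd_zip]
  rw [List.length_rotate]

theorem cyc_length {α : Type} (σ : List α) : (cyc σ).length = σ.length := by
  unfold cyc
  rw [List.length_zip, List.length_rotate, min_self]

theorem cyc_getElem {α : Type} (σ : List α) (i : ℕ) (hi : i < (cyc σ).length) :
    (cyc σ)[i] = (σ[i]'(by rwa [cyc_length] at hi),
      σ[(i + 1) % σ.length]'(Nat.mod_lt _ (Nat.zero_lt_of_lt (by rwa [cyc_length] at hi)))) := by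
  have h1 : (cyc σ)[i]? = some (σ[i]'(by rwa [cyc_length] at hi),
      σ[(i + 1) % σ.length]'(Nat.mod_lt _ (Nat.zero_lt_of_lt (by rwa [cyc_length] at hi)))) := by
    rw [cyc_length] at hi
    unfold cyc
    rw [List.getElem?_zip_eq_some]
    refine ⟨List.getElem?_eq_getElem hi, ?_⟩
    rw [List.getElem?_eq_getElem (by rwa [List.length_rotate]), List.getElem_rotate]
  rw [List.getElem?_eq_getElem hi] at h1
  exact Option.some_injective _ h1

theorem mem_cyc {α : Type} {σ : List α} {e : α × α} : e ∈ cyc σ ↔ ∃ (i : ℕ) (hi : i < σ.length),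
    e = (σ[i], σ[(i + 1) % σ.length]'(Nat.mod_lt _ (Nat.zero_lt_of_lt hi))) := by
  rw [List.mem_iff_getElem]
  constructor
  · rintro ⟨i, hi, rfl⟩
    exact ⟨i, by rwa [cyc_length] at hi, cyc_getElem σ i hi⟩
  · rintro ⟨i, hi, rfl⟩
    exact ⟨i, by rwa [cyc_length], cyc_getElem σ i _⟩

theorem cyc_nodup {α : Type} {σ : List α} (hσ : σ.Nodup) : (cyc σ).Nodup := by
  apply List.Nodup.of_map Prod.fst
  rw [cyc_fst]; exact hσ

theorem mem_of_cyc {α : Type} {σ : List α} {e : α × α} (he : e ∈ cyc σ) : e.1 ∈ σ ∧ e.2 ∈ σ := by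
  obtain ⟨i, hi, rfl⟩ := mem_cyc.1 he
  exact ⟨List.getElem_mem _, List.getElem_mem _⟩

theorem cyc_no_two {α : Type} {σ : List α} (hσ : σ.Nodup) (h3 : 3 ≤ σ.length) {e : α × α}
    (he : e ∈ cyc σ) (he' : e.swap ∈ cyc σ) : False := by
  obtain ⟨i, hi, h1⟩ := mem_cyc.1 he
  obtain ⟨j, hj, h2⟩ := mem_cyc.1 he'
  subst h1
  rw [Prod.swap_prod_mk, Prod.mk.injEq, hσ.getElem_inj_iff, hσ.getElem_inj_iff] at h2
  obtain ⟨a1, a2⟩ := h2
  rcases Nat.lt_or_ge (i + 1) σ.length with h4 | h4
  · rw [Nat.mod_eq_of_lt h4] at a1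
    rcases Nat.lt_or_ge (j + 1) σ.length with h5 | h5
    · rw [Nat.mod_eq_of_lt h5] at a2; omega
    · have : j + 1 = σ.length := by omega
      rw [this, Nat.mod_self] at a2; omega
  · have : i + 1 = σ.length := by omega
    rw [this, Nat.mod_self] at a1
    rcases Nat.lt_or_ge (j + 1) σ.length with h5 | h5
    · rw [Nat.mod_eq_of_lt h5] at a2; omega
    · omega

theorem cyc_ne {α : Type} {σ : List α} (hσ : σ.Nodup) (h3 : 3 ≤ σ.length) {e : α × α}
    (he : e ∈ cyc σ) : e.1 ≠ e.2 := by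
  intro h
  apply cyc_no_two hσ h3 he
  have : e.swap = e := Prod.ext h.symm h
  rw [this]; exact he

/-- Orientation of an edge upwards. -/
def ori (e : V × V) : V × V := if lv e.1 < lv e.2 then e else e.swap

theorem ori_eq (e : V × V) : ori e = e ∨ ori e = e.swap := by
  unfold ori; split_ifs <;> simp

theorem ori_nodup {σ : List V} (hσ : σ.Nodup) (h3 : 3 ≤ σ.length) :
    ((cyc σ).map ori).Nodup := by
  refine List.Nodup.map_on (fun e he e' he' h => ?_) (cyc_nodup hσ)
  rcases ori_eq e with h1 | h1 <;> rcases ori_eq e' with h2 | h2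
  · rw [← h1, ← h2]; exact h
  · exfalso
    have h3' : e = e'.swap := by rw [← h1, ← h2]; exact h
    apply cyc_no_two hσ h3 he'
    rw [← h3']; exact he
  · exfalso
    have h3' : e.swap = e' := by rw [← h1, ← h2]; exact h
    apply cyc_no_two hσ h3 he
    rw [h3']; exact he'
  · have h3' : e.swap = e'.swap := by rw [← h1, ← h2]; exact h
    exact Prod.swap_injective h3'

theorem sum_ori {M : Type} [AddCommMonoid M] {σ : List V} (hσ : σ.Nodup) (h3 : 3 ≤ σ.length)
    (g : V × V → M) : ∑ e ∈ ((cyc σ).map ori).toFinset, g e =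
      ((cyc σ).map fun e => g (ori e)).sum := by
  rw [List.sum_toFinset g (ori_nodup hσ h3), List.map_map]
  rfl

theorem count_sum' (σ : List V) (v : V) :
    (σ.map fun x => if x = v then 1 else 0).sum = σ.count v := by
  induction σ with
  | nil => rfl
  | cons a σ ih =>
    rw [List.map_cons, List.sum_cons, List.count_cons, ih]
    by_cases h : a = v
    · simp [h, add_comm]
    · simp [h]

theorem count_sum {σ : List V} (hσ : σ.Nodup) {v : V} (hv : v ∈ σ) :
    (σ.map fun x => if x = v then 1 else 0).sum = 1 := by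
  rw [count_sum', List.count_eq_one_of_mem hσ hv]

theorem two_of_cyc {S : Finset V} {σ : List V} (hσ : σ.Nodup) (h3 : 3 ≤ σ.length)
    (hS : ∀ v, v ∈ S ↔ v ∈ σ)
    (hc : ∀ e ∈ cyc σ, lv e.2 = lv e.1 + 1 ∨ lv e.1 = lv e.2 + 1) :
    Two S ((cyc σ).map ori).toFinset := by
  classical
  have hmem : ∀ e, e ∈ ((cyc σ).map ori).toFinset ↔ ∃ f ∈ cyc σ, ori f = e := by
    intro e
    rw [List.mem_toFinset, List.mem_map]
  have hori : ∀ e ∈ cyc σ, lv (ori e).2 = lv (ori e).1 + 1 := by
    intro e he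
    unfold ori
    rcases hc e he with h1 | h1
    · rw [if_pos (by omega)]; exact h1
    · rw [if_neg (by omega)]; exact h1
  refine ⟨?_, ?_, ?_⟩
  · intro e he
    obtain ⟨f, hf, rfl⟩ := (hmem e).1 he
    obtain ⟨h1, h2⟩ := mem_of_cyc hf
    refine ⟨?_, ?_, hori f hf⟩
    · rw [hS]
      rcases ori_eq f with h | h <;> rw [h]
      · exact h1
      · exact h2
    · rw [hS]
      rcases ori_eq f with h | h <;> rw [h]
      · exact h2
      · exact h1
  · intro v hv
    rw [hS] at hv
    rw [Finset.card_filter, Finset.card_filter, ← Finset.sum_add_distrib, sum_ori hσ h3]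
    have e1 : (cyc σ).map (fun e => (if (ori e).1 = v then 1 else 0) +
        (if (ori e).2 = v then 1 else 0)) = (cyc σ).map (fun e => (if e.1 = v then 1 else 0) +
        (if e.2 = v then 1 else 0)) := by
      apply List.map_congr_left
      intro e _
      rcases ori_eq e with h | h <;> rw [h]
      rw [Prod.fst_swap, Prod.snd_swap, add_comm]
    rw [e1, List.sum_map_add]
    have e2 : (cyc σ).map (fun e : V × V => if e.1 = v then 1 else 0) =
        σ.map (fun x => if x = v then 1 else 0) := by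
      conv_rhs => rw [← cyc_fst σ]
      rw [List.map_map]; rfl
    have e3 : (cyc σ).map (fun e : V × V => if e.2 = v then 1 else 0) =
        (σ.rotate 1).map (fun x => if x = v then 1 else 0) := by
      rw [← cyc_snd σ, List.map_map]; rfl
    rw [e2, e3, count_sum hσ hv, count_sum (List.nodup_rotate.2 hσ) (List.mem_rotate.2 hv)]
  · intro W hne hW v hv
    have hst : ∀ e ∈ cyc σ, (W e.1 ↔ W e.2) := by
      intro e he
      have h1 := hW (ori e) ((hmem _).2 ⟨e, he, rfl⟩)
      rcases ori_eq e with h | h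
      · rw [h] at h1; exact h1
      · rw [h] at h1; exact h1.symm
    have hn : 0 < σ.length := by omega
    have hall : ∀ i (hi : i < σ.length), (W (σ[0]'hn) ↔ W σ[i]) := by
      intro i
      induction i with
      | zero => intro _; exact Iff.rfl
      | succ i ih =>
        intro hi
        rw [ih (by omega)]
        have := hst _ (mem_cyc.2 ⟨i, by omega, rfl⟩)
        simp only at this
        rw [this]
        have e : (i + 1) % σ.length = i + 1 := Nat.mod_eq_of_lt hi
        simp only [e]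
    obtain ⟨v0, hv0, hW0⟩ := hne
    rw [hS] at hv0 hv
    obtain ⟨i, hi, rfl⟩ := List.mem_iff_getElem.1 hv0
    obtain ⟨j, hj, rfl⟩ := List.mem_iff_getElem.1 hv
    exact (hall j hj).1 ((hall i hi).2 hW0)

theorem two_card {S : Finset V} {A : Finset (V × V)} (hA : Two S A) : A.card = S.card := by
  classical
  have h1 : A.card = ∑ v ∈ S, (A.filter fun e => e.1 = v).card :=
    Finset.card_eq_sum_card_fiberwise (fun e he => (hA.sub e he).1)
  have h2 : A.card = ∑ v ∈ S, (A.filter fun e => e.2 = v).card :=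
    Finset.card_eq_sum_card_fiberwise (fun e he => (hA.sub e he).2.1)
  have h3 : ∑ v ∈ S, ((A.filter fun e => e.1 = v).card + (A.filter fun e => e.2 = v).card) =
      ∑ v ∈ S, 2 := Finset.sum_congr rfl hA.deg
  rw [Finset.sum_add_distrib, ← h1, ← h2, Finset.sum_const, smul_eq_mul] at h3
  omega

theorem cyc_of_two {S : Finset V} {A : Finset (V × V)} (hA : Two S A) {L : List V}
    (hL : L.Nodup) (h3 : 3 ≤ L.length) (hS : ∀ v, v ∈ S ↔ v ∈ L) :
    ∃ σ : List V, σ.Perm L ∧ ((cyc σ).map ori).toFinset = A := by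
  classical
  set E : V → V → Prop := fun v w => (v, w) ∈ A ∨ (w, v) ∈ A with hE
  have hEl : ∀ v w, (v, w) ∈ A → lv w = lv v + 1 := fun v w h => (hA.sub _ h).2.2
  have hne : L ≠ [] := by rintro rfl; simp at h3
  obtain ⟨σ, hσ, hE2⟩ := Tour.of_rel (R := E) hL hne E
    (fun v w h => h.symm)
    (by
      intro v w h
      rcases h with h1 | h1
      · exact ⟨(hS _).1 (hA.sub _ h1).1, (hS _).1 (hA.sub _ h1).2.1, Or.inl h1⟩
      · exact ⟨(hS _).1 (hA.sub _ h1).2.1, (hS _).1 (hA.sub _ h1).1, Or.inr h1⟩)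
    (by
      rintro v (h | h) <;> · have := hEl _ _ h; omega)
    (by
      intro v hv
      have hdeg := hA.deg v ((hS v).2 hv)
      set N := (A.filter fun e => e.1 = v).image Prod.snd ∪ (A.filter fun e => e.2 = v).image
        Prod.fst with hN
      have hNc : N.card = 2 := by
        rw [hN, Finset.card_union_of_disjoint]
        · rw [Finset.card_image_of_injOn, Finset.card_image_of_injOn, hdeg]
          · rintro ⟨a, b⟩ h1 ⟨c, d⟩ h2 h
            rw [Finset.mem_coe, Finset.mem_filter] at h1 h2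
            simp only at h h1 h2
            rw [h, h1.2, h2.2]
          · rintro ⟨a, b⟩ h1 ⟨c, d⟩ h2 h
            rw [Finset.mem_coe, Finset.mem_filter] at h1 h2
            simp only at h h1 h2
            rw [h, h1.2, h2.2]
        · rw [Finset.disjoint_left]
          intro x h1 h2
          rw [Finset.mem_image] at h1 h2
          obtain ⟨⟨a, b⟩, h1, rfl⟩ := h1
          obtain ⟨⟨c, d⟩, h2, h4⟩ := h2
          rw [Finset.mem_filter] at h1 h2
          simp only at h1 h2 h4
          obtain ⟨h1, rfl⟩ := h1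
          obtain ⟨h2, rfl⟩ := h2
          subst h4
          have := hEl _ _ h1
          have := hEl _ _ h2
          omega
      obtain ⟨a, b, hab, hNab⟩ := Finset.card_eq_two.1 hNc
      refine ⟨a, b, hab, fun w => ?_⟩
      have : E v w ↔ w ∈ N := by
        rw [hN, Finset.mem_union, Finset.mem_image, Finset.mem_image]
        constructor
        · rintro (h | h)
          · exact Or.inl ⟨(v, w), Finset.mem_filter.2 ⟨h, rfl⟩, rfl⟩
          · exact Or.inr ⟨(w, v), Finset.mem_filter.2 ⟨h, rfl⟩, rfl⟩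
        · rintro (⟨⟨c, d⟩, h, rfl⟩ | ⟨⟨c, d⟩, h, rfl⟩)
          · rw [Finset.mem_filter] at h
            obtain ⟨h, rfl⟩ := h
            exact Or.inl h
          · rw [Finset.mem_filter] at h
            obtain ⟨h, rfl⟩ := h
            exact Or.inr h
      rw [this, hNab, Finset.mem_insert, Finset.mem_singleton])
    (by
      rintro W ⟨v, hv, hvW⟩ hW w hw
      refine hA.conn (fun v => v ∈ W) ⟨v, (hS v).2 hv, hvW⟩ ?_ w ((hS w).2 hw)
      intro e he
      exact ⟨fun h => hW _ h _ (Or.inl he), fun h => hW _ h _ (Or.inr he)⟩)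
  refine ⟨σ, hσ, ?_⟩
  have hnd : σ.Nodup := hσ.nodup_iff.2 hL
  have h3' : 3 ≤ σ.length := by rw [hσ.length_eq]; exact h3
  apply Finset.eq_of_subset_of_card_le
  · intro e he
    rw [List.mem_toFinset, List.mem_map] at he
    obtain ⟨f, hf, rfl⟩ := he
    obtain ⟨i, hi, rfl⟩ := mem_cyc.1 hf
    have h1 := hE2 i hi
    unfold ori
    rcases h1 with h1 | h1
    · have := hEl _ _ h1
      rw [if_pos (by simp only; omega)]
      exact h1
    · have := hEl _ _ h1
      rw [if_neg (by simp only; omega)]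
      exact h1
  · rw [List.toFinset_card_of_nodup (ori_nodup hnd h3'), List.length_map, cyc_length,
      two_card hA, hσ.length_eq]
    have : S = L.toFinset := by
      ext v; rw [hS, List.mem_toFinset]
    rw [this]
    exact List.toFinset_card_le L

/-- The geometric estimates. -/
structure Geo (h : Sh) (L : List V) (dst : V → V → ℝ) (ψ : V → ℝ) (κ η Gap Cm : ℝ) : Prop where
  symm : ∀ v w, dst v w = dst w v
  near : ∀ v ∈ L, ∀ w ∈ L, lv w = lv v + 1 →
    |dst v w - (ψ v + ψ w - κ * (h.cost v w : ℝ))| ≤ η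
  far : ∀ v ∈ L, ∀ w ∈ L, v ≠ w → lv w ≠ lv v + 1 → lv v ≠ lv w + 1 →
    dst v w ≤ ψ v + ψ w - Gap
  cm : ∀ v ∈ L, ∀ w ∈ L, lv w = lv v + 1 → - Cm ≤ (h.cost v w : ℝ)
  κ0 : 0 ≤ κ
  η0 : 0 ≤ η
  Cm0 : 0 ≤ Cm
  Gap0 : 0 ≤ Gap

theorem sum_cyc_add {L σ : List V} (hσ : σ.Perm L) (ψ : V → ℝ) :
    ((cyc σ).map fun e => ψ e.1 + ψ e.2).sum = 2 * (L.map ψ).sum := by
  rw [List.sum_map_add]
  have e2 : (cyc σ).map (fun e : V × V => ψ e.1) = σ.map ψ := by
    conv_rhs => rw [← cyc_fst σ]
    rw [List.map_map]; rfl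
  have e3 : (cyc σ).map (fun e : V × V => ψ e.2) = (σ.rotate 1).map ψ := by
    rw [← cyc_snd σ, List.map_map]; rfl
  rw [e2, e3, ((List.rotate_perm σ 1).map ψ).sum_eq, (hσ.map ψ).sum_eq]
  ring

/-- Tours and edge sets. -/
theorem cyc_iff {h : Sh} {L : List V} {dst : V → V → ℝ} {ψ : V → ℝ} {κ η Gap Cm : ℝ}
    (hg : Geo h L dst ψ κ η Gap Cm) (hL : L.Nodup) (h3 : 3 ≤ L.length) {S : Finset V}
    (hS : ∀ v, v ∈ S ↔ v ∈ L) (bud : ℤ)
    (hη : 2 * (L.length : ℝ) * η < κ / 2)
    (hGap : κ * ((bud : ℝ) + 1 / 2) + 2 * (L.length : ℝ) * (κ * Cm + η) < Gap) :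
    (∃ σ τ : List V, σ.Perm L ∧ τ.Perm L ∧
      (∀ e ∈ cyc σ, ∀ f ∈ cyc τ, s(e.1, e.2) ≠ s(f.1, f.2)) ∧
      4 * (L.map ψ).sum - κ * ((bud : ℝ) + 1 / 2) ≤
        ((cyc σ).map fun e => dst e.1 e.2).sum + ((cyc τ).map fun e => dst e.1 e.2).sum) ↔
    ∃ A B, Two S A ∧ Two S B ∧ Disjoint A B ∧
      ∑ e ∈ A, h.cost e.1 e.2 + ∑ e ∈ B, h.cost e.1 e.2 ≤ bud := by
  classical
  have hκ := hg.κ0
  have hη0 := hg.η0
  have hCm := hg.Cm0
  have hGap0 := hg.Gap0
  have hL0 : (0 : ℝ) ≤ L.length := Nat.cast_nonneg _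
  -- one tour of consecutive levels
  have hone : ∀ σ : List V, σ.Perm L →
      (∀ e ∈ cyc σ, lv e.2 = lv e.1 + 1 ∨ lv e.1 = lv e.2 + 1) →
      |((cyc σ).map fun e => dst e.1 e.2).sum - (2 * (L.map ψ).sum -
        κ * ((∑ e ∈ ((cyc σ).map ori).toFinset, h.cost e.1 e.2 : ℤ) : ℝ))| ≤ L.length * η := by
    intro σ hσ hc
    have hnd : σ.Nodup := hσ.nodup_iff.2 hL
    have h3' : 3 ≤ σ.length := by rw [hσ.length_eq]; exact h3
    rw [sum_ori hnd h3', ← sum_cyc_add hσ ψ]
    have hcast : (((((cyc σ).map fun e => h.cost (ori e).1 (ori e).2).sum : ℤ)) : ℝ) =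
        ((cyc σ).map fun e => ((h.cost (ori e).1 (ori e).2 : ℤ) : ℝ)).sum := by
      have h1 := map_list_sum (Int.castRingHom ℝ)
        ((cyc σ).map fun e => h.cost (ori e).1 (ori e).2)
      rw [List.map_map] at h1
      exact h1
    rw [hcast, ← List.sum_map_mul_left]
    have hkey : ∀ l : List (V × V), (∀ e ∈ l, e ∈ cyc σ) →
        |(l.map fun e => dst e.1 e.2).sum - ((l.map fun e => ψ e.1 + ψ e.2).sum -
          (l.map fun e => κ * ((h.cost (ori e).1 (ori e).2 : ℤ) : ℝ)).sum)| ≤ l.length * η := by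
      intro l
      induction l with
      | nil => intro _; simp
      | cons e l ih =>
        intro hl
        have i1 := ih fun e he => hl e (List.mem_cons_of_mem _ he)
        have he := hl e List.mem_cons_self
        obtain ⟨m1, m2⟩ := mem_of_cyc he
        rw [hσ.mem_iff] at m1 m2
        have i2 : |dst e.1 e.2 - (ψ e.1 + ψ e.2 - κ * ((h.cost (ori e).1 (ori e).2 : ℤ) : ℝ))|
            ≤ η := by
          unfold ori
          rcases hc e he with h1 | h1
          · rw [if_pos (by omega)]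
            exact hg.near _ m1 _ m2 h1
          · rw [if_neg (by omega), Prod.fst_swap, Prod.snd_swap, hg.symm e.1 e.2,
              add_comm (ψ e.1)]
            exact hg.near _ m2 _ m1 h1
        simp only [List.map_cons, List.sum_cons, List.length_cons, Nat.cast_add, Nat.cast_one]
        rw [abs_le] at i1 i2 ⊢
        constructor <;> linarith [i1.1, i1.2, i2.1, i2.2]
    have := hkey (cyc σ) fun e he => he
    rw [cyc_length, hσ.length_eq] at this
    exact this
  constructor
  · rintro ⟨σ, τ, hσ, hτ, hd, hlen⟩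
    have hndσ : σ.Nodup := hσ.nodup_iff.2 hL
    have hndτ : τ.Nodup := hτ.nodup_iff.2 hL
    have h3σ : 3 ≤ σ.length := by rw [hσ.length_eq]; exact h3
    have h3τ : 3 ≤ τ.length := by rw [hτ.length_eq]; exact h3
    -- the upper bound of one tour
    have hub : ∀ σ : List V, σ.Perm L → ∀ l : List (V × V), (∀ e ∈ l, e ∈ cyc σ) →
        (l.map fun e => dst e.1 e.2).sum ≤ (l.map fun e => ψ e.1 + ψ e.2).sum +
          l.length * (κ * Cm + η) ∧
        ((∃ e ∈ l, ¬ (lv e.2 = lv e.1 + 1 ∨ lv e.1 = lv e.2 + 1)) →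
          (l.map fun e => dst e.1 e.2).sum ≤ (l.map fun e => ψ e.1 + ψ e.2).sum +
          l.length * (κ * Cm + η) - Gap) := by
      intro σ hσ l
      have hnd : σ.Nodup := hσ.nodup_iff.2 hL
      have h3' : 3 ≤ σ.length := by rw [hσ.length_eq]; exact h3
      induction l with
      | nil => intro _; simp
      | cons e l ih =>
        intro hl
        obtain ⟨i1, i2⟩ := ih fun e he => hl e (List.mem_cons_of_mem _ he)
        have he := hl e List.mem_cons_self
        obtain ⟨m1, m2⟩ := mem_of_cyc he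
        rw [hσ.mem_iff] at m1 m2
        have hpos : 0 ≤ κ * Cm + η := by positivity
        have j1 : (lv e.2 = lv e.1 + 1 ∨ lv e.1 = lv e.2 + 1) →
            dst e.1 e.2 ≤ ψ e.1 + ψ e.2 + (κ * Cm + η) := by
          rintro (h1 | h1)
          · have a1 := (abs_le.1 (hg.near _ m1 _ m2 h1)).2
            have a2 := mul_le_mul_of_nonneg_left (hg.cm _ m1 _ m2 h1) hκ
            linarith
          · have a1 := (abs_le.1 (hg.near _ m2 _ m1 h1)).2
            have a2 := mul_le_mul_of_nonneg_left (hg.cm _ m2 _ m1 h1) hκ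
            rw [hg.symm e.1 e.2]
            linarith
        have j2 : ¬ (lv e.2 = lv e.1 + 1 ∨ lv e.1 = lv e.2 + 1) →
            dst e.1 e.2 ≤ ψ e.1 + ψ e.2 - Gap := by
          intro h1
          push Not at h1
          exact hg.far _ m1 _ m2 (cyc_ne hnd h3' he) h1.1 h1.2
        have j3 : dst e.1 e.2 ≤ ψ e.1 + ψ e.2 + (κ * Cm + η) := by
          by_cases h1 : lv e.2 = lv e.1 + 1 ∨ lv e.1 = lv e.2 + 1
          · exact j1 h1
          · linarith [j2 h1]
        simp only [List.map_cons, List.sum_cons, List.length_cons, Nat.cast_add, Nat.cast_one]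
        constructor
        · linarith
        · rintro ⟨f, hf, hf2⟩
          rw [List.mem_cons] at hf
          rcases hf with rfl | hf
          · have := j2 hf2
            linarith
          · have := i2 ⟨f, hf, hf2⟩
            linarith
    obtain ⟨u1, u2⟩ := hub σ hσ (cyc σ) fun e he => he
    obtain ⟨v1, v2⟩ := hub τ hτ (cyc τ) fun e he => he
    rw [sum_cyc_add hσ, cyc_length, hσ.length_eq] at u1 u2
    rw [sum_cyc_add hτ, cyc_length, hτ.length_eq] at v1 v2
    have hcσ : ∀ e ∈ cyc σ, lv e.2 = lv e.1 + 1 ∨ lv e.1 = lv e.2 + 1 := by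
      intro e he
      by_contra hn
      have := u2 ⟨e, he, hn⟩
      linarith
    have hcτ : ∀ e ∈ cyc τ, lv e.2 = lv e.1 + 1 ∨ lv e.1 = lv e.2 + 1 := by
      intro e he
      by_contra hn
      have := v2 ⟨e, he, hn⟩
      linarith
    have hSσ : ∀ v, v ∈ S ↔ v ∈ σ := fun v => by rw [hS, hσ.mem_iff]
    have hSτ : ∀ v, v ∈ S ↔ v ∈ τ := fun v => by rw [hS, hτ.mem_iff]
    refine ⟨_, _, two_of_cyc hndσ h3σ hSσ hcσ, two_of_cyc hndτ h3τ hSτ hcτ, ?_, ?_⟩
    · rw [Finset.disjoint_left]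
      intro x h1 h2
      rw [List.mem_toFinset, List.mem_map] at h1 h2
      obtain ⟨e, he, rfl⟩ := h1
      obtain ⟨f, hf, hfe⟩ := h2
      apply hd e he f hf
      have hmk : ∀ e : V × V, s(e.1, e.2) = s((ori e).1, (ori e).2) := by
        intro e
        rcases ori_eq e with h | h <;> rw [h]
        rw [Prod.fst_swap, Prod.snd_swap, Sym2.eq_swap]
      rw [hmk e, hmk f, hfe]
    · have s1 := (abs_le.1 (hone σ hσ hcσ)).2
      have s2 := (abs_le.1 (hone τ hτ hcτ)).2
      have hκ' : 0 < κ := by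
        have : 0 ≤ 2 * (L.length : ℝ) * η := by positivity
        linarith
      by_contra hn
      have hn' : (bud : ℝ) + 1 ≤ ((∑ e ∈ ((cyc σ).map ori).toFinset, h.cost e.1 e.2 : ℤ) : ℝ) +
          ((∑ e ∈ ((cyc τ).map ori).toFinset, h.cost e.1 e.2 : ℤ) : ℝ) := by
        have : bud + 1 ≤ ∑ e ∈ ((cyc σ).map ori).toFinset, h.cost e.1 e.2 +
          ∑ e ∈ ((cyc τ).map ori).toFinset, h.cost e.1 e.2 := by omega
        exact_mod_cast this
      have := mul_le_mul_of_nonneg_left hn' hκ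
      linarith
  · rintro ⟨A, B, hA, hB, hAB, hcost⟩
    obtain ⟨σ, hσ, rfl⟩ := cyc_of_two hA hL h3 hS
    obtain ⟨τ, hτ, rfl⟩ := cyc_of_two hB hL h3 hS
    have hcs : ∀ σ : List V, Two S ((cyc σ).map ori).toFinset →
        ∀ e ∈ cyc σ, lv e.2 = lv e.1 + 1 ∨ lv e.1 = lv e.2 + 1 := by
      intro σ hA e he
      have h1 := (hA.sub (ori e) (by rw [List.mem_toFinset, List.mem_map]; exact ⟨e, he, rfl⟩)).2.2
      rcases ori_eq e with h2 | h2
      · rw [h2] at h1; exact Or.inl h1
      · rw [h2] at h1; exact Or.inr h1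
    have s1 := (abs_le.1 (hone σ hσ (hcs σ hA))).1
    have s2 := (abs_le.1 (hone τ hτ (hcs τ hB))).1
    refine ⟨σ, τ, hσ, hτ, ?_, ?_⟩
    · intro e he f hf hef
      rw [Finset.disjoint_left] at hAB
      refine hAB (a := ori e) ?_ ?_
      · rw [List.mem_toFinset, List.mem_map]; exact ⟨e, he, rfl⟩
      · rw [List.mem_toFinset, List.mem_map]
        refine ⟨f, hf, ?_⟩
        rw [Sym2.eq_iff] at hef
        rcases hef with ⟨a1, a2⟩ | ⟨a1, a2⟩
        · rw [show e = f from Prod.ext a1 a2]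
        · have h1 : e = f.swap := Prod.ext a1 a2
          have h2 := hcs τ hB f hf
          rw [h1]
          unfold ori
          rw [Prod.fst_swap, Prod.snd_swap, Prod.swap_swap]
          rcases h2 with h2 | h2
          · rw [if_pos (by omega), if_neg (by omega)]
          · rw [if_neg (by omega), if_pos (by omega)]
    · have hc' : κ * (((∑ e ∈ ((cyc σ).map ori).toFinset, h.cost e.1 e.2 : ℤ) : ℝ) +
          ((∑ e ∈ ((cyc τ).map ori).toFinset, h.cost e.1 e.2 : ℤ) : ℝ)) ≤ κ * bud := by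
        apply mul_le_mul_of_nonneg_left _ hκ
        exact_mod_cast hcost
      linarith

end Pool.Agent.R533.PSP
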